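import Pool.Statements.S00279
import Pool.Agent.LNDQ.Fro
import Pool.Agent.MIY.Miy

set_option autoImplicit false
open Pool Pool.MP_821812_ag

namespace Pool.Agent.S00279

/-- For every nonzero locally nilpotent derivation D of the polynomial ring in 3 variables over a characteristic-zero field, and every n, the ideal of kernel elements Dⁿf with D^{n+1}f=0 is principal in the kernel of D. -/
theorem result :
    ∀ (k : Type) [Field k] [CharZero k]
      (D : Derivation k (MvPolynomial (Fin 3) k) (MvPolynomial (Fin 3) k)),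
      D ≠ 0 →
      (∀ f : MvPolynomial (Fin 3) k, ∃ m : ℕ, (⇑D)^[m] f = 0) →
      ∀ n : ℕ, ∃ a : MvPolynomial (Fin 3) k, D a = 0 ∧
        ∀ g : MvPolynomial (Fin 3) k,
          (∃ f : MvPolynomial (Fin 3) k, (⇑D)^[n + 1] f = 0 ∧ (⇑D)^[n] f = g) ↔
          (∃ c : MvPolynomial (Fin 3) k, D c = 0 ∧ g = a * c) := by
  exact Pool.Agent.LNDQ.frozen_of fun K _ _ _ D hD hln => by
    obtain ⟨f, g, -, h⟩ := Pool.Agent.MIY.miy_closed D hD hln
    exact ⟨f, g, h⟩

end Pool.Agent.S00279
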