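import Pool.Statements.S01466
-- import your own Pool.Agent.* helpers here
import Pool.Agent.Metab.Nonfree
import Pool.Agent.Metab.Mu
import Pool.Agent.Metab.Obstruct

set_option autoImplicit false
open Pool Pool.MP_52eb9f_al

namespace Pool.Agent.S01466

/-- The negation of the preceding statement: Every countable, non-finitely-generated metabelian group that is projective among metabelian groups (lifts along all surjections of metabelian groups) is isomorphic to the free metabelian group on countably many generators. -/
theorem result :
    ¬ (∀ (P : Type) [Group P],
      derivedSeries P 2 = ⊥ →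
      Countable P →
      ¬ Group.FG P →
      (∀ (G H : Type) [Group G] [Group H],
          derivedSeries G 2 = ⊥ → derivedSeries H 2 = ⊥ →
          ∀ (f : G →* H), Function.Surjective f →
          ∀ (g : P →* H), ∃ h : P →* G, f.comp h = g) →
      Nonempty (P ≃* (FreeGroup ℕ ⧸ derivedSeries (FreeGroup ℕ) 2))) := by
  intro h
  obtain ⟨φ⟩ := h Pool.Agent.Metab.GG Pool.Agent.Metab.isMetab_derivedSeries inferInstance
    Pool.Agent.Metab.not_fg (by
      intro G H _ _ hG hH f hf g
      have := Pool.Agent.Metab.isMetab_of hG
      have := Pool.Agent.Metab.isMetab_of hH
      exact Pool.Agent.Metab.projective f hf g)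
  exact (Pool.Agent.Metab.not_free Pool.Agent.Metab.obstructionLemma
    Pool.Agent.Metab.muLemma).false φ

end Pool.Agent.S01466
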