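import Pool.Statements.S01567
import Pool.Agent.P09.LoopCubes

set_option autoImplicit false
open Pool Pool.MP_5a0037_al

namespace Pool.Agent.S01567

/-- There is g : ℕ → ℕ such that every loop whose multiplication group is nilpotent of class ≤ c and which is supernilpotent (some higher commutator [1,…,1] vanishes) has supernilpotence class ≤ g(c). -/
theorem result :
    ∃ g : ℕ → ℕ, ∀ (Q : Type) [MulOneClass Q],
      (∀ a : Q, Function.Bijective (fun x : Q => a * x)) →
      (∀ a : Q, Function.Bijective (fun x : Q => x * a)) →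
      ∀ c n : ℕ,
      upperCentralSeries (↥(Subgroup.closure
          {σ : Equiv.Perm Q | ∃ a : Q, ((⇑σ) = fun x : Q => a * x) ∨ ((⇑σ) = fun x : Q => x * a)})) c = ⊤ →
      (∀ (m : ℕ) (p : (Fin n → Fin m → Q) → (Fin m → Q) → Q),
        (∀ S : Set ((Fin n → Fin m → Q) → (Fin m → Q) → Q),
          (∀ (i : Fin n) (j : Fin m), (fun (x : Fin n → Fin m → Q) (_ : Fin m → Q) => x i j) ∈ S) →
          (∀ j : Fin m, (fun (_ : Fin n → Fin m → Q) (y : Fin m → Q) => y j) ∈ S) →
          (∀ q : Q, (fun (_ : Fin n → Fin m → Q) (_ : Fin m → Q) => q) ∈ S) →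
          (∀ f ∈ S, ∀ h ∈ S, (fun (x : Fin n → Fin m → Q) (y : Fin m → Q) => f x y * h x y) ∈ S) →
          (∀ f ∈ S, ∀ h ∈ S, ∀ r : (Fin n → Fin m → Q) → (Fin m → Q) → Q,
            (∀ x y, f x y * r x y = h x y) → r ∈ S) →
          (∀ f ∈ S, ∀ h ∈ S, ∀ r : (Fin n → Fin m → Q) → (Fin m → Q) → Q,
            (∀ x y, r x y * f x y = h x y) → r ∈ S) →
          p ∈ S) →
        ∀ (a b : Fin n → Fin m → Q) (u v : Fin m → Q),
          (∀ s : Fin n → Bool, s ≠ (fun _ => true) →
            p (fun i => if s i then b i else a i) u = p (fun i => if s i then b i else a i) v) →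
          p b u = p b v) →
      (∀ (m : ℕ) (p : (Fin (g c) → Fin m → Q) → (Fin m → Q) → Q),
        (∀ S : Set ((Fin (g c) → Fin m → Q) → (Fin m → Q) → Q),
          (∀ (i : Fin (g c)) (j : Fin m), (fun (x : Fin (g c) → Fin m → Q) (_ : Fin m → Q) => x i j) ∈ S) →
          (∀ j : Fin m, (fun (_ : Fin (g c) → Fin m → Q) (y : Fin m → Q) => y j) ∈ S) →
          (∀ q : Q, (fun (_ : Fin (g c) → Fin m → Q) (_ : Fin m → Q) => q) ∈ S) →
          (∀ f ∈ S, ∀ h ∈ S, (fun (x : Fin (g c) → Fin m → Q) (y : Fin m → Q) => f x y * h x y) ∈ S) →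
          (∀ f ∈ S, ∀ h ∈ S, ∀ r : (Fin (g c) → Fin m → Q) → (Fin m → Q) → Q,
            (∀ x y, f x y * r x y = h x y) → r ∈ S) →
          (∀ f ∈ S, ∀ h ∈ S, ∀ r : (Fin (g c) → Fin m → Q) → (Fin m → Q) → Q,
            (∀ x y, r x y * f x y = h x y) → r ∈ S) →
          p ∈ S) →
        ∀ (a b : Fin (g c) → Fin m → Q) (u v : Fin m → Q),
          (∀ s : Fin (g c) → Bool, s ≠ (fun _ => true) →
            p (fun i => if s i then b i else a i) u = p (fun i => if s i then b i else a i) v) →
          p b u = p b v) := by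
  refine ⟨fun c => Pool.Agent.P09.LoopCubes.Dbd (Pool.Agent.P09.LoopCubes.kk c) c, ?_⟩
  intro Q _ hL hR c n hc _ m p hp a b u v h
  have hs : Pool.Agent.P09.LoopCubes.Sys (↥(Subgroup.closure
          {σ : Equiv.Perm Q | ∃ a : Q, ((⇑σ) = fun x : Q => a * x) ∨
            ((⇑σ) = fun x : Q => x * a)})) Q := by
    have hleft : ∀ x : Q, ∃ g : (↥(Subgroup.closure
          {σ : Equiv.Perm Q | ∃ a : Q, ((⇑σ) = fun x : Q => a * x) ∨
            ((⇑σ) = fun x : Q => x * a)})), ∀ y, x * y = g • y := by
      intro x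
      exact ⟨⟨Equiv.ofBijective _ (hL x), Subgroup.subset_closure ⟨x, Or.inl rfl⟩⟩,
        fun y => rfl⟩
    have hright : ∀ x : Q, ∃ g : (↥(Subgroup.closure
          {σ : Equiv.Perm Q | ∃ a : Q, ((⇑σ) = fun x : Q => a * x) ∨
            ((⇑σ) = fun x : Q => x * a)})), ∀ y, y * x = g • y := by
      intro x
      exact ⟨⟨Equiv.ofBijective _ (hR x), Subgroup.subset_closure ⟨x, Or.inr rfl⟩⟩,
        fun y => rfl⟩
    refine ⟨?_, hleft, hright⟩
    intro x y
    obtain ⟨g, hg⟩ := hleft x
    obtain ⟨g', hg'⟩ := hleft y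
    refine ⟨g' * g⁻¹, ?_⟩
    have h1 : g • (1 : Q) = x := by rw [← hg, mul_one]
    have h2 : g' • (1 : Q) = y := by rw [← hg', mul_one]
    rw [← h1, smul_smul, inv_mul_cancel_right, h2]
  have hDel : ∀ w : Fin m → Q, Pool.Agent.P09.LoopCubes.Del
      (Option (Fin (Pool.Agent.P09.LoopCubes.Dbd (Pool.Agent.P09.LoopCubes.kk c) c))) Q
      (fun T => p (fun i => if T (some i) then b i else a i) (if T none then w else u)) := by
    intro w
    apply hp {f | Pool.Agent.P09.LoopCubes.Del
      (Option (Fin (Pool.Agent.P09.LoopCubes.Dbd (Pool.Agent.P09.LoopCubes.kk c) c))) Q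
      (fun T => f (fun i => if T (some i) then b i else a i) (if T none then w else u))}
    · intro i j
      have e : (fun T : Option (Fin (Pool.Agent.P09.LoopCubes.Dbd
            (Pool.Agent.P09.LoopCubes.kk c) c)) → Bool =>
          (if T (some i) then b i else a i) j) =
          (fun T => if T (some i) = true then b i j else a i j) := by
        funext T
        split_ifs <;> rfl
      show Pool.Agent.P09.LoopCubes.Del _ Q (fun T => (if T (some i) then b i else a i) j)
      rw [e]
      exact Pool.Agent.P09.LoopCubes.Del.coord (some i) _ _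
    · intro j
      have e : (fun T : Option (Fin (Pool.Agent.P09.LoopCubes.Dbd
            (Pool.Agent.P09.LoopCubes.kk c) c)) → Bool =>
          (if T none then w else u) j) =
          (fun T => if T none = true then w j else u j) := by
        funext T
        split_ifs <;> rfl
      show Pool.Agent.P09.LoopCubes.Del _ Q (fun T => (if T none then w else u) j)
      rw [e]
      exact Pool.Agent.P09.LoopCubes.Del.coord none _ _
    · intro q
      exact Pool.Agent.P09.LoopCubes.Del.const q
    · intro f hf f' hf'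
      exact Pool.Agent.P09.LoopCubes.Del.mul _ _ hf hf'
    · intro f hf f' hf' r hr
      exact Pool.Agent.P09.LoopCubes.Del.ldiv _ _ _ hf hf' (fun T => hr _ _)
    · intro f hf f' hf' r hr
      exact Pool.Agent.P09.LoopCubes.Del.rdiv _ _ _ hf hf' (fun T => hr _ _)
  have key := Pool.Agent.P09.LoopCubes.unique_completion c _ Q hs hc
    (Option (Fin (Pool.Agent.P09.LoopCubes.Dbd (Pool.Agent.P09.LoopCubes.kk c) c)))
    (by simp) _ _ (hDel u) (hDel v) (by
      intro T hT
      by_cases h0 : T none = true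
      · simp only [h0, if_true]
        apply h (fun i => T (some i))
        intro h1
        apply hT
        funext x
        cases x with
        | none => exact h0
        | some i => exact congrFun h1 i
      · simp [h0])
  simpa using key

end Pool.Agent.S01567
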