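import Pool.Statements.S01643
import Pool.Agent.OH.Final
import Pool.Agent.OH.R1
import Pool.Agent.OH.S3
import Pool.Agent.OH.TXi

set_option autoImplicit false
open Pool Pool.MP_5f19f1_al

namespace Pool.Agent.S01643

open Pool.Agent.OH

/-- A well-order of `ℕ` (given by an injective rank function) whose ranks exhaust `α`. -/
lemma exists_rk (α : Ordinal.{0}) (hα : α.card ≤ Cardinal.aleph0) :
    ∃ rk : ℕ → Ordinal.{0}, Function.Injective rk ∧ ∀ g < α, ∃ a, rk a = g := by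
  have hc : Countable (Set.Iio (α + Ordinal.omega0)) := by
    rw [← Cardinal.mk_le_aleph0_iff, Cardinal.mk_Iio_ordinal, Ordinal.card_add,
      Ordinal.card_omega0, Cardinal.lift_le_aleph0]
    exact Cardinal.add_le_aleph0.mpr ⟨hα, le_rfl⟩
  have hi : Infinite (Set.Iio (α + Ordinal.omega0)) := by
    rw [Cardinal.infinite_iff, Cardinal.mk_Iio_ordinal, Ordinal.card_add, Ordinal.card_omega0,
      Cardinal.aleph0_le_lift]
    exact le_add_self
  obtain ⟨e⟩ := nonempty_equiv_of_countable (α := ℕ) (β := Set.Iio (α + Ordinal.omega0))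
  refine ⟨fun k => (e k).1, fun a b h => e.injective (Subtype.ext h), fun g hg => ?_⟩
  exact ⟨e.symm ⟨g, hg.trans_le (le_add_right le_rfl)⟩, by simp⟩

/-- For every countable ordinal α there is a variety of groups (a fully invariant subgroup of the free group on ℕ) such that every well-ordered chain of its proper subvarieties has order type at most α, and for each β<α some chain has type above β. -/
theorem result :
  ∀ α : Ordinal.{0}, α.card ≤ Cardinal.aleph0 →
    ∃ N : Subgroup (FreeGroup ℕ),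
      (∀ φ : FreeGroup ℕ →* FreeGroup ℕ, ∀ x ∈ N, φ x ∈ N) ∧
      (∀ S : Set (Subgroup (FreeGroup ℕ)),
        (∀ M ∈ S, (∀ φ : FreeGroup ℕ →* FreeGroup ℕ, ∀ x ∈ M, φ x ∈ M) ∧ N < M) →
        IsChain (· ≤ ·) S →
        (∀ T ⊆ S, T.Nonempty → ∃ M ∈ T, ∀ M' ∈ T, M' ≤ M) →
        ∃ f : Subgroup (FreeGroup ℕ) → Ordinal.{0},
          (∀ A ∈ S, f A < α) ∧ (∀ A ∈ S, ∀ B ∈ S, B < A → f A < f B)) ∧
      (∀ β < α, ∃ g : Ordinal.{0} → Subgroup (FreeGroup ℕ),
        (∀ γ ≤ β, (∀ φ : FreeGroup ℕ →* FreeGroup ℕ, ∀ x ∈ g γ, φ x ∈ g γ) ∧ N < g γ) ∧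
        (∀ γ δ : Ordinal.{0}, γ < δ → δ ≤ β → g δ < g γ)) := by
  intro α hα
  obtain ⟨rk, hrk, hsurj⟩ := exists_rk α hα
  refine final α (fun γ => NN (TX rk (Xg rk γ))) (fun γ _ => NN_fi _) ?_ ?_
  · intro γ δ hγδ hδ
    obtain ⟨a, rfl⟩ := hsurj γ (hγδ.trans_le hδ)
    refine NN_strict (fun l n => TX_fin2 rk _ l n) (fun l n => TX_fin2 rk _ l n) ?_
    refine lt_of_le_not_ge (TX_anti rk _ _ ?_) (TX_strict rk hrk a δ hγδ)
    rintro D ⟨hD, hD'⟩
    exact ⟨hD, fun b hb => (hD' b hb).trans hγδ⟩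
  · intro L hfi hmono hL
    exact NN_acc (fun l n => TX_fin2 rk _ l n)
      (fun K hK hXK => acc_all rk hrk (Xg rk α) (fun D hD => hD.1) K hK hXK) L hfi hmono hL

end Pool.Agent.S01643
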