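import Pool.Statements.S01791
import Pool.Agent.HS.Main

set_option autoImplicit false
open Pool Pool.MP_6a591b_al

namespace Pool.Agent.S01791

/-- For every field k and numerical semigroup with minimal generators g₀<…<gₙ, the i-th Betti number dim Torᵢ^S(S/I*, k) of the tangent cone (I* = initial-form ideal of the toric ideal) is at most i·C(gₙ−g₀+1, i+1) for all i ≥ 1. -/
theorem result :
  ∀ (k : Type) [Field k] (n : ℕ) (g : Fin (n+1) → ℕ),
    StrictMono g → (∀ j, 0 < g j) →
    ((AddSubmonoid.closure (Set.range g) : Set ℕ)ᶜ).Finite →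
    (∀ j, g j ∉ AddSubmonoid.closure (g '' {l | l ≠ j})) →
    ∀ i : ℕ, 1 ≤ i →
      Module.length (MvPolynomial (Fin (n+1)) k)
        (((CategoryTheory.Tor (ModuleCat.{0} (MvPolynomial (Fin (n+1)) k)) i).obj
          (ModuleCat.of (MvPolynomial (Fin (n+1)) k)
            (MvPolynomial (Fin (n+1)) k ⧸ Ideal.span
              {p : MvPolynomial (Fin (n+1)) k | ∃ f ∈ RingHom.ker
                  (MvPolynomial.aeval (fun j : Fin (n+1) => (Polynomial.X : Polynomial k) ^ g j)),
                ∃ d : ℕ, (∀ m : ℕ, m < d → MvPolynomial.homogeneousComponent m f = 0) ∧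
                  p = MvPolynomial.homogeneousComponent d f}))).obj
          (ModuleCat.of (MvPolynomial (Fin (n+1)) k)
            (MvPolynomial (Fin (n+1)) k ⧸
              Ideal.span (Set.range (MvPolynomial.X : Fin (n+1) → MvPolynomial (Fin (n+1)) k)))))
      ≤ ((i * Nat.choose (g (Fin.last n) - g 0 + 1) (i+1) : ℕ) : ℕ∞) := by
  intro k _ n g hmono hpos hfin _ i hi
  refine (Pool.Agent.HS.tor_le_hl k (n + 1) _ i).trans ?_
  have h1 := Pool.Agent.HS.hl_quotient (Pool.Agent.HS.Istar k g) Finset.univ i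
  exact h1.symm.le.trans (Pool.Agent.HS.hl_le_width n g hmono hpos hfin i hi)

end Pool.Agent.S01791
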