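import Pool.Statements.S02012
import Pool.Agent.BranchNorm.Basic

set_option autoImplicit false
open Pool Pool.MP_79f901_al

namespace Pool.Agent.S02012

open Pool.Agent.BranchNorm

/-- vertices of the tree of the frozen statement -/
abbrev V : Type := {l : List ℕ // ∀ i (h : i < l.length), l.get ⟨i, h⟩ < (fun _ : ℕ => 2) i}

/-- the identification with binary words -/
def e : V ≃ T where
  toFun v := v.1.map (fun n => decide (n = 1))
  invFun w := ⟨w.map (fun b => if b then 1 else 0), by
    intro i h
    simp only [List.get_eq_getElem, List.getElem_map]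
    split_ifs <;> norm_num⟩
  left_inv := by
    rintro ⟨l, hl⟩
    ext1
    simp only [List.map_map]
    apply List.ext_getElem
    · simp
    · intro i h1 h2
      have h3 := hl i h2
      simp only [List.get_eq_getElem] at h3
      simp only [List.getElem_map, Function.comp]
      generalize l[i] = x at *
      interval_cases x <;> simp
  right_inv := by
    intro w
    simp only [List.map_map]
    conv_rhs => rw [← List.map_id w]
    apply List.map_congr_left
    intro b _
    cases b <;> simp

lemma e_length (v : V) : (e v).length = v.1.length := by simp [e]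

lemma e_prefix (v w : V) : v.1 <+: w.1 ↔ e v <+: e w := by
  constructor
  · intro h
    exact h.map _
  · intro h
    have h1 := h.map (fun b : Bool => if b then 1 else 0)
    have h2 : ∀ v : V, (e v).map (fun b : Bool => if b then 1 else 0) = v.1 := by
      intro v
      exact congrArg Subtype.val (e.symm_apply_apply v)
    rwa [h2, h2] at h1

/-- the identification of permutation groups -/
def E : Equiv.Perm V ≃* Equiv.Perm T where
  toFun g := (e.symm.trans g).trans e
  invFun g := (e.trans g).trans e.symm
  left_inv g := by ext1 v; simp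
  right_inv g := by ext1 v; simp
  map_mul' g h := by ext1 v; simp

lemma E_apply (g : Equiv.Perm V) (v : V) : E g (e v) = e (g v) := by
  simp [E]

lemma E_symm_apply (g : Equiv.Perm T) (v : V) : e (E.symm g v) = g (e v) := by
  rw [← E_apply, MulEquiv.apply_symm_apply]

/-- the branch group on the frozen tree -/
def L' : Subgroup (Equiv.Perm V) := L.comap E.toMonoidHom

lemma mem_L' (g : Equiv.Perm V) : g ∈ L' ↔ E g ∈ L := Iff.rfl

/-- L' is isomorphic to L -/
def EL : L' ≃* L where
  toFun g := ⟨E g.1, g.2⟩
  invFun g := ⟨E.symm g.1, by rw [mem_L', MulEquiv.apply_symm_apply]; exact g.2⟩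
  left_inv g := by ext1; simp
  right_inv g := by ext1; simp
  map_mul' g h := by ext1; simp

theorem result :
    ¬ (∀ (m : ℕ → ℕ), (∀ n, 2 ≤ m n) →
    ∀ L : Subgroup (Equiv.Perm {l : List ℕ // ∀ i (h : i < l.length), l.get ⟨i, h⟩ < m i}),
    (∀ g ∈ L, ∀ v w : {l : List ℕ // ∀ i (h : i < l.length), l.get ⟨i, h⟩ < m i},
        (List.IsPrefix v.1 w.1 ↔ List.IsPrefix (g v).1 (g w).1)) →
    (∀ v w : {l : List ℕ // ∀ i (h : i < l.length), l.get ⟨i, h⟩ < m i},
        v.1.length = w.1.length → ∃ g ∈ L, g v = w) →
    (∀ n : ℕ, ((Subgroup.closure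
        {g : Equiv.Perm {l : List ℕ // ∀ i (h : i < l.length), l.get ⟨i, h⟩ < m i} |
          g ∈ L ∧ ∃ u : {l : List ℕ // ∀ i (h : i < l.length), l.get ⟨i, h⟩ < m i},
            u.1.length = n ∧
            ∀ v : {l : List ℕ // ∀ i (h : i < l.length), l.get ⟨i, h⟩ < m i},
              ¬ List.IsPrefix u.1 v.1 → g v = v}).subgroupOf L).index ≠ 0) →
    ∀ φ : L ≃* L,
      ∃! σ : Equiv.Perm {l : List ℕ // ∀ i (h : i < l.length), l.get ⟨i, h⟩ < m i},
        (∀ v w : {l : List ℕ // ∀ i (h : i < l.length), l.get ⟨i, h⟩ < m i},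
          (List.IsPrefix v.1 w.1 ↔ List.IsPrefix (σ v).1 (σ w).1)) ∧
        ∀ g : L, ((φ g : L) : Equiv.Perm {l : List ℕ // ∀ i (h : i < l.length), l.get ⟨i, h⟩ < m i})
          = σ * (g : Equiv.Perm {l : List ℕ // ∀ i (h : i < l.length), l.get ⟨i, h⟩ < m i}) * σ⁻¹) := by
  intro H
  have H1 := H (fun _ => 2) (fun _ => le_refl 2) L' ?_ ?_ ?_ ((EL.trans phi).trans EL.symm)
  · obtain ⟨σ, ⟨hσ1, hσ2⟩, -⟩ := H1
    refine phi_not_conj (E σ) ?_ ?_
    · intro v w
      have h1 := hσ1 (e.symm v) (e.symm w)
      rw [e_prefix, e_prefix, ← E_apply, ← E_apply] at h1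
      simpa using h1
    · intro g
      have h1 := hσ2 (EL.symm g)
      have h2 := congrArg E h1
      rw [map_mul, map_mul, map_inv] at h2
      have h3 : E ((EL.symm g : L') : Equiv.Perm V) = g.1 := by simp [EL]
      have h4 : E ((((EL.trans phi).trans EL.symm) (EL.symm g) : L') : Equiv.Perm V) = (phi g).1 := by
        simp [EL]
      rw [h3] at h2
      rw [← h2]
      exact h4.symm
  · intro g hg v w
    rw [e_prefix, e_prefix, ← E_apply, ← E_apply]
    exact hg.1 _ _
  · intro v w hvw
    obtain ⟨g, hg, hgv⟩ := L_trans (e v) (e w) (by rw [e_length, e_length]; exact hvw)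
    refine ⟨E.symm g, by rw [mem_L', MulEquiv.apply_symm_apply]; exact hg, ?_⟩
    apply e.injective
    rw [E_symm_apply, hgv]
  · intro n
    have h1 : (Subgroup.closure (S n)).relIndex L ≠ 0 := index_ne n
    have h2 : Subgroup.map E.toMonoidHom L' = L := by
      rw [L', Subgroup.map_comap_eq_self_of_surjective]
      exact E.surjective
    have h3 : ((Subgroup.closure (S n)).comap E.toMonoidHom).relIndex L' ≠ 0 := by
      rw [Subgroup.relIndex_comap, h2]
      exact h1
    have h4 : (Subgroup.closure (S n)).comap E.toMonoidHom ≤ Subgroup.closure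
        {g : Equiv.Perm V | g ∈ L' ∧ ∃ u : V, u.1.length = n ∧
            ∀ v : V, ¬ List.IsPrefix u.1 v.1 → g v = v} := by
      have h5 : (Subgroup.closure (S n)).comap E.toMonoidHom
          = (Subgroup.closure (S n)).map E.symm.toMonoidHom :=
        Subgroup.comap_equiv_eq_map_symm' E (Subgroup.closure (S n))
      rw [h5, MonoidHom.map_closure]
      apply Subgroup.closure_mono
      rintro _ ⟨g, ⟨hg, u, hu, huv⟩, rfl⟩
      refine ⟨?_, e.symm u, ?_, ?_⟩
      · show E (E.symm g) ∈ L
        rw [MulEquiv.apply_symm_apply]; exact hg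
      · rw [← e_length]; simpa using hu
      · intro v hv
        apply e.injective
        show e (E.symm g v) = e v
        rw [E_symm_apply]
        apply huv
        intro h
        apply hv
        rw [e_prefix]
        simpa using h
    show (Subgroup.closure
        {g : Equiv.Perm V | g ∈ L' ∧ ∃ u : V, u.1.length = n ∧
            ∀ v : V, ¬ List.IsPrefix u.1 v.1 → g v = v}).relIndex L' ≠ 0
    exact ne_zero_of_dvd_ne_zero h3 (Subgroup.relIndex_dvd_of_le_left _ h4)

end Pool.Agent.S02012
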