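import Pool.Statements.S02201
import Pool.Agent.OneRelCS.Final

set_option autoImplicit false
open Pool Pool.MP_8a7b18_al

namespace Pool.Agent.S02201

/-- For every finite n and every word r in the free group on n generators, some finite automaton accepts a set of words that maps bijectively onto the group ⟨x₁,…,xₙ ∣ r⟩. -/
theorem result :
    ∀ (n : ℕ) (r : FreeGroup (Fin n)),
      ∃ (σ : Type) (_ : Fintype σ) (M : DFA (Fin n × Bool) σ),
        Function.Bijective
          (fun w : {w : List (Fin n × Bool) // w ∈ M.accepts} =>
            PresentedGroup.mk ({r} : Set (FreeGroup (Fin n))) (FreeGroup.mk w.1)) := by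
  intro n r
  exact Pool.Agent.OneRelCS.final r

end Pool.Agent.S02201
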