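import Pool.Statements.S02460
import Pool.Agent.OneRel.Final

set_option autoImplicit false
open Pool Pool.MP_9b52e9_al

namespace Pool.Agent.S02460

/-- The negation of the preceding statement: For every n ≥ 3, every k and every relator r in the free group on k generators, it is decidable whether a word is trivial in the free group modulo its n-th derived subgroup together with the normal closure of r. -/
theorem result :
    ¬ (∀ n : ℕ, 3 ≤ n → ∀ k : ℕ, ∀ r : FreeGroup (Fin k),
      ComputablePred (fun w : List (Fin k × Bool) =>
        FreeGroup.mk w ∈ derivedSeries (FreeGroup (Fin k)) n ⊔ Subgroup.normalClosure {r})) := by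
  intro h
  obtain ⟨r, hr⟩ := Pool.Agent.OneRel.main
  exact hr (h 3 le_rfl 2 r)

end Pool.Agent.S02460
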