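import Pool.Statements.S02871
import Pool.Agent.CStarLift.Final

set_option autoImplicit false
open Pool Pool.MP_ba91e3_al
open Pool.Agent.CStarLift

namespace Pool.Agent.S02871

/-- There are C*-algebras A_n and *-homomorphisms A_f, functorial in monoid maps f: ℕ^m→ℕ^n, with natural monoid isomorphisms from the Murray–von Neumann monoid of projections over A_n onto ℕ^n, i.e. V∘Ψ ≅ id on simplicial monoids. -/
theorem result :
  ∃ (A : ℕ → Type) (_ : ∀ n, NonUnitalCStarAlgebra (A n))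
    (F : ∀ m n : ℕ, ((Fin m → ℕ) →+ (Fin n → ℕ)) → (A m →⋆ₙₐ[ℂ] A n))
    (φ : ∀ n k : ℕ, Matrix (Fin k) (Fin k) (A n) → (Fin n → ℕ)),
    (∀ n : ℕ, F n n (AddMonoidHom.id (Fin n → ℕ)) = NonUnitalStarAlgHom.id ℂ (A n)) ∧
    (∀ (m n l : ℕ) (f : (Fin m → ℕ) →+ (Fin n → ℕ)) (g : (Fin n → ℕ) →+ (Fin l → ℕ)),
      F m l (g.comp f) = (F n l g).comp (F m n f)) ∧
    (∀ (n k l : ℕ) (p : Matrix (Fin k) (Fin k) (A n)) (q : Matrix (Fin l) (Fin l) (A n)),
      p * p = p → p.conjTranspose = p → q * q = q → q.conjTranspose = q →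
      ((φ n k p = φ n l q ↔
          ∃ v : Matrix (Fin l) (Fin k) (A n), v.conjTranspose * v = p ∧ v * v.conjTranspose = q) ∧
        φ n (k + l) (Matrix.reindex finSumFinEquiv finSumFinEquiv (Matrix.fromBlocks p 0 0 q))
          = φ n k p + φ n l q)) ∧
    (∀ (n : ℕ) (x : Fin n → ℕ), ∃ (k : ℕ) (p : Matrix (Fin k) (Fin k) (A n)),
      p * p = p ∧ p.conjTranspose = p ∧ φ n k p = x) ∧
    (∀ (m n : ℕ) (f : (Fin m → ℕ) →+ (Fin n → ℕ)) (k : ℕ) (p : Matrix (Fin k) (Fin k) (A m)),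
      p * p = p → p.conjTranspose = p →
      φ n k (p.map (fun x => F m n f x)) = f (φ m k p)) := by
  refine ⟨AA, instAA, FF, fun n k p i => rf p (cf i), FF_id, FF_comp, ?_, ?_, ?_⟩
  · intro n k l p q hp1 hp2 hq1 hq2
    refine ⟨⟨fun h => ?_, ?_⟩, ?_⟩
    · apply exists_mvn_of_rf_eq hp1 hp2 hq1 hq2
      intro f
      rw [rf_eq hp1 hp2 f, rf_eq hq1 hq2 f]
      exact congrArg f h
    · rintro ⟨v, h1, h2⟩
      funext i
      exact rf_eq_of_mvn hp1 hp2 hq1 hq2 v h1 h2 (cf i)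
    · funext i
      exact rf_block hp1 hp2 hq1 hq2 (cf i)
  · intro n x
    obtain ⟨a, ha1, ha2, ha3⟩ := exists_of_vector x
    refine ⟨1, Matrix.of (fun _ _ => a), ?_, ?_, ?_⟩
    · ext1 i j
      simp [Matrix.mul_apply, ha1]
    · ext1 i j
      simp [Matrix.conjTranspose_apply, ha2]
    · funext i
      exact rf_single ha1 ha2 ha3 (cf i)
  · intro m n f k p hp1 hp2
    funext i
    exact rf_push hp1 hp2 f i

end Pool.Agent.S02871
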