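import Pool.Statements.S03202
import Pool.Agent.InvGen.Main

set_option autoImplicit false
open Pool Pool.MP_d69214_al

namespace Pool.Agent.S03202

open Pool.Agent.InvGen
open scoped commutatorElement

/-- a normal subgroup of G containing a non-trivial transvection is everything -/
lemma normal_top (C : Subgroup G) [hC : C.Normal] (y : L) (hy : y ∈ K0) (hy0 : y ≠ 0)
    (hE : (⟨E y, E_mem hy⟩ : G) ∈ C) : C = ⊤ := by
  let C' : Subgroup GL2 := C.map G.subtype
  have hmem : ∀ (g : GL2) (hg : g ∈ G), g ∈ C' ↔ (⟨g, hg⟩ : G) ∈ C := by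
    intro g hg
    constructor
    · rintro ⟨⟨g', hg'⟩, h1, h2⟩
      have : g' = g := h2
      subst this
      exact h1
    · intro h
      exact ⟨⟨g, hg⟩, h, rfl⟩
  have hconj : ∀ g ∈ G, ∀ c ∈ C', g * c * g⁻¹ ∈ C' := by
    rintro g hg _ ⟨c, h1, rfl⟩
    have h2 := hC.conj_mem c h1 ⟨g, hg⟩
    exact Subgroup.mem_map_of_mem G.subtype h2
  have hall : ∀ μ ∈ K0, E μ ∈ C' := by
    intro μ hμ
    by_cases hμ0 : μ = 0
    · have : E μ = 1 := by rw [mk_one]; exact mk_congr _ rfl hμ0 rfl rfl
      rw [this]; exact one_mem _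
    obtain ⟨l, hl, hlμ⟩ := K0_sqrt (div_mem hμ hy)
    have hl0 : l ≠ 0 := by
      rintro rfl
      have : μ / y = 0 := by rw [← hlμ]; ring
      rw [div_eq_zero_iff] at this
      exact this.elim hμ0 hy0
    have h1 := hconj _ (D_mem hl hl0) _ ((hmem _ (E_mem hy)).2 hE)
    have h2 : D l hl0 * E y * (D l hl0)⁻¹ = E μ := by
      unfold D E
      rw [mk_inv, mk_mul, mk_mul]
      apply mk_congr
      · field_simp; ring
      · have h3 : l ^ 2 * y = μ := by rw [hlμ]; field_simp
        rw [← h3]; ring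
      · ring
      · field_simp; ring
    rwa [h2] at h1
  have hw : (0 : L) * 0 - 1 * 1 = 1 := by
    have := two_eq_zero
    linear_combination -this
  have hwG : mk 0 1 1 0 hw ∈ G :=
    ⟨_, _, _, _, _, zero_mem _, one_mem _, one_mem _, zero_mem _, rfl⟩
  have hall' : ∀ μ ∈ K0, E' μ ∈ C' := by
    intro μ hμ
    have h1 := hconj _ hwG _ (hall μ hμ)
    have h2 : mk 0 1 1 0 hw * E μ * (mk 0 1 1 0 hw)⁻¹ = E' μ := by
      unfold E E'
      rw [mk_inv, mk_mul, mk_mul]
      have := two_eq_zero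
      apply mk_congr
      · linear_combination -this
      · ring
      · linear_combination -μ * this
      · linear_combination -this
    rwa [h2] at h1
  have h := gen C' hall hall'
  rw [eq_top_iff]
  rintro ⟨g, hg⟩ -
  exact (hmem g hg).1 (h hg)

lemma exists_l : ∃ l ∈ K0, l ≠ 0 ∧ l ≠ 1 := by
  by_contra hcon
  push Not at hcon
  apply K0_infinite
  apply Set.Finite.subset (Set.toFinite ({0, 1} : Set L))
  intro x hx
  by_cases h : x = 0
  · simp [h]
  · simp [hcon x hx h]

lemma commutator_top : commutator G = ⊤ := by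
  obtain ⟨l, hl, hl0, hl1⟩ := exists_l
  have hy : l ^ 2 - 1 ∈ K0 := sub_mem (pow_mem hl 2) (one_mem _)
  have hy0 : l ^ 2 - 1 ≠ 0 := by
    intro h
    have h1 : (l - 1) ^ 2 = 0 := by
      have := two_eq_zero
      linear_combination h + (1 - l) * this
    have := pow_eq_zero_iff (two_ne_zero) |>.mp h1
    exact hl1 (sub_eq_zero.mp this)
  apply normal_top _ (l ^ 2 - 1) hy hy0
  have h1 : (⟨E (l ^ 2 - 1), E_mem hy⟩ : G) =
      ⁅(⟨D l hl0, D_mem hl hl0⟩ : G), (⟨E 1, E_mem (one_mem _)⟩ : G)⁆ := by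
    ext1
    show E (l ^ 2 - 1) = D l hl0 * E 1 * (D l hl0)⁻¹ * (E 1)⁻¹
    unfold D E
    rw [mk_inv, mk_inv, mk_mul, mk_mul, mk_mul]
    apply mk_congr
    · field_simp; ring
    · field_simp; ring
    · ring
    · field_simp; ring
  rw [h1]
  exact Subgroup.commutator_mem_commutator (Subgroup.mem_top _) (Subgroup.mem_top _)

lemma not_virt_solvable (N : Subgroup G) (h1 : N.FiniteIndex) (h2 : Group.IsSolvable N) :
    False := by
  have hinf : Infinite K0 := K0_infinite.to_subtype
  have hfi : N.normalCore.FiniteIndex := inferInstance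
  have hfin : Finite (G ⧸ N.normalCore) := Subgroup.finite_quotient_of_finiteIndex
  obtain ⟨x, y, hxy, hq⟩ := Finite.exists_ne_map_eq_of_infinite
    (fun x : K0 => ((⟨E x, E_mem x.2⟩ : G) : G ⧸ N.normalCore))
  rw [QuotientGroup.eq] at hq
  have hyx : (y : L) - x ∈ K0 := sub_mem y.2 x.2
  have hyx0 : (y : L) - x ≠ 0 := by
    intro h
    apply hxy
    ext1
    exact (sub_eq_zero.mp h).symm
  have h3 : (⟨E x, E_mem x.2⟩ : G)⁻¹ * ⟨E y, E_mem y.2⟩ = ⟨E ((y : L) - x), E_mem hyx⟩ := by
    ext1
    show (E x)⁻¹ * E y = E _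
    unfold E
    rw [mk_inv, mk_mul]
    apply mk_congr <;> ring
  rw [h3] at hq
  have h4 : N.normalCore = ⊤ := normal_top _ _ hyx hyx0 hq
  have h5 : N = ⊤ := by
    rw [eq_top_iff, ← h4]
    exact Subgroup.normalCore_le N
  subst h5
  have h6 : Group.IsSolvable G := by
    have : Function.Injective (Subgroup.topEquiv (G := G)).symm.toMonoidHom :=
      (Subgroup.topEquiv (G := G)).symm.injective
    exact Group.isSolvable_of_isSolvable_injective this
  have h7 : Nontrivial G := by
    refine ⟨⟨⟨E 1, E_mem (one_mem _)⟩, 1, ?_⟩⟩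
    intro h
    exact one_ne_zero (E_eq_one (congrArg Subtype.val h))
  have h8 := Group.IsSolvable.commutator_lt_top_of_nontrivial G
  rw [commutator_top] at h8
  exact lt_irrefl _ h8

/-- The negation of the preceding statement: For every field K and n, if a subgroup G of GL_n(K) is invariably generated (every subset meeting all conjugacy classes of G generates G), then G has a solvable subgroup of finite index. -/
theorem result :
    ¬ (∀ (K : Type) [Field K] (n : ℕ) (G : Subgroup (Matrix.GeneralLinearGroup (Fin n) K)),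
      (∀ S : Set G, (∀ g : G, ∃ s ∈ S, IsConj g s) → Subgroup.closure S = ⊤) →
      ∃ H : Subgroup G, H.FiniteIndex ∧ IsSolvable H) := by
  intro hall
  obtain ⟨N, h1, h2⟩ := hall L 2 G (by
    intro S hS
    have key : G ≤ (Subgroup.closure S).map G.subtype := by
      apply main
      · rintro _ ⟨g, _, rfl⟩
        exact g.2
      · intro g hg
        obtain ⟨s, hs, hgs⟩ := hS ⟨g, hg⟩
        rw [isConj_iff] at hgs
        obtain ⟨c, hc⟩ := hgs
        refine ⟨c, c.2, s, Subgroup.subset_closure hs, ?_⟩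
        rw [← hc]
        rfl
    rw [eq_top_iff]
    rintro ⟨g, hg⟩ -
    obtain ⟨g', h1, h2⟩ := key hg
    have : g' = ⟨g, hg⟩ := Subtype.ext h2
    rw [← this]
    exact h1)
  exact not_virt_solvable N h1 h2

end Pool.Agent.S03202
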