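-- Proof of the frozen statement S03781.
import Pool.Statements.S03781
import Pool.Agent.AffFib.Final

set_option autoImplicit false
open scoped Topology
open Pool Pool.MP_0b4183_an

namespace Pool.Agent.S03781

/-- If ψ is holomorphic on a connected open Ω in C^n, its Hessian has maximal rank k (0<k<n), and rank-k level sets of ∇ψ are affine (n−k)-planes, then every point where the kernel field has no local continuous extension lies on a positive-dimensional affine piece of such points. -/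
theorem result :
    ∀ (n k : ℕ) (Ω : Set (Fin n → ℂ)) (ψ : (Fin n → ℂ) → ℂ)
      (r : (Fin n → ℂ) → ℕ) (K : (Fin n → ℂ) → Submodule ℂ (Fin n → ℂ)),
      IsOpen Ω → IsConnected Ω → AnalyticOnNhd ℂ ψ Ω →
      (∀ ξ : Fin n → ℂ, r ξ = Module.finrank ℂ (LinearMap.range
        ((fderiv ℂ (fderiv ℂ ψ) ξ : (Fin n → ℂ) →L[ℂ] ((Fin n → ℂ) →L[ℂ] ℂ)) :
          (Fin n → ℂ) →ₗ[ℂ] ((Fin n → ℂ) →L[ℂ] ℂ)))) →
      (∀ ξ : Fin n → ℂ, K ξ = LinearMap.ker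
        ((fderiv ℂ (fderiv ℂ ψ) ξ : (Fin n → ℂ) →L[ℂ] ((Fin n → ℂ) →L[ℂ] ℂ)) :
          (Fin n → ℂ) →ₗ[ℂ] ((Fin n → ℂ) →L[ℂ] ℂ))) →
      1 ≤ k → k ≤ n - 1 →
      (∀ ξ ∈ Ω, r ξ ≤ k) →
      (∃ ξ ∈ Ω, r ξ = k) →
      (∀ ξ ∈ Ω, r ξ = k →
        ∃ V : Submodule ℂ (Fin n → ℂ), Module.finrank ℂ V = n - k ∧
          {η | η ∈ Ω ∧ fderiv ℂ ψ η = fderiv ℂ ψ ξ} = {η | η ∈ Ω ∧ η - ξ ∈ V}) →
      ∀ S : Set (Fin n → ℂ),
        S = {ξ | ξ ∈ Ω ∧ ¬ ∃ U : Set (Fin n → ℂ),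
              IsOpen U ∧ ξ ∈ U ∧ U ⊆ Ω ∧
              ∃ v : Fin (n - k) → (Fin n → ℂ) → (Fin n → ℂ),
                (∀ i, ContinuousOn (v i) U) ∧
                (∀ η ∈ U, LinearIndependent ℂ (fun i => v i η)) ∧
                (∀ η ∈ U, r η = k →
                  Submodule.span ℂ (Set.range (fun i => v i η)) = K η)} →
        ∀ ξ ∈ S, ∃ V : Submodule ℂ (Fin n → ℂ), V ≠ ⊥ ∧
          ∃ U ∈ 𝓝 ξ, ∀ η ∈ U, η - ξ ∈ V → η ∈ S := by
  intro n k Ω ψ r K hΩ hconn hψ hr hK hk1 hkn hrle hrex hA2 S hS ξ hξ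
  have hfr : Module.finrank ℂ (Fin n → ℂ) = n := by simp
  have hrk : ∀ ξ, r ξ = Pool.Agent.AffFib.rk (fderiv ℂ ψ) ξ := hr
  have hKK : ∀ ξ, K ξ = Pool.Agent.AffFib.K (fderiv ℂ ψ) ξ := hK
  have han : AnalyticOnNhd ℂ (fderiv ℂ ψ) Ω := hψ.fderiv
  have hAF : Pool.Agent.AffFib.AF Ω (fderiv ℂ ψ) k := by
    refine ⟨hΩ, hconn.isPreconnected, han, fun ξ hξ => hrk ξ ▸ hrle ξ hξ, ?_, ?_⟩
    · obtain ⟨ξ, hξ, h⟩ := hrex
      exact ⟨ξ, hξ, hrk ξ ▸ h⟩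
    · intro ξ hξ hrξ η hη
      obtain ⟨V, hV, hlev⟩ := hA2 ξ hξ ((hrk ξ).trans hrξ)
      have hiff : ∀ η ∈ Ω, (fderiv ℂ ψ η = fderiv ℂ ψ ξ ↔ η - ξ ∈ V) := by
        intro η hη
        constructor
        · intro h
          have : η ∈ {η | η ∈ Ω ∧ fderiv ℂ ψ η = fderiv ℂ ψ ξ} := ⟨hη, h⟩
          rw [hlev] at this
          exact this.2
        · intro h
          have : η ∈ {η | η ∈ Ω ∧ η - ξ ∈ V} := ⟨hη, h⟩
          rw [← hlev] at this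
          exact this.2
      have hVK : V ≤ Pool.Agent.AffFib.K (fderiv ℂ ψ) ξ := by
        intro v hv
        rw [Pool.Agent.AffFib.mem_K]
        have h1 : HasDerivAt (fun s : ℂ => ξ + s • v) v 0 := by
          simpa using ((hasDerivAt_id (0 : ℂ)).smul_const v).const_add ξ
        have h2 : HasFDerivAt (fderiv ℂ ψ) (fderiv ℂ (fderiv ℂ ψ) ξ) (ξ + (0 : ℂ) • v) := by
          simpa using (han ξ hξ).differentiableAt.hasFDerivAt
        have h3 : HasDerivAt (fderiv ℂ ψ ∘ fun s : ℂ => ξ + s • v)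
            (fderiv ℂ (fderiv ℂ ψ) ξ v) 0 := HasFDerivAt.comp_hasDerivAt (0 : ℂ) h2 h1
        have h4 : (fderiv ℂ ψ ∘ fun s : ℂ => ξ + s • v) =ᶠ[𝓝 0] fun _ => fderiv ℂ ψ ξ := by
          have h5 : Filter.Tendsto (fun s : ℂ => ξ + s • v) (𝓝 0) (𝓝 ξ) := by
            simpa using h1.continuousAt.tendsto
          filter_upwards [h5 (hΩ.mem_nhds hξ)] with s hs
          refine (hiff _ hs).mpr ?_
          rw [add_sub_cancel_left]
          exact V.smul_mem s hv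
        have h6 : HasDerivAt (fderiv ℂ ψ ∘ fun s : ℂ => ξ + s • v) 0 0 :=
          (hasDerivAt_const (0 : ℂ) (fderiv ℂ ψ ξ)).congr_of_eventuallyEq h4
        exact h3.unique h6
      have hfK := Pool.Agent.AffFib.finrank_K (fderiv ℂ ψ) ξ
      rw [hrξ, hfr] at hfK
      have hVeq : V = Pool.Agent.AffFib.K (fderiv ℂ ψ) ξ := by
        apply Submodule.eq_of_le_of_finrank_eq hVK
        rw [hV]
        omega
      rw [← hVeq]
      exact hiff η hη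
  -- membership in S in terms of `Reg`
  have hmemS : ∀ η, η ∈ S ↔ η ∈ Ω ∧ ¬ Pool.Agent.AffFib.Reg Ω (fderiv ℂ ψ) k (n - k) η := by
    intro η
    rw [hS]
    constructor
    · rintro ⟨hη, hno⟩
      refine ⟨hη, ?_⟩
      rintro ⟨U, p, Q, t, hηU⟩
      apply hno
      obtain ⟨v, hv1, hv2, hv3⟩ := Pool.Agent.AffFib.frame_of_triv t
      exact ⟨U, t.isOpen, hηU, t.sub, v, hv1, hv2, fun η hη hrη => (hKK η).symm ▸ hv3 η hη (hrk η ▸ hrη)⟩
    · rintro ⟨hη, hno⟩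
      refine ⟨hη, ?_⟩
      rintro ⟨U, hU, hηU, hUΩ, v, hv1, hv2, hv3⟩
      apply hno
      obtain ⟨U', p, Q, t, ht⟩ := Pool.Agent.AffFib.triv_of_frame (k := k) (Γ := fderiv ℂ ψ)
        (Ω := Ω) hU hUΩ hv1 hv2
        (fun η hη hrη => (hv3 η hη ((hrk η).trans hrη)).trans (hKK η)) hηU
      exact ⟨U', p, Q, t, ht⟩
  obtain ⟨hξΩ, hξs⟩ := (hmemS ξ).mp hξ
  obtain ⟨v, hv0, δ, hδ, hmain⟩ := Pool.Agent.AffFib.main hAF (by rw [hfr]; omega)
    (by rw [hfr]) hξΩ hξs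
  refine ⟨Submodule.span ℂ {v}, ?_, Metric.ball ξ (δ * ‖v‖), ?_, ?_⟩
  · rw [Ne, Submodule.span_singleton_eq_bot]
    exact hv0
  · exact Metric.ball_mem_nhds _ (mul_pos hδ (norm_pos_iff.mpr hv0))
  · intro η hη hηv
    obtain ⟨l, hl⟩ := Submodule.mem_span_singleton.mp hηv
    have hη' : η = ξ + l • v := by
      rw [hl]
      abel
    rw [Metric.mem_ball, dist_eq_norm, ← hl, norm_smul] at hη
    have hlδ : ‖l‖ < δ := lt_of_mul_lt_mul_right hη (norm_nonneg v)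
    rw [hη', hmemS]
    exact hmain l hlδ

end Pool.Agent.S03781
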