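import Pool.Statements.S04507
import Pool.Agent.MP43a64b.ED
import Pool.Agent.MP43a64b.Surface

set_option autoImplicit false
open scoped Manifold BoundedContinuousFunction
open Pool Pool.MP_43a64b_an

namespace Pool.Agent.S04507

/-- For every connected Riemann surface whose bounded holomorphic functions separate points, the Shilov boundary of that algebra is extremely disconnected. Here the Shilov boundary is the intersection of all closed sets of characters on which every Gelfand transform attains its maximum modulus. -/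
theorem result :
  ∀ (R : Type) [TopologicalSpace R] [T2Space R] [ConnectedSpace R] [ChartedSpace ℂ R]
    [IsManifold 𝓘(ℂ) ⊤ R],
  ∀ A : Subalgebra ℂ (R →ᵇ ℂ),
    (∀ f : R →ᵇ ℂ, f ∈ A ↔ MDifferentiable 𝓘(ℂ) 𝓘(ℂ) ⇑f) →
    (∀ x y : R, x ≠ y → ∃ f ∈ A, f x ≠ f y) →
    ExtremallyDisconnected
      ↥(⋂₀ {K : Set (WeakDual ℂ A) | IsClosed K ∧ K ⊆ WeakDual.characterSpace ℂ A ∧
        ∀ a : A, ∃ ψ ∈ K, ∀ φ ∈ WeakDual.characterSpace ℂ A, ‖φ a‖ ≤ ‖ψ a‖}) := by
  intro R _ _ _ _ _ A hA hsep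
  -- separability
  have hsepR : TopologicalSpace.SeparableSpace R := by
    by_cases h : ∃ x y : R, x ≠ y
    · obtain ⟨x, y, hxy⟩ := h
      obtain ⟨f, hf, hfxy⟩ := hsep x y hxy
      exact MP43a64b.separable_of_nonconst ((hA f).1 hf) ⟨x, y, hfxy⟩
    · push Not at h
      have : Subsingleton R := ⟨h⟩
      infer_instance
  -- closedness
  have hclosed : IsClosed (A : Set (R →ᵇ ℂ)) := by
    rw [← closure_subset_iff_isClosed]
    intro f hf
    have hC : 0 < ‖f‖ + 1 := by positivity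
    set c : ℂ := (((‖f‖ + 1)⁻¹ : ℝ) : ℂ) with hc
    have hc0 : c ≠ 0 := by
      rw [hc]; exact_mod_cast (inv_pos.2 hC).ne'
    have hcn : ‖c‖ = (‖f‖ + 1)⁻¹ := by
      rw [hc, Complex.norm_real, Real.norm_eq_abs, abs_of_pos (inv_pos.2 hC)]
    have h1 : (fun x => c * f x) ∈ closure {g : R → ℂ | MDifferentiable 𝓘(ℂ) 𝓘(ℂ) g ∧
        ∀ x, ‖g x‖ ≤ 1} := by
      have hcont : Continuous fun g : R →ᵇ ℂ => fun x => c * g x :=
        continuous_pi fun x => continuous_const.mul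
          (BoundedContinuousFunction.evalCLM ℂ x).continuous
      have h2 : f ∈ closure ((A : Set (R →ᵇ ℂ)) ∩ Metric.ball f 1) := by
        rw [mem_closure_iff_nhds] at hf ⊢
        intro t ht
        have := hf (t ∩ Metric.ball f 1) (Filter.inter_mem ht (Metric.ball_mem_nhds f one_pos))
        obtain ⟨g, ⟨hgt, hgb⟩, hgA⟩ := this
        exact ⟨g, hgt, hgA, hgb⟩
      refine map_mem_closure hcont h2 ?_
      rintro g ⟨hgA, hgb⟩
      have hg : MDifferentiable 𝓘(ℂ) 𝓘(ℂ) ⇑(c • g) := (hA _).1 (A.smul_mem hgA c)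
      have hgn : ‖g‖ ≤ ‖f‖ + 1 := by
        have := norm_sub_norm_le g f
        rw [Metric.mem_ball, dist_eq_norm] at hgb
        linarith
      refine ⟨hg, fun x => ?_⟩
      rw [norm_mul, hcn, inv_mul_le_iff₀ hC, mul_one]
      exact (g.norm_coe_le_norm x).trans hgn
    have h2 := MP43a64b.mdiff_of_closure h1
    have h3 : c • f ∈ A := (hA _).2 h2
    have h4 := A.smul_mem h3 c⁻¹
    rwa [smul_smul, inv_mul_cancel₀ hc0, one_smul] at h4
  have : CompleteSpace A := hclosed.completeSpace_coe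
  have hcomp : IsCompact {g : R → ℂ | ∃ f : A, ⇑(f : R →ᵇ ℂ) = g ∧ ‖f‖ ≤ 1} := by
    have heq : {g : R → ℂ | ∃ f : A, ⇑(f : R →ᵇ ℂ) = g ∧ ‖f‖ ≤ 1} =
        {f : R → ℂ | MDifferentiable 𝓘(ℂ) 𝓘(ℂ) f ∧ ∀ x, ‖f x‖ ≤ 1} := by
      ext g
      constructor
      · rintro ⟨f, rfl, hf⟩
        exact ⟨(hA _).1 f.2, fun x => (MP43a64b.norm_pt_le f x).trans hf⟩
      · rintro ⟨hg, hg1⟩
        refine ⟨⟨BoundedContinuousFunction.ofNormedAddCommGroup g hg.continuous 1 hg1,
          (hA _).2 hg⟩, rfl, ?_⟩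
        exact MP43a64b.norm_le_of_pt zero_le_one hg1
    rw [heq]
    exact MP43a64b.isCompact_ball
  exact MP43a64b.ed_abstract (TopologicalSpace.denseSeq R) (fun f M hM h => by
    refine MP43a64b.norm_le_of_pt hM fun x => ?_
    have hd := TopologicalSpace.denseRange_denseSeq R
    have hcl : IsClosed {x : R | ‖(f : R →ᵇ ℂ) x‖ ≤ M} :=
      isClosed_le (f : R →ᵇ ℂ).continuous.norm continuous_const
    have hsub : closure (Set.range (TopologicalSpace.denseSeq R)) ⊆
        {x : R | ‖(f : R →ᵇ ℂ) x‖ ≤ M} :=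
      closure_minimal (by rintro _ ⟨n, rfl⟩; exact h n) hcl
    exact hsub (hd x)) hcomp

end Pool.Agent.S04507
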