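import Pool.Statements.S04908

set_option autoImplicit false
open Pool Pool.MP_68b5a7_an

namespace Pool.Agent.S04908

/-! ### The counterexample

Fix an irrational `t` with `0 < t < 1` and put `c = (1 - t) / 2`.  The unit square is cut into two
sheets `[0, 1/2) × [0, 1)` and `[1/2, 1) × [0, 1)`.  Each sheet is a torus
`(ℝ / (1/2) ℤ) × (ℝ / ℤ)`, on which the map is the translation by `(t / 2, - t)`, except that the
points of the rectangle `[c, 1/2) × [t, 1)` (and of its copy in the other sheet) also change sheet.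
The point `(c, t)` changes sheet at time one, and then stays in the second sheet for ever. -/

/-- The rectangle exchange map. -/
noncomputable def T (t : ℝ) (p : ℝ × ℝ) : ℝ × ℝ :=
  if p.1 < 1 / 2 then
    if p.1 < (1 - t) / 2 then
      if p.2 < t then (p.1 + t / 2, p.2 + (1 - t)) else (p.1 + t / 2, p.2 + (-t))
    else
      if p.2 < t then (p.1 + (t - 1) / 2, p.2 + (1 - t))
      else (p.1 + ((t - 1) / 2 + 1 / 2), p.2 + (-t))
  else
    if p.1 < 1 / 2 + (1 - t) / 2 then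
      if p.2 < t then (p.1 + t / 2, p.2 + (1 - t)) else (p.1 + t / 2, p.2 + (-t))
    else
      if p.2 < t then (p.1 + (t - 1) / 2, p.2 + (1 - t))
      else (p.1 + ((t - 1) / 2 - 1 / 2), p.2 + (-t))

noncomputable def A1 (t : ℝ) : Fin 8 → ℝ :=
  ![0, 0, (1 - t) / 2, (1 - t) / 2, 1 / 2, 1 / 2, 1 / 2 + (1 - t) / 2, 1 / 2 + (1 - t) / 2]
noncomputable def B1 (t : ℝ) : Fin 8 → ℝ :=
  ![(1 - t) / 2, (1 - t) / 2, 1 / 2, 1 / 2, 1 / 2 + (1 - t) / 2, 1 / 2 + (1 - t) / 2, 1, 1]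
noncomputable def A2 (t : ℝ) : Fin 8 → ℝ := ![t, 0, 0, t, t, 0, 0, t]
noncomputable def B2 (t : ℝ) : Fin 8 → ℝ := ![1, t, t, 1, 1, t, t, 1]
noncomputable def V1 (t : ℝ) : Fin 8 → ℝ :=
  ![t / 2, t / 2, (t - 1) / 2, (t - 1) / 2 + 1 / 2, t / 2, t / 2, (t - 1) / 2, (t - 1) / 2 - 1 / 2]
noncomputable def V2 (t : ℝ) : Fin 8 → ℝ := ![-t, 1 - t, 1 - t, -t, -t, 1 - t, 1 - t, -t]

lemma disj1 {t : ℝ} (h0 : 0 < t) (h1 : t < 1) :
    Pairwise (fun r s : Fin 8 =>
      Disjoint (Set.Ico (A1 t r) (B1 t r) ×ˢ Set.Ico (A2 t r) (B2 t r))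
        (Set.Ico (A1 t s) (B1 t s) ×ˢ Set.Ico (A2 t s) (B2 t s))) := by
  intro r s hrs
  rw [Set.disjoint_left]
  rintro ⟨x, y⟩ hx hy
  simp only [Set.mem_prod, Set.mem_Ico] at hx hy
  obtain ⟨⟨hx1, hx2⟩, hx3, hx4⟩ := hx
  obtain ⟨⟨hy1, hy2⟩, hy3, hy4⟩ := hy
  fin_cases r <;> fin_cases s <;>
    simp [A1, A2, B1, B2] at hrs hx1 hx2 hx3 hx4 hy1 hy2 hy3 hy4 <;> linarith

lemma disj2 {t : ℝ} (h0 : 0 < t) (h1 : t < 1) :
    Pairwise (fun r s : Fin 8 =>
      Disjoint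
        (Set.Ico (A1 t r + V1 t r) (B1 t r + V1 t r) ×ˢ
          Set.Ico (A2 t r + V2 t r) (B2 t r + V2 t r))
        (Set.Ico (A1 t s + V1 t s) (B1 t s + V1 t s) ×ˢ
          Set.Ico (A2 t s + V2 t s) (B2 t s + V2 t s))) := by
  intro r s hrs
  rw [Set.disjoint_left]
  rintro ⟨x, y⟩ hx hy
  simp only [Set.mem_prod, Set.mem_Ico] at hx hy
  obtain ⟨⟨hx1, hx2⟩, hx3, hx4⟩ := hx
  obtain ⟨⟨hy1, hy2⟩, hy3, hy4⟩ := hy
  fin_cases r <;> fin_cases s <;>
    simp [A1, A2, B1, B2, V1, V2] at hrs hx1 hx2 hx3 hx4 hy1 hy2 hy3 hy4 <;> linarith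

lemma union1 {t : ℝ} (h0 : 0 < t) (h1 : t < 1) :
    (⋃ r : Fin 8, Set.Ico (A1 t r) (B1 t r) ×ˢ Set.Ico (A2 t r) (B2 t r))
      = Set.Ico (0:ℝ) 1 ×ˢ Set.Ico (0:ℝ) 1 := by
  ext ⟨x, y⟩
  simp only [Set.mem_iUnion, Set.mem_prod, Set.mem_Ico]
  constructor
  · rintro ⟨r, ⟨hx1, hx2⟩, hx3, hx4⟩
    fin_cases r <;> simp [A1, A2, B1, B2] at hx1 hx2 hx3 hx4 <;>
      refine ⟨⟨?_, ?_⟩, ?_, ?_⟩ <;> linarith
  · rintro ⟨⟨hx0, hx1⟩, hy0, hy1⟩
    rcases lt_or_ge x (1 / 2) with hx | hx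
    · rcases lt_or_ge x ((1 - t) / 2) with hc | hc
      · rcases lt_or_ge y t with hy | hy
        · exact ⟨1, by simp [A1, A2, B1, B2]; refine ⟨⟨?_, ?_⟩, ?_, ?_⟩ <;> linarith⟩
        · exact ⟨0, by simp [A1, A2, B1, B2]; refine ⟨⟨?_, ?_⟩, ?_, ?_⟩ <;> linarith⟩
      · rcases lt_or_ge y t with hy | hy
        · exact ⟨2, by simp [A1, A2, B1, B2]; refine ⟨⟨?_, ?_⟩, ?_, ?_⟩ <;> linarith⟩
        · exact ⟨3, by simp [A1, A2, B1, B2]; refine ⟨⟨?_, ?_⟩, ?_, ?_⟩ <;> linarith⟩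
    · rcases lt_or_ge x (1 / 2 + (1 - t) / 2) with hc | hc
      · rcases lt_or_ge y t with hy | hy
        · exact ⟨5, by simp [A1, A2, B1, B2]; refine ⟨⟨?_, ?_⟩, ?_, ?_⟩ <;> linarith⟩
        · exact ⟨4, by simp [A1, A2, B1, B2]; refine ⟨⟨?_, ?_⟩, ?_, ?_⟩ <;> linarith⟩
      · rcases lt_or_ge y t with hy | hy
        · exact ⟨6, by simp [A1, A2, B1, B2]; refine ⟨⟨?_, ?_⟩, ?_, ?_⟩ <;> linarith⟩
        · exact ⟨7, by simp [A1, A2, B1, B2]; refine ⟨⟨?_, ?_⟩, ?_, ?_⟩ <;> linarith⟩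

lemma union2 {t : ℝ} (h0 : 0 < t) (h1 : t < 1) :
    (⋃ r : Fin 8, Set.Ico (A1 t r + V1 t r) (B1 t r + V1 t r) ×ˢ
        Set.Ico (A2 t r + V2 t r) (B2 t r + V2 t r))
      = Set.Ico (0:ℝ) 1 ×ˢ Set.Ico (0:ℝ) 1 := by
  ext ⟨x, y⟩
  simp only [Set.mem_iUnion, Set.mem_prod, Set.mem_Ico]
  constructor
  · rintro ⟨r, ⟨hx1, hx2⟩, hx3, hx4⟩
    fin_cases r <;> simp [A1, A2, B1, B2, V1, V2] at hx1 hx2 hx3 hx4 <;>
      refine ⟨⟨?_, ?_⟩, ?_, ?_⟩ <;> linarith
  · rintro ⟨⟨hx0, hx1⟩, hy0, hy1⟩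
    rcases lt_or_ge x (1 / 2) with hx | hx
    · rcases lt_or_ge x (t / 2) with hc | hc
      · rcases lt_or_ge y (1 - t) with hy | hy
        · exact ⟨7, by simp [A1, A2, B1, B2, V1, V2]; refine ⟨⟨?_, ?_⟩, ?_, ?_⟩ <;> linarith⟩
        · exact ⟨2, by simp [A1, A2, B1, B2, V1, V2]; refine ⟨⟨?_, ?_⟩, ?_, ?_⟩ <;> linarith⟩
      · rcases lt_or_ge y (1 - t) with hy | hy
        · exact ⟨0, by simp [A1, A2, B1, B2, V1, V2]; refine ⟨⟨?_, ?_⟩, ?_, ?_⟩ <;> linarith⟩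
        · exact ⟨1, by simp [A1, A2, B1, B2, V1, V2]; refine ⟨⟨?_, ?_⟩, ?_, ?_⟩ <;> linarith⟩
    · rcases lt_or_ge x (1 / 2 + t / 2) with hc | hc
      · rcases lt_or_ge y (1 - t) with hy | hy
        · exact ⟨3, by simp [A1, A2, B1, B2, V1, V2]; refine ⟨⟨?_, ?_⟩, ?_, ?_⟩ <;> linarith⟩
        · exact ⟨6, by simp [A1, A2, B1, B2, V1, V2]; refine ⟨⟨?_, ?_⟩, ?_, ?_⟩ <;> linarith⟩
      · rcases lt_or_ge y (1 - t) with hy | hy
        · exact ⟨4, by simp [A1, A2, B1, B2, V1, V2]; refine ⟨⟨?_, ?_⟩, ?_, ?_⟩ <;> linarith⟩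
        · exact ⟨5, by simp [A1, A2, B1, B2, V1, V2]; refine ⟨⟨?_, ?_⟩, ?_, ?_⟩ <;> linarith⟩

lemma T_eq {t : ℝ} (h0 : 0 < t) (h1 : t < 1) (r : Fin 8) (x : ℝ × ℝ)
    (hx : x ∈ Set.Ico (A1 t r) (B1 t r) ×ˢ Set.Ico (A2 t r) (B2 t r)) :
    T t x = (x.1 + V1 t r, x.2 + V2 t r) := by
  obtain ⟨x, y⟩ := x
  simp only [Set.mem_prod, Set.mem_Ico] at hx
  obtain ⟨⟨hx1, hx2⟩, hx3, hx4⟩ := hx
  fin_cases r <;> simp [A1, A2, B1, B2] at hx1 hx2 hx3 hx4 <;> unfold T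
  · rw [if_pos (by simp; linarith), if_pos (by simp; linarith), if_neg (by simp; linarith)]
    simp [V1, V2]
  · rw [if_pos (by simp; linarith), if_pos (by simp; linarith), if_pos (by simp; linarith)]
    simp [V1, V2]
  · rw [if_pos (by simp; linarith), if_neg (by simp; linarith), if_pos (by simp; linarith)]
    simp [V1, V2]
  · rw [if_pos (by simp; linarith), if_neg (by simp; linarith), if_neg (by simp; linarith)]
    simp [V1, V2]
  · rw [if_neg (by simp; linarith), if_pos (by simp; linarith), if_neg (by simp; linarith)]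
    simp [V1, V2]
  · rw [if_neg (by simp; linarith), if_pos (by simp; linarith), if_pos (by simp; linarith)]
    simp [V1, V2]
  · rw [if_neg (by simp; linarith), if_neg (by simp; linarith), if_pos (by simp; linarith)]
    simp [V1, V2]
  · rw [if_neg (by simp; linarith), if_neg (by simp; linarith), if_neg (by simp; linarith)]
    simp [V1, V2]

/-- From time one on, the orbit of `(c, t)` stays in the second sheet. -/
lemma orbit {t : ℝ} (ht : Irrational t) (h0 : 0 < t) (h1 : t < 1) (n : ℕ) :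
    (T t)^[n + 1] ((1 - t) / 2, t) =
      (1 / 2 + Int.fract (n * t) / 2, Int.fract (-(n * t))) := by
  induction n with
  | zero =>
    simp only [Nat.cast_zero, zero_mul, zero_add, Function.iterate_one, neg_zero, Int.fract_zero,
      zero_div, add_zero]
    unfold T
    rw [if_pos (by simp; linarith), if_neg (by simp), if_neg (by simp)]
    ext <;> simp <;> ring
  | succ n ih =>
    rw [Function.iterate_succ_apply', ih]
    have hf0 := Int.fract_nonneg ((n : ℝ) * t)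
    have hf1 := Int.fract_lt_one ((n : ℝ) * t)
    have hg0 := Int.fract_nonneg (-((n : ℝ) * t))
    have hg1 := Int.fract_lt_one (-((n : ℝ) * t))
    -- the two fractional parts add up to an integer
    have hsum : ∃ k : ℤ, Int.fract ((n : ℝ) * t) + Int.fract (-((n : ℝ) * t)) = k :=
      ⟨-⌊(n : ℝ) * t⌋ - ⌊-((n : ℝ) * t)⌋, by
        rw [Int.fract, Int.fract]; push_cast; ring⟩
    obtain ⟨k, hk⟩ := hsum
    have hk0 : (-1 : ℝ) < k := by rw [← hk]; linarith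
    have hk2 : (k : ℝ) < 2 := by rw [← hk]; linarith
    have hk0' : -1 < k := by exact_mod_cast hk0
    have hk2' : k < 2 := by exact_mod_cast hk2
    have hk1 : (k : ℝ) ≤ 1 := by
      have : k ≤ 1 := by omega
      exact_mod_cast this
    -- next point
    have hnext : ((n + 1 : ℕ) : ℝ) * t = n * t + t := by push_cast; ring
    -- the orbit never meets the corner
    have hcorner : Int.fract ((n : ℝ) * t) ≠ 1 - t := by
      intro h
      have h2 : ((n + 1 : ℕ) : ℝ) * t = ((⌊(n : ℝ) * t⌋ + 1 : ℤ) : ℝ) := by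
        rw [hnext]
        have := Int.floor_add_fract ((n : ℝ) * t)
        push_cast
        linarith
      have h3 : Irrational (((n + 1 : ℕ) : ℝ) * t) := by
        apply ht.natCast_mul
        omega
      rw [h2] at h3
      exact Int.not_irrational _ h3
    have hfr1 : ∀ m : ℤ, (Int.fract ((n : ℝ) * t) + t + m : ℝ) = (n * t + t) + ((m - ⌊(n : ℝ) * t⌋ : ℤ) : ℝ) := by
      intro m
      rw [Int.fract]; push_cast; ring
    have hfr2 : ∀ m : ℤ, (Int.fract (-((n : ℝ) * t)) - t + m : ℝ) =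
        (-(n * t + t)) + ((m - ⌊-((n : ℝ) * t)⌋ : ℤ) : ℝ) := by
      intro m
      rw [Int.fract]; push_cast; ring
    rw [hnext]
    unfold T
    rw [if_neg (by simp; linarith)]
    rcases lt_or_ge (Int.fract ((n : ℝ) * t)) (1 - t) with hc | hc
    · rw [if_pos (by simp; linarith)]
      have e1 : Int.fract ((n : ℝ) * t + t) = Int.fract ((n : ℝ) * t) + t := by
        have h := hfr1 0
        rw [Int.cast_zero, add_zero] at h
        rw [← Int.fract_add_intCast _ ((0 : ℤ) - ⌊(n : ℝ) * t⌋), ← h]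
        exact Int.fract_eq_self.mpr ⟨by linarith, by linarith⟩
      rcases lt_or_ge (Int.fract (-((n : ℝ) * t))) t with hd | hd
      · rw [if_pos (by simp; linarith)]
        have e2 : Int.fract (-((n : ℝ) * t + t)) = Int.fract (-((n : ℝ) * t)) - t + 1 := by
          have h := hfr2 1
          rw [Int.cast_one] at h
          rw [← Int.fract_add_intCast _ ((1 : ℤ) - ⌊-((n : ℝ) * t)⌋), ← h]
          exact Int.fract_eq_self.mpr ⟨by linarith, by linarith⟩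
        rw [e1, e2]
        ext <;> simp <;> ring
      · rw [if_neg (by simp; linarith)]
        have e2 : Int.fract (-((n : ℝ) * t + t)) = Int.fract (-((n : ℝ) * t)) - t := by
          have h := hfr2 0
          rw [Int.cast_zero, add_zero] at h
          rw [← Int.fract_add_intCast _ ((0 : ℤ) - ⌊-((n : ℝ) * t)⌋), ← h]
          exact Int.fract_eq_self.mpr ⟨by linarith, by linarith⟩
        rw [e1, e2]
        ext <;> simp <;> ring
    · have hc' : 1 - t < Int.fract ((n : ℝ) * t) := lt_of_le_of_ne hc (Ne.symm hcorner)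
      have hd : Int.fract (-((n : ℝ) * t)) < t := by linarith
      rw [if_neg (by simp; linarith), if_pos (by simp; linarith)]
      have e1 : Int.fract ((n : ℝ) * t + t) = Int.fract ((n : ℝ) * t) + t - 1 := by
        have h := hfr1 (-1)
        rw [Int.cast_neg, Int.cast_one, ← sub_eq_add_neg] at h
        rw [← Int.fract_add_intCast _ ((-1 : ℤ) - ⌊(n : ℝ) * t⌋), ← h]
        exact Int.fract_eq_self.mpr ⟨by linarith, by linarith⟩
      have e2 : Int.fract (-((n : ℝ) * t + t)) = Int.fract (-((n : ℝ) * t)) - t + 1 := by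
        have h := hfr2 1
        rw [Int.cast_one] at h
        rw [← Int.fract_add_intCast _ ((1 : ℤ) - ⌊-((n : ℝ) * t)⌋), ← h]
        exact Int.fract_eq_self.mpr ⟨by linarith, by linarith⟩
      rw [e1, e2]
      ext <;> simp <;> ring

/-- The negation of the preceding statement: For every partition of [0,1)² into finitely many half-open rectangles whose translates also partition it, the piecewise-translation map returns every point to within ε of itself, in Euclidean torus distance, at some time N ≥ 1. -/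
theorem result :
    ¬ (∀ (m : ℕ) (a1 b1 a2 b2 v1 v2 : Fin m → ℝ) (φ : ℝ × ℝ → ℝ × ℝ),
      Pairwise (fun r s : Fin m =>
        Disjoint (Set.Ico (a1 r) (b1 r) ×ˢ Set.Ico (a2 r) (b2 r))
          (Set.Ico (a1 s) (b1 s) ×ˢ Set.Ico (a2 s) (b2 s))) →
      (⋃ r : Fin m, Set.Ico (a1 r) (b1 r) ×ˢ Set.Ico (a2 r) (b2 r))
          = Set.Ico (0:ℝ) 1 ×ˢ Set.Ico (0:ℝ) 1 →
      Pairwise (fun r s : Fin m =>
        Disjoint
          (Set.Ico (a1 r + v1 r) (b1 r + v1 r) ×ˢ Set.Ico (a2 r + v2 r) (b2 r + v2 r))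
          (Set.Ico (a1 s + v1 s) (b1 s + v1 s) ×ˢ Set.Ico (a2 s + v2 s) (b2 s + v2 s))) →
      (⋃ r : Fin m,
          Set.Ico (a1 r + v1 r) (b1 r + v1 r) ×ˢ Set.Ico (a2 r + v2 r) (b2 r + v2 r))
          = Set.Ico (0:ℝ) 1 ×ˢ Set.Ico (0:ℝ) 1 →
      (∀ r : Fin m, ∀ x ∈ Set.Ico (a1 r) (b1 r) ×ˢ Set.Ico (a2 r) (b2 r),
          φ x = (x.1 + v1 r, x.2 + v2 r)) →
      ∀ x ∈ Set.Ico (0:ℝ) 1 ×ˢ Set.Ico (0:ℝ) 1, ∀ ε : ℝ, 0 < ε →
        ∃ N : ℕ, 1 ≤ N ∧ ∃ k1 k2 : ℤ,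
          ((φ^[N] x).1 - x.1 + (k1 : ℝ)) ^ 2 + ((φ^[N] x).2 - x.2 + (k2 : ℝ)) ^ 2 ≤ ε ^ 2) := by
  intro H
  have ht : Irrational (√2 - 1) := by
    have := irrational_sqrt_two
    exact_mod_cast this.sub_intCast 1
  have hs1 : (1.4 : ℝ) < √2 := by
    rw [show (1.4 : ℝ) = √(1.4 ^ 2) by rw [Real.sqrt_sq (by norm_num)]]
    exact Real.sqrt_lt_sqrt (by norm_num) (by norm_num)
  have hs2 : √2 < (1.5 : ℝ) := by
    rw [show (1.5 : ℝ) = √(1.5 ^ 2) by rw [Real.sqrt_sq (by norm_num)]]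
    exact Real.sqrt_lt_sqrt (by norm_num) (by norm_num)
  set t : ℝ := √2 - 1 with htdef
  have h0 : (0.4 : ℝ) < t := by linarith
  have h1 : t < (0.5 : ℝ) := by linarith
  obtain ⟨N, hN, k1, k2, hle⟩ := H 8 (A1 t) (B1 t) (A2 t) (B2 t) (V1 t) (V2 t) (T t)
    (disj1 (by linarith) (by linarith)) (union1 (by linarith) (by linarith))
    (disj2 (by linarith) (by linarith)) (union2 (by linarith) (by linarith))
    (T_eq (by linarith) (by linarith)) ((1 - t) / 2, t)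
    (by simp only [Set.mem_prod, Set.mem_Ico]; refine ⟨⟨?_, ?_⟩, ?_, ?_⟩ <;> linarith)
    (1 / 10) (by norm_num)
  obtain ⟨n, rfl⟩ : ∃ n, N = n + 1 := ⟨N - 1, by omega⟩
  rw [orbit ht (by linarith) (by linarith) n] at hle
  simp only at hle
  have hf0 := Int.fract_nonneg ((n : ℝ) * t)
  have hf1 := Int.fract_lt_one ((n : ℝ) * t)
  set X : ℝ := 1 / 2 + Int.fract ((n : ℝ) * t) / 2 - (1 - t) / 2 + k1 with hX
  have hX2 : X ^ 2 ≤ (1 / 10) ^ 2 := by
    have : 0 ≤ (Int.fract (-((n : ℝ) * t)) - t + (k2 : ℝ)) ^ 2 := sq_nonneg _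
    linarith
  have hX3 := abs_le_of_sq_le_sq' hX2 (by norm_num)
  rcases le_or_gt 0 k1 with hk | hk
  · have : (0 : ℝ) ≤ k1 := by exact_mod_cast hk
    linarith [hX3.2]
  · have hk' : k1 ≤ -1 := by omega
    have : (k1 : ℝ) ≤ -1 := by exact_mod_cast hk'
    linarith [hX3.1]

end Pool.Agent.S04908
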