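import Pool.Statements.S05245
import Pool.Agent.HFull.Mid

set_option autoImplicit false
open Pool Pool.MP_832e94_an

namespace Pool.Agent.S05245

/-- For n≥1, k≤n−1 and nodes in the closed unit disc closed under conjugation with multiplicity, real ones of even multiplicity: sup over entire g with ∣g⁽ⁿ⁾∣≤1 on the disc of max on [−1,1] of ∣(g−Hermite interpolant)⁽ᵏ⁾∣ equals (1/n!)·max on [−1,1] of ∣f⁽ᵏ⁾∣. -/
theorem result :
    ∀ (n k : ℕ) (z : Fin n → ℂ), 1 ≤ n → k ≤ n - 1 → (∀ i, ‖z i‖ ≤ 1) →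
      (∀ w : ℂ, Nat.card {j : Fin n // z j = w} = Nat.card {j : Fin n // z j = (starRingEnd ℂ) w}) →
      (∀ r : ℝ, Even (Nat.card {j : Fin n // z j = (r : ℂ)})) →
      sSup {t : ℝ | ∃ g : ℂ → ℂ, ∃ p : Polynomial ℂ, ∃ x : ℝ,
          Differentiable ℂ g ∧
          (∀ w : ℂ, ‖w‖ ≤ 1 → ‖iteratedDeriv n g w‖ ≤ 1) ∧
          p.degree < (n : WithBot ℕ) ∧
          (∀ i : Fin n, ∀ m : ℕ, m < Nat.card {j : Fin n // z j = z i} →
              iteratedDeriv m (fun w => g w - p.eval w) (z i) = 0) ∧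
          x ∈ Set.Icc (-1 : ℝ) 1 ∧
          t = ‖iteratedDeriv k (fun w => g w - p.eval w) (x : ℂ)‖}
        = (1 / (n.factorial : ℝ)) *
          sSup {t : ℝ | ∃ x : ℝ, x ∈ Set.Icc (-1 : ℝ) 1 ∧
            t = ‖iteratedDeriv k (fun w : ℂ => ∏ j, (w - z j)) (x : ℂ)‖} :=
  Pool.Agent.HStar.final Pool.Agent.HFull.mid_all

end Pool.Agent.S05245
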