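import Pool.Statements.S05980
import Pool.Agent.StarFin.Final

set_option autoImplicit false
open Pool Pool.MP_be6c88_an

namespace Pool.Agent.S05980

/-- The negation of the preceding statement: There is an infinite-dimensional real Banach space whose norm is Fréchet differentiable away from 0 and which is covered by closed balls of positive radius, each meeting only finitely many balls of the covering. -/
theorem result :
    ¬ (∃ (X : Type) (_ : NormedAddCommGroup X) (_ : NormedSpace ℝ X),
      CompleteSpace X ∧ ¬ FiniteDimensional ℝ X ∧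
      (∀ x : X, x ≠ 0 → DifferentiableAt ℝ (fun y : X => ‖y‖) x) ∧
      ∃ 𝒞 : Set (Set X),
        (∀ B ∈ 𝒞, ∃ c : X, ∃ r : ℝ, 0 < r ∧ B = Metric.closedBall c r) ∧
        ⋃₀ 𝒞 = Set.univ ∧
        ∀ B ∈ 𝒞, {B' ∈ 𝒞 | (B ∩ B').Nonempty}.Finite) := by
  rintro ⟨X, _, _, hcomp, hinf, hdiff, C, hball, hcov, hfin⟩
  have hball' : ∀ B : C, ∃ c : X, ∃ r : ℝ, 0 < r ∧ (B : Set X) = Metric.closedBall c r :=
    fun B => hball B.1 B.2
  choose c r hr hB using hball'
  have hBl : ∀ B : C, StarFin.Bl c r B = (B : Set X) := fun B => (hB B).symm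
  have hSF : StarFin.SF c r := by
    refine ⟨hr, ?_, ?_⟩
    · intro x
      have hx : x ∈ ⋃₀ C := by rw [hcov]; trivial
      obtain ⟨B, hBC, hxB⟩ := hx
      exact ⟨⟨B, hBC⟩, by rw [hBl]; exact hxB⟩
    · intro B
      refine Set.Finite.of_finite_image (f := Subtype.val) ?_ Subtype.val_injective.injOn
      refine (hfin B.1 B.2).subset ?_
      rintro _ ⟨B', hB', rfl⟩
      refine ⟨B'.2, ?_⟩
      have h1 : (StarFin.Bl c r B ∩ StarFin.Bl c r B').Nonempty := hB'
      rwa [hBl, hBl] at h1
  refine StarFin.no_star_finite hinf ?_ hSF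
  have hnt : Nontrivial X := by
    by_contra h
    rw [not_nontrivial_iff_subsingleton] at h
    exact hinf inferInstance
  refine (dense_compl_singleton (0 : X)).mono ?_
  intro x hx
  exact hdiff x hx

end Pool.Agent.S05980
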