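import Pool.Statements.S06626
import Pool.Agent.Kob.Final

set_option autoImplicit false
open Pool Pool.MP_ef8879_an

namespace Pool.Agent.S06626

/-- The negation of the preceding statement: Every bounded connected domain in ℂⁿ given by a smooth defining function with nonzero gradient on the boundary and nonnegative Levi form is complete for its Kobayashi distance (chains of holomorphic discs): Cauchy sequences converge inside. -/
theorem result :
    ¬ (∀ (n : ℕ) (Ω : Set (EuclideanSpace ℂ (Fin n))) (ρ : EuclideanSpace ℂ (Fin n) → ℝ),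
    Bornology.IsBounded Ω → IsConnected Ω →
    ContDiff ℝ ((⊤ : ℕ∞) : WithTop ℕ∞) ρ → Ω = {z | ρ z < 0} →
    (∀ p, ρ p = 0 → fderiv ℝ ρ p ≠ 0) →
    (∀ (p w : EuclideanSpace ℂ (Fin n)), ρ p = 0 → fderiv ℝ ρ p w = 0 →
       fderiv ℝ ρ p (Complex.I • w) = 0 →
       0 ≤ fderiv ℝ (fderiv ℝ ρ) p w w
             + fderiv ℝ (fderiv ℝ ρ) p (Complex.I • w) (Complex.I • w)) →
    ∀ k : EuclideanSpace ℂ (Fin n) → EuclideanSpace ℂ (Fin n) → ℝ,
    (∀ p q, k p q = sInf {s : ℝ | ∃ (m : ℕ) (z : Fin (m + 1) → EuclideanSpace ℂ (Fin n))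
        (f : Fin m → ℂ → EuclideanSpace ℂ (Fin n)) (b : Fin m → ℂ),
        z 0 = p ∧ z (Fin.last m) = q ∧
        (∀ j, DifferentiableOn ℂ (f j) (Metric.ball (0 : ℂ) 1) ∧
              Set.MapsTo (f j) (Metric.ball (0 : ℂ) 1) Ω ∧
              ‖b j‖ < 1 ∧ f j 0 = z (Fin.castSucc j) ∧ f j (b j) = z (Fin.succ j)) ∧
        s = ∑ j, Real.log ((1 + ‖b j‖) / (1 - ‖b j‖))}) →
    ∀ x : ℕ → EuclideanSpace ℂ (Fin n), (∀ i, x i ∈ Ω) →
      (∀ ε > 0, ∃ N : ℕ, ∀ i ≥ N, ∀ j ≥ N, k (x i) (x j) < ε) →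
      ∃ y ∈ Ω, Filter.Tendsto (fun i => k (x i) y) Filter.atTop (nhds 0)) := by
  exact Pool.Agent.Kob.main_of_data Pool.Agent.Kob.data Pool.Agent.Kob.stdChi

end Pool.Agent.S06626
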