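import Pool.Statements.S07665
import Pool.Agent.TOKSN.End

set_option autoImplicit false
open Pool Pool.MP_2394d2_co

namespace Pool.Agent.S07665

/-- Every finite 4-connected simple graph with two vertex-disjoint odd cycles contains a subdivision of K4 whose six branch paths each have odd length, i.e. a totally odd K4-subdivision. -/
theorem result :
    ∀ (V : Type) [Fintype V] (G : SimpleGraph V),
      5 ≤ Fintype.card V →
      (∀ S : Finset V, S.card ≤ 3 → (G.induce ((↑S : Set V)ᶜ)).Connected) →
      (∃ (u v : V) (c : G.Walk u u) (d : G.Walk v v),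
          c.IsCycle ∧ d.IsCycle ∧ Odd c.length ∧ Odd d.length ∧
          ∀ x, x ∈ c.support → x ∉ d.support) →
      ∃ (a : Fin 4 → V) (P : ∀ i j : Fin 4, G.Walk (a i) (a j)),
        Function.Injective a ∧
        (∀ i j : Fin 4, i < j → (P i j).IsPath ∧ Odd (P i j).length) ∧
        (∀ i j m : Fin 4, i < j → a m ∈ (P i j).support → m = i ∨ m = j) ∧
        (∀ i j k l : Fin 4, i < j → k < l → (i, j) ≠ (k, l) →
          ∀ x, x ∈ (P i j).support → x ∈ (P k l).support → ∃ m, x = a m) := by
  intro V _ G hn h4 hodd
  classical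
  exact Pool.Agent.TOKSN.main G hn h4 hodd

end Pool.Agent.S07665
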