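import Pool.Statements.S07710
import Pool.Agent.IncLog.Config
-- import your own Pool.Agent.* helpers here

set_option autoImplicit false
open Pool Pool.MP_258a97_co

namespace Pool.Agent.S07710

/-- The negation of the preceding statement: For all d, c there is C such that for any family of simple plane arcs or closed curves with any d points on at most c curves and any two curves meeting in at most c points, n points and n curves have at most C·n^{4/3} incidences. -/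
theorem result :
    ¬ (∀ d c : ℕ, ∃ C : ℝ, ∀ L : Set (Set (ℝ × ℝ)),
      (∀ γ ∈ L,
        (∃ f : unitInterval → ℝ × ℝ, Continuous f ∧ Function.Injective f ∧ Set.range f = γ) ∨
        (∃ f : Circle → ℝ × ℝ, Continuous f ∧ Function.Injective f ∧ Set.range f = γ)) →
      (∀ S : Finset (ℝ × ℝ), S.card = d →
        {γ : Set (ℝ × ℝ) | γ ∈ L ∧ (↑S : Set (ℝ × ℝ)) ⊆ γ}.encard ≤ (c : ℕ∞)) →
      (∀ γ₁ ∈ L, ∀ γ₂ ∈ L, γ₁ ≠ γ₂ → (γ₁ ∩ γ₂).encard ≤ (c : ℕ∞)) →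
      ∀ P : Finset (ℝ × ℝ), ∀ Γ : Finset (Set (ℝ × ℝ)),
        (↑Γ : Set (Set (ℝ × ℝ))) ⊆ L → P.card = Γ.card →
        (({x : (ℝ × ℝ) × Set (ℝ × ℝ) | x.1 ∈ P ∧ x.2 ∈ Γ ∧ x.1 ∈ x.2}.ncard : ℕ) : ℝ)
          ≤ C * (P.card : ℝ) ^ ((4 : ℝ) / 3)) := by
  intro hall
  obtain ⟨C, hC⟩ := hall 9 8
  -- parameters
  obtain ⟨j, hj⟩ := exists_nat_gt (16 * (max C 1)^3)
  have hC1 : 1 ≤ max C 1 := le_max_right _ _
  have hjpos : 0 < j := by
    have : (0:ℝ) < j := lt_of_le_of_lt (by positivity) hj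
    exact_mod_cast this
  set m : ℕ := 2 * j^2 - 1 with hm
  have hm1 : m + 1 = 2 * j^2 := by
    have : 1 ≤ j^2 := Nat.one_le_pow _ _ hjpos
    omega
  set M : ℕ := 4 * j with hM
  have hpair : ∀ γ₁ ∈ {γ : Set (ℝ × ℝ) | ∃ t s r : ℕ, γ = IncLog.curve 0 m t s r},
      ∀ γ₂ ∈ {γ : Set (ℝ × ℝ) | ∃ t s r : ℕ, γ = IncLog.curve 0 m t s r},
      γ₁ ≠ γ₂ → (γ₁ ∩ γ₂).encard ≤ ((8 : ℕ) : ℕ∞) := by
    rintro _ ⟨t, s, r, rfl⟩ _ ⟨t', s', r', rfl⟩ hne
    apply IncLog.curve_inter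
    intro h
    simp only [Prod.mk.injEq] at h
    obtain ⟨rfl, rfl, rfl⟩ := h
    exact hne rfl
  have key := hC {γ | ∃ t s r : ℕ, γ = IncLog.curve 0 m t s r} ?_ ?_ hpair
  · obtain ⟨P, Γ, h1, h2, h3, h4⟩ := IncLog.config 0 m M (M * 2^m) (M * 2^m * IncLog.K m) rfl rfl
      (by omega) (by rw [hm1, hM]; nlinarith)
    have h5 := key P Γ (fun γ hγ => h1 γ hγ) (by rw [h2, h3])
    rw [h2] at h5
    set n : ℕ := M * 2^m * IncLog.K m * (M * 2^m) * M with hn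
    have hK : 0 < IncLog.K m := IncLog.K_pos m
    have hnpos : 0 < n := by positivity
    have h6 : (n : ℝ) * IncLog.K m ≤ max C 1 * (n : ℝ)^((4:ℝ)/3) := by
      calc (n : ℝ) * IncLog.K m ≤ _ := by exact_mod_cast h4
        _ ≤ C * (n : ℝ)^((4:ℝ)/3) := h5
        _ ≤ _ := by
          apply mul_le_mul_of_nonneg_right (le_max_left _ _)
          positivity
    have hn' : (0:ℝ) < n := by exact_mod_cast hnpos
    have h7 : (n : ℝ)^((4:ℝ)/3) = n * (n : ℝ)^((1:ℝ)/3) := by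
      rw [show (4:ℝ)/3 = 1 + 1/3 by norm_num, Real.rpow_add hn', Real.rpow_one]
    rw [h7] at h6
    have h8 : (IncLog.K m : ℝ) ≤ max C 1 * (n : ℝ)^((1:ℝ)/3) := by
      have : (n : ℝ) * IncLog.K m ≤ n * (max C 1 * (n : ℝ)^((1:ℝ)/3)) := by linarith
      exact le_of_mul_le_mul_left this hn'
    have h9 : (IncLog.K m : ℝ)^3 ≤ (max C 1)^3 * n := by
      have h10 : ((n : ℝ)^((1:ℝ)/3))^3 = n := by
        rw [← Real.rpow_natCast, ← Real.rpow_mul hn'.le]; norm_num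
      calc (IncLog.K m : ℝ)^3 ≤ (max C 1 * (n : ℝ)^((1:ℝ)/3))^3 := by
            apply pow_le_pow_left₀ (by positivity) h8
        _ = (max C 1)^3 * n := by rw [mul_pow, h10]
    have hKe : (IncLog.K m : ℝ) = (2 * j^2) * 2^m := by
      rw [IncLog.K_eq, hm1]; push_cast; ring
    have hne : (n : ℝ) = IncLog.K m * (64 * j^3 * (2^m)^2) := by
      rw [hn, hM]; push_cast; ring
    rw [hne] at h9
    have hKp : (0:ℝ) < IncLog.K m := by exact_mod_cast hK
    have h11 : (IncLog.K m : ℝ)^2 ≤ (max C 1)^3 * (64 * j^3 * (2^m)^2) := by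
      have : (IncLog.K m : ℝ) * (IncLog.K m : ℝ)^2 ≤ IncLog.K m * ((max C 1)^3 * (64 * j^3 * (2^m)^2)) := by
        nlinarith
      exact le_of_mul_le_mul_left this hKp
    rw [hKe] at h11
    have hv : (0:ℝ) < (2^m)^2 := by positivity
    have h12 : (4 * j^3 * j : ℝ) ≤ (4 * j^3) * (16 * (max C 1)^3) := by
      have : (2^m : ℝ)^2 * (4 * j^3 * j) ≤ (2^m)^2 * ((4 * j^3) * (16 * (max C 1)^3)) := by
        nlinarith
      exact le_of_mul_le_mul_left this hv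
    have hj' : (0:ℝ) < j := by exact_mod_cast hjpos
    have : (j : ℝ) ≤ 16 * (max C 1)^3 := le_of_mul_le_mul_left h12 (by positivity)
    linarith
  · rintro _ ⟨t, s, r, rfl⟩
    exact Or.inl (IncLog.curve_arc 0 m t s r)
  · intro S hS
    have : {γ : Set (ℝ × ℝ) | γ ∈ {γ : Set (ℝ × ℝ) | ∃ t s r : ℕ, γ = IncLog.curve 0 m t s r} ∧
        (↑S : Set (ℝ × ℝ)) ⊆ γ}.encard ≤ 1 := by
      rw [Set.encard_le_one_iff]
      rintro a b ⟨ha, ha'⟩ ⟨hb, hb'⟩
      by_contra hne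
      have h1 := hpair a ha b hb hne
      have h2 : (↑S : Set (ℝ × ℝ)).encard ≤ (a ∩ b).encard := Set.encard_le_encard (Set.subset_inter ha' hb')
      rw [Set.encard_coe_eq_coe_finsetCard, hS] at h2
      have := h2.trans h1
      norm_num at this
    exact this.trans (by norm_num)

end Pool.Agent.S07710
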