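import Pool.Statements.S07985
import Pool.Agent.Grid3D.Regime1
import Pool.Agent.Grid3D.Regime2
import Pool.Agent.Grid3D.Final

set_option autoImplicit false
open Pool Pool.MP_325b7c_co

namespace Pool.Agent.S07985

/-- There is a constant C such that every graph with n vertices and k edges has a crossing-free straight-line drawing on integer points of 3D space whose bounding box holds at most C·(k+1)·n grid points. -/
theorem result :
    ∃ C : ℝ, ∀ (n : ℕ) (G : SimpleGraph (Fin n)),
      ∃ (f : Fin n → Fin 3 → ℤ) (b : Fin 3 → ℕ),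
        (∀ v i, 0 ≤ f v i ∧ f v i < (b i : ℤ)) ∧
        Function.Injective f ∧
        (∀ u v w : Fin n, G.Adj u v → w ≠ u → w ≠ v →
          (fun i => (f w i : ℝ)) ∉
            segment ℝ (fun i => (f u i : ℝ)) (fun i => (f v i : ℝ))) ∧
        (∀ u v x y : Fin n, G.Adj u v → G.Adj x y → s(u, v) ≠ s(x, y) →
          ∀ z ∈ segment ℝ (fun i => (f u i : ℝ)) (fun i => (f v i : ℝ)),
            z ∈ segment ℝ (fun i => (f x i : ℝ)) (fun i => (f y i : ℝ)) →
              (z = (fun i => (f u i : ℝ)) ∨ z = (fun i => (f v i : ℝ))) ∧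
              (z = (fun i => (f x i : ℝ)) ∨ z = (fun i => (f y i : ℝ)))) ∧
        ((∏ i, b i : ℕ) : ℝ) ≤ C * ((G.edgeSet.ncard : ℝ) + 1) * (n : ℝ) :=
  Pool.Agent.Grid3D.final_of Pool.Agent.Grid3D.regime1 Pool.Agent.Grid3D.regime2

end Pool.Agent.S07985
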