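import Pool.Statements.S08259
import Pool.Agent.RadPD.T7

set_option autoImplicit false
open Pool Pool.MP_3d980f_co

namespace Pool.Agent.S08259

open Pool.Agent.MeasTri Pool.Agent.RadPD in
/-- For every triple of distinct points in the plane (collinear allowed) whose three distances are not all equal, every 2-colouring of the plane has three same-coloured points with exactly those pairwise distances. -/
theorem result :
    ∀ a b c : EuclideanSpace ℝ (Fin 2),
      a ≠ b → b ≠ c → a ≠ c →
      ¬ (dist a b = dist b c ∧ dist b c = dist c a) →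
      ∀ f : EuclideanSpace ℝ (Fin 2) → Bool,
        ∃ x y z : EuclideanSpace ℝ (Fin 2),
          dist x y = dist a b ∧ dist y z = dist b c ∧ dist z x = dist c a ∧
          f x = f y ∧ f y = f z := by
  intro a b c hab hbc hac hne f
  let e : ℂ ≃ₗᵢ[ℝ] EuclideanSpace ℝ (Fin 2) := Complex.orthonormalBasisOneI.repr
  have hd : ∀ x y : EuclideanSpace ℝ (Fin 2), ‖e.symm x - e.symm y‖ = dist x y := by
    intro x y
    rw [← dist_eq_norm, e.symm.dist_map]
  have hd' : ∀ P Q : ℂ, dist (e P) (e Q) = ‖P - Q‖ := by
    intro P Q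
    rw [e.dist_map, dist_eq_norm]
  have hmain := main_all (fun z => f (e z))
    (P := e.symm a) (Q := e.symm b) (R := e.symm c)
    (fun h => hab (e.symm.injective h)) (fun h => hbc (e.symm.injective h))
    (fun h => hac (e.symm.injective h)) (by
      rw [hd, hd, hd, dist_comm a c]; exact hne)
  unfold Avoid at hmain
  push Not at hmain
  obtain ⟨P, Q, R, h1, h2, h3, h4, h5⟩ := hmain
  refine ⟨e P, e Q, e R, ?_, ?_, ?_, h4, h5⟩
  · rw [hd', h1, hd]
  · rw [hd', h2, hd]
  · rw [dist_comm, hd', h3, hd, dist_comm]

end Pool.Agent.S08259
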