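import Pool.Statements.S08655
import Pool.Agent.GreatArcs.Final

set_option autoImplicit false
open Pool Pool.MP_4d4852_co

namespace Pool.Agent.S08655

/-- There is a length L with 0 < L < 2π and a family of pairwise disjoint closed great-circle arcs on the unit sphere in 3-space, each of length L (endpoints included), whose union is the whole sphere. -/
theorem result :
    ∃ L : ℝ, 0 < L ∧ L < 2 * Real.pi ∧
      ∃ A : Set (Set (EuclideanSpace ℝ (Fin 3))),
        (∀ a ∈ A, ∃ u v : EuclideanSpace ℝ (Fin 3),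
            ‖u‖ = 1 ∧ ‖v‖ = 1 ∧ inner ℝ u v = (0 : ℝ) ∧
            a = (fun t : ℝ => Real.cos t • u + Real.sin t • v) '' Set.Icc 0 L) ∧
        A.PairwiseDisjoint id ∧
        ⋃₀ A = Metric.sphere (0 : EuclideanSpace ℝ (Fin 3)) 1 := by
  refine ⟨Real.pi / 2, by positivity, by linarith [Real.pi_pos], ?_⟩
  obtain ⟨A, hA, hd, hU⟩ := Pool.Agent.GreatArcs.sphere_splits
  refine ⟨A, hA, hd, ?_⟩
  rw [hU]
  ext p
  simp

end Pool.Agent.S08655
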