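import Pool.Statements.S08782
import Pool.Agent.MP5400b1.Newton

set_option autoImplicit false
open Pool Pool.MP_5400b1_co

namespace Pool.Agent.S08782

/-- The negation of the preceding statement: For every finite graph G: if, for each k, its chromatic polynomial in k variables is a nonnegative integer combination of Schur polynomials, then for each k every lattice point in its Newton polytope is an exponent of that polynomial. -/
theorem result :
    ¬ (∀ (V : Type) [Fintype V] (G : SimpleGraph V),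
      (∀ k : ℕ, ∃ c : YoungDiagram →₀ ℕ,
        (∑ᶠ κ : {κ : V → Fin k // ∀ u v, G.Adj u v → κ u ≠ κ v},
            ∏ v, (MvPolynomial.X ((κ.1 v : ℕ)) : MvPolynomial ℕ ℤ)) =
          c.sum (fun μ a => a • ∑ᶠ T : {T : SemistandardYoungTableau μ //
              ∀ p ∈ μ.cells, T p.1 p.2 < k},
            ∏ p ∈ μ.cells, (MvPolynomial.X (T.1 p.1 p.2) : MvPolynomial ℕ ℤ))) →
      ∀ k : ℕ, ∀ α : ℕ →₀ ℕ,
        (fun i : ℕ => (α i : ℝ)) ∈ convexHull ℝ
          ((fun β : ℕ →₀ ℕ => (fun i : ℕ => (β i : ℝ))) ''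
            ((∑ᶠ κ : {κ : V → Fin k // ∀ u v, G.Adj u v → κ u ≠ κ v},
              ∏ v, (MvPolynomial.X ((κ.1 v : ℕ)) : MvPolynomial ℕ ℤ)).support : Set (ℕ →₀ ℕ))) →
        α ∈ (∑ᶠ κ : {κ : V → Fin k // ∀ u v, G.Adj u v → κ u ≠ κ v},
              ∏ v, (MvPolynomial.X ((κ.1 v : ℕ)) : MvPolynomial ℕ ℤ)).support) := by
  intro H
  apply Pool.Agent.MP5400b1.notMem
  refine H (Fin 13) Pool.Agent.MP5400b1.G ?_ 3 (Pool.Agent.MP5400b1.e3 8 4 1)
    Pool.Agent.MP5400b1.hull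
  intro k
  obtain ⟨c, hc⟩ := Pool.Agent.MP5400b1.schur_pos
  refine ⟨c, ?_⟩
  have h1 : (∑ᶠ κ : {κ : Fin 13 → Fin k // ∀ u v, Pool.Agent.MP5400b1.G.Adj u v → κ u ≠ κ v},
            ∏ v, (MvPolynomial.X ((κ.1 v : ℕ)) : MvPolynomial ℕ ℤ)) =
      Pool.Agent.MP5400b1.P k Finset.univ := Pool.Agent.MP5400b1.XG_eq_P k
  rw [h1, ← hc k]
  apply Finsupp.sum_congr
  intro μ _
  rw [Pool.Agent.MP5400b1.S_eq_finsum]

end Pool.Agent.S08782
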