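import Pool.Statements.S08846

set_option autoImplicit false
open Pool Pool.MP_56f0a1_co

namespace Pool.Agent.S08846

/-- The ambient field for rank three. -/
abbrev KK : Type := FractionRing (MvPolynomial (Fin 3 ⊕ Fin 3) ℤ)

/-- The initial extended cluster variables. -/
noncomputable def gx (i : Fin 3 ⊕ Fin 3) : KK :=
  algebraMap (MvPolynomial (Fin 3 ⊕ Fin 3) ℤ) (FractionRing (MvPolynomial (Fin 3 ⊕ Fin 3) ℤ))
    (MvPolynomial.X i)

/-- The matrix part of a mutation. -/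
def mutM (M : Matrix (Fin 3 ⊕ Fin 3) (Fin 3) ℤ) (m : Fin 3) : Matrix (Fin 3 ⊕ Fin 3) (Fin 3) ℤ :=
  Matrix.of (fun (i : Fin 3 ⊕ Fin 3) (j : Fin 3) =>
             if i = Sum.inl m ∨ j = m then -(M i j)
             else M i j + Int.sign (M i m) * max (M i m * M (Sum.inl m) j) 0)

/-- The cluster part of a mutation. -/
noncomputable def mutX (x : Fin 3 ⊕ Fin 3 → KK) (M : Matrix (Fin 3 ⊕ Fin 3) (Fin 3) ℤ) (m : Fin 3) :
    Fin 3 ⊕ Fin 3 → KK :=
  Function.update x (Sum.inl m)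
            ((∏ i, x i ^ (M i m).toNat + ∏ i, x i ^ (-(M i m)).toNat) / x (Sum.inl m))

/-- A matrix of size six times three from its rows. -/
def mk6 (a b c d e f : Fin 3 → ℤ) : Matrix (Fin 3 ⊕ Fin 3) (Fin 3) ℤ :=
  Sum.elim ![a, b, c] ![d, e, f]

def M0 := mk6 ![0, -2, 2] ![1, 0, -1] ![-2, 2, 0] ![1, 0, 0] ![0, 1, 0] ![0, 0, 1]
def M1 := mk6 ![0, 2, -2] ![-1, 0, 1] ![2, -2, 0] ![1, 0, 0] ![0, 1, 0] ![0, 2, -1]
def M2 := mk6 ![0, -2, 0] ![1, 0, -1] ![0, 2, 0] ![1, 0, 0] ![0, -1, 1] ![0, -2, 1]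
def M3 := mk6 ![0, -2, 0] ![1, 0, 1] ![0, -2, 0] ![1, 0, 0] ![0, 1, -1] ![0, 0, -1]
def M4 := mk6 ![0, 2, 0] ![-1, 0, 1] ![0, -2, 0] ![-1, 0, 0] ![0, 1, -1] ![0, 0, -1]

lemma hM1 : mutM M0 2 = M1 := by
  ext i j
  rcases i with i | i <;> fin_cases i <;> fin_cases j <;> rfl
lemma hM2 : mutM M1 1 = M2 := by
  ext i j
  rcases i with i | i <;> fin_cases i <;> fin_cases j <;> rfl
lemma hM3 : mutM M2 2 = M3 := by
  ext i j
  rcases i with i | i <;> fin_cases i <;> fin_cases j <;> rfl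
lemma hM4 : mutM M3 0 = M4 := by
  ext i j
  rcases i with i | i <;> fin_cases i <;> fin_cases j <;> rfl

lemma prod6 (x : Fin 3 ⊕ Fin 3 → KK) (e : Fin 3 ⊕ Fin 3 → ℕ) :
    ∏ i, x i ^ e i = (x (Sum.inl 0) ^ e (Sum.inl 0) * x (Sum.inl 1) ^ e (Sum.inl 1) *
      x (Sum.inl 2) ^ e (Sum.inl 2)) * (x (Sum.inr 0) ^ e (Sum.inr 0) * x (Sum.inr 1) ^ e (Sum.inr 1) *
      x (Sum.inr 2) ^ e (Sum.inr 2)) := by
  rw [Fintype.prod_sum_type, Fin.prod_univ_three, Fin.prod_univ_three]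

/-- Cluster from six elements. -/
noncomputable def mx (a b c d e f : KK) : Fin 3 ⊕ Fin 3 → KK := Sum.elim ![a, b, c] ![d, e, f]

lemma mutX2 (a b c d e f v : KK) (M : Matrix (Fin 3 ⊕ Fin 3) (Fin 3) ℤ)
    (h : (∏ i, (mx a b c d e f) i ^ (M i 2).toNat + ∏ i, (mx a b c d e f) i ^ (-(M i 2)).toNat) / c = v) :
    mutX (mx a b c d e f) M 2 = mx a b v d e f := by
  subst h
  unfold mutX
  funext i
  rcases i with i | i <;> fin_cases i <;> simp [mx, Function.update]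

lemma mutX1 (a b c d e f v : KK) (M : Matrix (Fin 3 ⊕ Fin 3) (Fin 3) ℤ)
    (h : (∏ i, (mx a b c d e f) i ^ (M i 1).toNat + ∏ i, (mx a b c d e f) i ^ (-(M i 1)).toNat) / b = v) :
    mutX (mx a b c d e f) M 1 = mx a v c d e f := by
  subst h
  unfold mutX
  funext i
  rcases i with i | i <;> fin_cases i <;> simp [mx, Function.update]

lemma mutX0 (a b c d e f v : KK) (M : Matrix (Fin 3 ⊕ Fin 3) (Fin 3) ℤ)
    (h : (∏ i, (mx a b c d e f) i ^ (M i 0).toNat + ∏ i, (mx a b c d e f) i ^ (-(M i 0)).toNat) / a = v) :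
    mutX (mx a b c d e f) M 0 = mx v b c d e f := by
  subst h
  unfold mutX
  funext i
  rcases i with i | i <;> fin_cases i <;> simp [mx, Function.update]

lemma gx_ne (i : Fin 3 ⊕ Fin 3) : gx i ≠ 0 := by
  unfold gx
  intro h
  rw [map_eq_zero_iff _ (IsFractionRing.injective _ _)] at h
  exact MvPolynomial.X_ne_zero i h

/-- nonvanishing of images of polynomials with nonzero value at the all-ones point -/
lemma alg_ne (p : MvPolynomial (Fin 3 ⊕ Fin 3) ℤ) (h : MvPolynomial.eval (fun _ => (1 : ℤ)) p ≠ 0) :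
    algebraMap (MvPolynomial (Fin 3 ⊕ Fin 3) ℤ) (FractionRing (MvPolynomial (Fin 3 ⊕ Fin 3) ℤ)) p ≠ 0 := by
  intro h2
  rw [map_eq_zero_iff _ (IsFractionRing.injective _ _)] at h2
  rw [h2] at h
  simp at h


noncomputable def v1 (a b c _d _e f : KK) : KK := (b + a ^ 2 * f) / c
noncomputable def v2 (a b c _d e f : KK) : KK :=
  ((b + a ^ 2 * f) ^ 2 + a ^ 2 * c ^ 2 * e * f ^ 2) / (b * c ^ 2)
noncomputable def v3 (a b c _d e f : KK) : KK := (c ^ 2 * e * f + b + a ^ 2 * f) / (b * c)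
noncomputable def v4 (a b c d e f : KK) : KK :=
  (b * c ^ 2 + d * ((b + a ^ 2 * f) ^ 2 + a ^ 2 * c ^ 2 * e * f ^ 2)) / (a * b * c ^ 2)
noncomputable def v5 (a b c d e f : KK) : KK :=
  (c ^ 4 * e + 2 * b * c ^ 2 * d * e + b ^ 2 * d ^ 2 * e + a ^ 2 * c ^ 2
    + a ^ 2 * c ^ 2 * d ^ 2 * e ^ 2 * f ^ 2 + 2 * a ^ 2 * b * d ^ 2 * e * f
    + a ^ 4 * d ^ 2 * e * f ^ 2) / (a ^ 2 * b * c ^ 2)

section steps
variable (a b c d e f : KK) (ha : a ≠ 0) (hb : b ≠ 0) (hc : c ≠ 0)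

lemma step1 : mutX (mx a b c d e f) M0 2 = mx a b (v1 a b c d e f) d e f := by
  apply mutX2
  rw [prod6, prod6]
  simp [mx, M0, mk6, v1]
  ring

include hb hc in
lemma step2 : mutX (mx a b (v1 a b c d e f) d e f) M1 1
    = mx a (v2 a b c d e f) (v1 a b c d e f) d e f := by
  apply mutX1
  rw [prod6, prod6]
  simp [mx, M1, mk6, v1, v2]
  field_simp
  ring

include hb hc in
lemma step3 (h1 : b + a ^ 2 * f ≠ 0) :
    mutX (mx a (v2 a b c d e f) (v1 a b c d e f) d e f) M2 2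
    = mx a (v2 a b c d e f) (v3 a b c d e f) d e f := by
  apply mutX2
  rw [prod6, prod6]
  rw [div_eq_iff (show v1 a b c d e f ≠ 0 from div_ne_zero h1 hc)]
  simp [mx, M2, mk6, v1, v2, v3]
  field_simp
  ring

include ha hb hc in
lemma step4 :
    mutX (mx a (v2 a b c d e f) (v3 a b c d e f) d e f) M3 0
    = mx (v4 a b c d e f) (v2 a b c d e f) (v3 a b c d e f) d e f := by
  apply mutX0
  rw [prod6, prod6]
  simp [mx, M3, mk6, v2, v3, v4]
  field_simp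
  ring

include ha hb hc in
lemma step5 (h2 : (b + a ^ 2 * f) ^ 2 + a ^ 2 * c ^ 2 * e * f ^ 2 ≠ 0) :
    mutX (mx (v4 a b c d e f) (v2 a b c d e f) (v3 a b c d e f) d e f) M4 1
    = mx (v4 a b c d e f) (v5 a b c d e f) (v3 a b c d e f) d e f := by
  apply mutX1
  rw [prod6, prod6]
  rw [div_eq_iff (show v2 a b c d e f ≠ 0 from
    div_ne_zero h2 (mul_ne_zero hb (pow_ne_zero 2 hc)))]
  simp [mx, M4, mk6, v2, v3, v4, v5]
  field_simp
  ring

end steps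

/-- The exponent vector with the given entries. -/
def ev (a b c d e f : ℤ) : Fin 3 ⊕ Fin 3 → ℤ := Sum.elim ![a, b, c] ![d, e, f]

/-- The Laurent expansion of the cluster variable. -/
noncomputable def cc : (Fin 3 ⊕ Fin 3 → ℤ) →₀ ℤ :=
  Finsupp.single (ev (-2) (-1) 2 0 1 0) 1 + Finsupp.single (ev (-2) 0 0 1 1 0) 2
  + Finsupp.single (ev (-2) 1 (-2) 2 1 0) 1 + Finsupp.single (ev 0 (-1) 0 0 0 0) 1
  + Finsupp.single (ev 0 (-1) 0 2 2 2) 1 + Finsupp.single (ev 0 0 (-2) 2 1 1) 2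
  + Finsupp.single (ev 2 (-1) (-2) 2 1 2) 1

/-- the monomial evaluation -/
noncomputable def mono (a : Fin 3 ⊕ Fin 3 → ℤ) : KK :=
  ∏ i, (algebraMap (MvPolynomial (Fin 3 ⊕ Fin 3) ℤ)
              (FractionRing (MvPolynomial (Fin 3 ⊕ Fin 3) ℤ)) (MvPolynomial.X i)) ^ (a i)

lemma mono_ev (a b c d e f : ℤ) : mono (ev a b c d e f) =
    (gx (Sum.inl 0) ^ a * gx (Sum.inl 1) ^ b * gx (Sum.inl 2) ^ c) *
    (gx (Sum.inr 0) ^ d * gx (Sum.inr 1) ^ e * gx (Sum.inr 2) ^ f) := by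
  unfold mono
  rw [Fintype.prod_sum_type, Fin.prod_univ_three, Fin.prod_univ_three]
  simp [ev, gx]

lemma sum_add' (f g : (Fin 3 ⊕ Fin 3 → ℤ) →₀ ℤ) :
    (f + g).sum (fun a r => ((r : ℤ) : KK) * mono a)
      = f.sum (fun a r => ((r : ℤ) : KK) * mono a) + g.sum (fun a r => ((r : ℤ) : KK) * mono a) :=
  Finsupp.sum_add_index' (by intro a; simp) (by intro a b c; push_cast; ring)

lemma sum_single' (a : Fin 3 ⊕ Fin 3 → ℤ) (r : ℤ) :
    (Finsupp.single a r).sum (fun a r => ((r : ℤ) : KK) * mono a) = (r : KK) * mono a :=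
  Finsupp.sum_single_index (by simp)

lemma cc_sum : cc.sum (fun a r => ((r : ℤ) : KK) * mono a) =
    v5 (gx (Sum.inl 0)) (gx (Sum.inl 1)) (gx (Sum.inl 2)) (gx (Sum.inr 0)) (gx (Sum.inr 1))
      (gx (Sum.inr 2)) := by
  unfold cc
  simp only [sum_add', sum_single', mono_ev]
  have h0 := gx_ne (Sum.inl 0)
  have h1 := gx_ne (Sum.inl 1)
  have h2 := gx_ne (Sum.inl 2)
  generalize gx (Sum.inl 0) = a at *
  generalize gx (Sum.inl 1) = b at *
  generalize gx (Sum.inl 2) = c at *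
  generalize gx (Sum.inr 0) = d at *
  generalize gx (Sum.inr 1) = e at *
  generalize gx (Sum.inr 2) = f at *
  unfold v5
  have e1 : ∀ x : KK, x ^ (-2 : ℤ) = (x ^ 2)⁻¹ := by
    intro x; rw [zpow_neg]; norm_cast
  have e2 : ∀ x : KK, x ^ (-1 : ℤ) = x⁻¹ := by
    intro x; rw [zpow_neg]; norm_num
  have e3 : ∀ x : KK, x ^ (2 : ℤ) = x ^ 2 := by
    intro x; norm_cast
  simp only [e1, e2, e3, zpow_zero, zpow_one]
  push_cast
  field_simp

lemma ev_inj {a b c d e f a' b' c' d' e' f' : ℤ}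
    (h : ev a b c d e f = ev a' b' c' d' e' f') :
    a = a' ∧ b = b' ∧ c = c' ∧ d = d' ∧ e = e' ∧ f = f' := by
  have h0 := congrFun h (Sum.inl 0)
  have h1 := congrFun h (Sum.inl 1)
  have h2 := congrFun h (Sum.inl 2)
  have h3 := congrFun h (Sum.inr 0)
  have h4 := congrFun h (Sum.inr 1)
  have h5 := congrFun h (Sum.inr 2)
  simp [ev] at h0 h1 h2 h3 h4 h5
  exact ⟨h0, h1, h2, h3, h4, h5⟩

lemma ev_eq_iff {a b c d e f a' b' c' d' e' f' : ℤ} :
    ev a b c d e f = ev a' b' c' d' e' f' ↔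
    (a = a' ∧ b = b' ∧ c = c' ∧ d = d' ∧ e = e' ∧ f = f') := by
  constructor
  · exact ev_inj
  · rintro ⟨rfl, rfl, rfl, rfl, rfl, rfl⟩; rfl

lemma cc_mid : cc (ev 0 (-1) 0 1 1 1) = 0 := by
  simp [cc, ev_eq_iff]

lemma cc_low : cc (ev 0 (-1) 0 0 0 0) = 1 := by
  simp [cc, ev_eq_iff]

lemma cc_high : cc (ev 0 (-1) 0 2 2 2) = 1 := by
  simp [cc, ev_eq_iff]

/-- The exchange matrix. -/
def BB : Matrix (Fin 3) (Fin 3) ℤ := ![![0, -2, 2], ![1, 0, -1], ![-2, 2, 0]]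

lemma hM0 : Matrix.fromRows BB (1 : Matrix (Fin 3) (Fin 3) ℤ) = M0 := by
  ext i j
  rcases i with i | i <;> fin_cases i <;> fin_cases j <;> rfl

lemma hX0 : (fun i => algebraMap (MvPolynomial (Fin 3 ⊕ Fin 3) ℤ)
            (FractionRing (MvPolynomial (Fin 3 ⊕ Fin 3) ℤ)) (MvPolynomial.X i)) =
    mx (gx (Sum.inl 0)) (gx (Sum.inl 1)) (gx (Sum.inl 2)) (gx (Sum.inr 0)) (gx (Sum.inr 1))
      (gx (Sum.inr 2)) := by
  funext i
  rcases i with i | i <;> fin_cases i <;> rfl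

lemma w1_ne : gx (Sum.inl 1) + gx (Sum.inl 0) ^ 2 * gx (Sum.inr 2) ≠ 0 := by
  have h := alg_ne (MvPolynomial.X (Sum.inl 1) + MvPolynomial.X (Sum.inl 0) ^ 2 *
    MvPolynomial.X (Sum.inr 2)) (by simp)
  simpa [gx] using h

lemma w2_ne : (gx (Sum.inl 1) + gx (Sum.inl 0) ^ 2 * gx (Sum.inr 2)) ^ 2
    + gx (Sum.inl 0) ^ 2 * gx (Sum.inl 2) ^ 2 * gx (Sum.inr 1) * gx (Sum.inr 2) ^ 2 ≠ 0 := by
  have h := alg_ne ((MvPolynomial.X (Sum.inl 1) + MvPolynomial.X (Sum.inl 0) ^ 2 *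
    MvPolynomial.X (Sum.inr 2)) ^ 2 + MvPolynomial.X (Sum.inl 0) ^ 2 *
    MvPolynomial.X (Sum.inl 2) ^ 2 * MvPolynomial.X (Sum.inr 1) * MvPolynomial.X (Sum.inr 2) ^ 2)
    (by simp)
  simpa [gx] using h

/-- The five mutations. -/
lemma fold_eq :
    (List.foldl
        (fun (s : (Fin 3 ⊕ Fin 3 → FractionRing (MvPolynomial (Fin 3 ⊕ Fin 3) ℤ)) ×
                  Matrix (Fin 3 ⊕ Fin 3) (Fin 3) ℤ) (m : Fin 3) =>
          (Function.update s.1 (Sum.inl m)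
            ((∏ i, s.1 i ^ (s.2 i m).toNat + ∏ i, s.1 i ^ (-(s.2 i m)).toNat) / s.1 (Sum.inl m)),
           Matrix.of (fun (i : Fin 3 ⊕ Fin 3) (j : Fin 3) =>
             if i = Sum.inl m ∨ j = m then -(s.2 i j)
             else s.2 i j + Int.sign (s.2 i m) * max (s.2 i m * s.2 (Sum.inl m) j) 0)))
        (fun i => algebraMap (MvPolynomial (Fin 3 ⊕ Fin 3) ℤ)
            (FractionRing (MvPolynomial (Fin 3 ⊕ Fin 3) ℤ)) (MvPolynomial.X i),
         Matrix.fromRows BB (1 : Matrix (Fin 3) (Fin 3) ℤ))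
        [2, 1, 2, 0, 1]).1 (Sum.inl 1)
    = v5 (gx (Sum.inl 0)) (gx (Sum.inl 1)) (gx (Sum.inl 2)) (gx (Sum.inr 0)) (gx (Sum.inr 1))
      (gx (Sum.inr 2)) := by
  have hstep : (fun (s : (Fin 3 ⊕ Fin 3 → FractionRing (MvPolynomial (Fin 3 ⊕ Fin 3) ℤ)) ×
                  Matrix (Fin 3 ⊕ Fin 3) (Fin 3) ℤ) (m : Fin 3) =>
          (Function.update s.1 (Sum.inl m)
            ((∏ i, s.1 i ^ (s.2 i m).toNat + ∏ i, s.1 i ^ (-(s.2 i m)).toNat) / s.1 (Sum.inl m)),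
           Matrix.of (fun (i : Fin 3 ⊕ Fin 3) (j : Fin 3) =>
             if i = Sum.inl m ∨ j = m then -(s.2 i j)
             else s.2 i j + Int.sign (s.2 i m) * max (s.2 i m * s.2 (Sum.inl m) j) 0)))
      = (fun s m => (mutX s.1 s.2 m, mutM s.2 m)) := rfl
  rw [hstep, hM0, hX0]
  simp only [List.foldl_cons, List.foldl_nil]
  have ha := gx_ne (Sum.inl 0)
  have hb := gx_ne (Sum.inl 1)
  have hc := gx_ne (Sum.inl 2)
  rw [step1, hM1, step2 _ _ _ _ _ _ hb hc, hM2, step3 _ _ _ _ _ _ hb hc w1_ne, hM3,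
    step4 _ _ _ _ _ _ ha hb hc, hM4, step5 _ _ _ _ _ _ ha hb hc w2_ne]
  simp [mx]

/-- The negation of the preceding statement: For every skew-symmetrizable integer matrix B, every cluster variable obtained by mutations from the principal-coefficient seed has a Laurent expansion in x and y whose support contains every lattice point of its convex hull. -/
theorem result :
    ¬ (∀ (n : ℕ) (B : Matrix (Fin n) (Fin n) ℤ),
    (∃ d : Fin n → ℤ, (∀ i, 0 < d i) ∧ ∀ i j, d i * B i j = -(d j * B j i)) →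
    ∀ (ks : List (Fin n)) (k : Fin n) (c : (Fin n ⊕ Fin n → ℤ) →₀ ℤ),
      (List.foldl
        (fun (s : (Fin n ⊕ Fin n → FractionRing (MvPolynomial (Fin n ⊕ Fin n) ℤ)) ×
                  Matrix (Fin n ⊕ Fin n) (Fin n) ℤ) (m : Fin n) =>
          (Function.update s.1 (Sum.inl m)
            ((∏ i, s.1 i ^ (s.2 i m).toNat + ∏ i, s.1 i ^ (-(s.2 i m)).toNat) / s.1 (Sum.inl m)),
           Matrix.of (fun (i : Fin n ⊕ Fin n) (j : Fin n) =>
             if i = Sum.inl m ∨ j = m then -(s.2 i j)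
             else s.2 i j + Int.sign (s.2 i m) * max (s.2 i m * s.2 (Sum.inl m) j) 0)))
        (fun i => algebraMap (MvPolynomial (Fin n ⊕ Fin n) ℤ)
            (FractionRing (MvPolynomial (Fin n ⊕ Fin n) ℤ)) (MvPolynomial.X i),
         Matrix.fromRows B (1 : Matrix (Fin n) (Fin n) ℤ))
        ks).1 (Sum.inl k)
        = c.sum (fun a r => (r : FractionRing (MvPolynomial (Fin n ⊕ Fin n) ℤ)) *
            ∏ i, (algebraMap (MvPolynomial (Fin n ⊕ Fin n) ℤ)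
              (FractionRing (MvPolynomial (Fin n ⊕ Fin n) ℤ)) (MvPolynomial.X i)) ^ (a i)) →
      ∀ a : Fin n ⊕ Fin n → ℤ,
        (fun i => (a i : ℝ)) ∈ convexHull ℝ
          ((fun b : Fin n ⊕ Fin n → ℤ => fun i => (b i : ℝ)) ''
            (↑c.support : Set (Fin n ⊕ Fin n → ℤ))) →
        a ∈ c.support) := by
  intro H
  have h := H 3 BB ⟨![1, 2, 1], by decide, by decide⟩ [2, 1, 2, 0, 1] 1 cc
    (by rw [fold_eq]; exact cc_sum.symm) (ev 0 (-1) 0 1 1 1) ?_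
  · rw [Finsupp.mem_support_iff] at h
    exact h cc_mid
  · have hlow : (fun i => ((ev 0 (-1) 0 0 0 0 i : ℤ) : ℝ)) ∈
        ((fun b : Fin 3 ⊕ Fin 3 → ℤ => fun i => (b i : ℝ)) ''
            (↑cc.support : Set (Fin 3 ⊕ Fin 3 → ℤ))) := by
      refine ⟨ev 0 (-1) 0 0 0 0, ?_, rfl⟩
      simp only [Finset.mem_coe, Finsupp.mem_support_iff, cc_low]
      norm_num
    have hhigh : (fun i => ((ev 0 (-1) 0 2 2 2 i : ℤ) : ℝ)) ∈
        ((fun b : Fin 3 ⊕ Fin 3 → ℤ => fun i => (b i : ℝ)) ''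
            (↑cc.support : Set (Fin 3 ⊕ Fin 3 → ℤ))) := by
      refine ⟨ev 0 (-1) 0 2 2 2, ?_, rfl⟩
      simp only [Finset.mem_coe, Finsupp.mem_support_iff, cc_high]
      norm_num
    have hmid := (convex_convexHull ℝ ((fun b : Fin 3 ⊕ Fin 3 → ℤ => fun i => (b i : ℝ)) ''
            (↑cc.support : Set (Fin 3 ⊕ Fin 3 → ℤ)))) (subset_convexHull ℝ _ hlow)
            (subset_convexHull ℝ _ hhigh) (show (0 : ℝ) ≤ 1 / 2 by norm_num)
            (show (0 : ℝ) ≤ 1 / 2 by norm_num) (by norm_num)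
    convert hmid using 1
    funext i
    rcases i with i | i <;> fin_cases i <;> simp [ev]
    norm_num

end Pool.Agent.S08846
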