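import Pool.Statements.S08869
import Pool.Agent.GemWidth.ClassX
import Pool.Agent.GemWidth.Convert
import Pool.Agent.GemWidth.C5free
import Pool.Agent.GemWidth.C5Main
import Pool.Agent.GemWidth.NoTwoP2
import Pool.Agent.GemWidth.TwoCompsFinal
import Pool.Agent.GemWidth.ManyComps
import Pool.Agent.GemWidth.EO

set_option autoImplicit false
open Pool Pool.MP_57fa5f_co
open Pool.Agent.GemWidth

namespace Pool.Agent.S08869

/-- There is a k such that every finite nonempty graph with no induced gem (complement of P1+P4) and no induced P2+P3 has clique-width at most k, i.e. is built by a k-label expression. -/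
theorem result :
  ∃ k : ℕ, ∀ (V : Type) [Finite V] [Nonempty V] (G : SimpleGraph V),
    IsEmpty ((SimpleGraph.fromRel (fun a b : Fin 5 => a.val + 1 = b.val ∧ b.val ≤ 3))ᶜ ↪g G) →
    IsEmpty (SimpleGraph.fromRel (fun a b : Fin 5 =>
        (a.val = 0 ∧ b.val = 1) ∨ (a.val = 2 ∧ b.val = 3) ∨ (a.val = 3 ∧ b.val = 4)) ↪g G) →
    ∃ l : V → Fin k, ∀ P : Set V → (V → Fin k) → SimpleGraph V → Prop,
      (∀ (v : V) (l0 : V → Fin k), P ({v} : Set V) l0 ⊥) →
      (∀ (S1 S2 : Set V) (l1 l2 l0 : V → Fin k) (H1 H2 : SimpleGraph V),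
          P S1 l1 H1 → P S2 l2 H2 → Disjoint S1 S2 →
          (∀ u ∈ S1, l0 u = l1 u) → (∀ u ∈ S2, l0 u = l2 u) →
          P (S1 ∪ S2) l0 (H1 ⊔ H2)) →
      (∀ (S : Set V) (l0 : V → Fin k) (H H' : SimpleGraph V) (i j : Fin k),
          P S l0 H → i ≠ j →
          (∀ u v : V, H'.Adj u v ↔ (H.Adj u v ∨
              (u ∈ S ∧ v ∈ S ∧ ((l0 u = i ∧ l0 v = j) ∨ (l0 u = j ∧ l0 v = i))))) →
          P S l0 H') →
      (∀ (S : Set V) (l0 l' : V → Fin k) (H : SimpleGraph V) (i j : Fin k),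
          P S l0 H →
          (∀ u ∈ S, (l0 u = i → l' u = j) ∧ (l0 u ≠ i → l' u = l0 u)) →
          P S l' H) →
      P Set.univ l G := by
  have hX : ClassX kStat := fun V _ G q R hG h => classX_bound' hG h
  obtain ⟨kE, hE⟩ := EO_bound_of hX
  have hmany : ManyCompsStmt := manyComps_bound_of' ⟨kStat, hX⟩ ⟨kE, hE⟩
  obtain ⟨k1, h1⟩ := c5free_of noTwoP2_bound twoComps_bound hmany
  obtain ⟨k2, h2⟩ := c5_bound_of hX
  refine ⟨3 * (max k1 k2 + 1), ?_⟩
  intro V _ _ G hgem hp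
  have hG : Cls G := cls_of_isEmpty G hgem hp
  have hW : W G Set.univ (max k1 k2) := by
    by_cases h : NoC5 G
    · exact (h1 V G hG h).mono (le_max_left _ _)
    · exact (h2 V G hG h).mono (le_max_right _ _)
  exact cw_of_W G _ hW

end Pool.Agent.S08869
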