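import Pool.Statements.S09234

set_option autoImplicit false
open Pool Pool.MP_65fa9f_co

namespace Pool.Agent.S09234

/-- The vertex type of the host graph on a finite set `X`: the points of `X` together with all
subsets of `X` containing at least a third of the points. -/
abbrev Vert (X : Type) [Fintype X] : Type :=
  X ⊕ {S : Finset X // Fintype.card X ≤ 3 * S.card}

/-- Two points are always related; a point is related to the sets that contain it. -/
def hostRel (X : Type) [Fintype X] : Vert X → Vert X → Prop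
  | Sum.inl _, Sum.inl _ => True
  | Sum.inl x, Sum.inr S => x ∈ S.1
  | Sum.inr _, _ => False

/-- The host graph. -/
def host (X : Type) [Fintype X] : SimpleGraph (Vert X) := SimpleGraph.fromRel (hostRel X)

lemma host_inl_inl {X : Type} [Fintype X] {x y : X} (h : x ≠ y) :
    (host X).Adj (Sum.inl x) (Sum.inl y) := by
  simp [host, hostRel, h]

lemma host_inl_inr {X : Type} [Fintype X] {x : X}
    {S : {S : Finset X // Fintype.card X ≤ 3 * S.card}} (h : x ∈ S.1) :
    (host X).Adj (Sum.inl x) (Sum.inr S) := by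
  simp [host, hostRel, h]

lemma host_inr_adj {X : Type} [Fintype X]
    {S : {S : Finset X // Fintype.card X ≤ 3 * S.card}} {v : Vert X}
    (h : (host X).Adj (Sum.inr S) v) : ∃ x ∈ S.1, v = Sum.inl x := by
  rcases v with x | T
  · refine ⟨x, ?_, rfl⟩
    simpa [host, hostRel] using h
  · simp [host, hostRel] at h

/-- No host graph on a nonempty point set has an isolated vertex. -/
lemma host_no_isolated (X : Type) [Fintype X] [Nonempty X] (v : Vert X) :
    ∃ u, (host X).Adj v u := by
  rcases v with x | S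
  · refine ⟨Sum.inr ⟨Finset.univ, ?_⟩, host_inl_inr (Finset.mem_univ x)⟩
    rw [Finset.card_univ]; omega
  · have h1 : 0 < S.1.card := by
      have := S.2
      have h2 : 0 < Fintype.card X := Fintype.card_pos
      omega
    obtain ⟨x, hx⟩ := Finset.card_pos.1 h1
    exact ⟨Sum.inl x, (host_inl_inr hx).symm⟩

/-- The class of a colour after merging all colours from `2` on. -/
def cls {j : ℕ} (i : Fin j) : Fin 3 :=
  if i.val = 0 then 0 else if i.val = 1 then 1 else 2

/-- A host graph has no partition into three or more dominating sets. -/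
lemma host_domatic (X : Type) [Fintype X] (j : ℕ) (hj : 3 ≤ j)
    (h : Vert X → Fin j)
    (hd : ∀ (i : Fin j) (w : Vert X), h w = i ∨ ∃ x, (host X).Adj w x ∧ h x = i) : False := by
  classical
  -- a colour class of the merged colouring of the points is large
  obtain ⟨c, hc⟩ : ∃ c : Fin 3,
      Fintype.card X ≤ 3 * (Finset.univ.filter (fun x : X => cls (h (Sum.inl x)) = c)).card := by
    by_contra hcon
    push Not at hcon
    have hsum : Fintype.card X =
        ∑ c : Fin 3, (Finset.univ.filter (fun x : X => cls (h (Sum.inl x)) = c)).card := by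
      have := Finset.card_eq_sum_card_fiberwise (s := (Finset.univ : Finset X))
        (t := (Finset.univ : Finset (Fin 3))) (f := fun x : X => cls (h (Sum.inl x)))
        (fun x _ => Finset.mem_coe.2 (Finset.mem_univ _))
      exact (Finset.card_univ).symm.trans this
    rw [Fin.sum_univ_three] at hsum
    have h0 := hcon 0
    have h1 := hcon 1
    have h2 := hcon 2
    omega
  set S : {S : Finset X // Fintype.card X ≤ 3 * S.card} := ⟨_, hc⟩ with hS
  have key : ∀ i : Fin j, i = h (Sum.inr S) ∨ cls i = c := by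
    intro i
    rcases hd i (Sum.inr S) with h1 | ⟨x, hx, hxi⟩
    · exact Or.inl h1.symm
    · obtain ⟨y, hy, rfl⟩ := host_inr_adj hx
      right
      rw [← hxi]
      have : y ∈ Finset.univ.filter (fun x : X => cls (h (Sum.inl x)) = c) := hy
      exact (Finset.mem_filter.1 this).2
  have k0 := key ⟨0, by omega⟩
  have k1 := key ⟨1, by omega⟩
  have k2 := key ⟨2, by omega⟩
  have c0 : cls (⟨0, by omega⟩ : Fin j) = 0 := by simp [cls]
  have c1 : cls (⟨1, by omega⟩ : Fin j) = 1 := by simp [cls]
  have c2 : cls (⟨2, by omega⟩ : Fin j) = 2 := by simp [cls]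
  rw [c0] at k0
  rw [c1] at k1
  rw [c2] at k2
  have e01 : (⟨0, by omega⟩ : Fin j) ≠ ⟨1, by omega⟩ := by simp
  have e02 : (⟨0, by omega⟩ : Fin j) ≠ ⟨2, by omega⟩ := by simp
  have e12 : (⟨1, by omega⟩ : Fin j) ≠ ⟨2, by omega⟩ := by simp
  rcases k0 with k0 | k0 <;> rcases k1 with k1 | k1 <;> rcases k2 with k2 | k2
  · exact e01 (k0.trans k1.symm)
  · exact e01 (k0.trans k1.symm)
  · exact e02 (k0.trans k2.symm)
  · rw [← k1] at k2; exact absurd k2 (by decide)
  · exact e12 (k1.trans k2.symm)
  · rw [← k0] at k2; exact absurd k2 (by decide)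
  · rw [← k0] at k1; exact absurd k1 (by decide)
  · rw [← k0] at k1; exact absurd k1 (by decide)

lemma six_sub_le (a : ℕ) (ha : a ≤ 6) : ((6 - a : ℕ) : ℚ) ≤ 6 * (5 / 6) ^ a := by
  interval_cases a <;> norm_num

/-- If a set `S` of words over six letters has at least a third of all words, then in total at
most six letter-position pairs are missing from `S`. -/
lemma missing_le {V : Type} [Fintype V] [DecidableEq V] (S : Finset (V → Fin 6))
    (hS : Fintype.card (V → Fin 6) ≤ 3 * S.card) (m : V → Finset (Fin 6))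
    (hm : ∀ g i, i ∈ m g → ∀ x ∈ S, x g ≠ i) : ∑ g, (m g).card ≤ 6 := by
  classical
  by_contra hcon
  push Not at hcon
  have h1 : S ⊆ Fintype.piFinset (fun g => (m g)ᶜ) := by
    intro x hx
    rw [Fintype.mem_piFinset]
    intro g
    rw [Finset.mem_compl]
    intro hg
    exact hm g _ hg x hx rfl
  have h2 : S.card ≤ ∏ g, (6 - (m g).card) := by
    refine (Finset.card_le_card h1).trans ?_
    rw [Fintype.card_piFinset]
    refine Finset.prod_le_prod' (fun g _ => ?_)
    rw [Finset.card_compl, Fintype.card_fin]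
  have h3 : ((∏ g, (6 - (m g).card) : ℕ) : ℚ) ≤ 6 ^ Fintype.card V * (5 / 6) ^ (∑ g, (m g).card) := by
    rw [Nat.cast_prod, ← Finset.prod_pow_eq_pow_sum]
    have : (6 : ℚ) ^ Fintype.card V = ∏ _g : V, (6 : ℚ) := by
      rw [Finset.prod_const, Finset.card_univ]
    rw [this, ← Finset.prod_mul_distrib]
    refine Finset.prod_le_prod (fun g _ => Nat.cast_nonneg _) (fun g _ => ?_)
    refine six_sub_le _ ?_
    simpa using Finset.card_le_univ (m g)
  have h4 : ((5 : ℚ) / 6) ^ (∑ g, (m g).card) ≤ (5 / 6) ^ 7 :=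
    pow_le_pow_of_le_one (by norm_num) (by norm_num) hcon
  have h5 : ((Fintype.card (V → Fin 6) : ℕ) : ℚ) = 6 ^ Fintype.card V := by
    rw [Fintype.card_fun, Fintype.card_fin]; push_cast; rfl
  have h6 : ((Fintype.card (V → Fin 6) : ℕ) : ℚ) ≤ 3 * S.card := by exact_mod_cast hS
  have h7 : ((S.card : ℕ) : ℚ) ≤ ((∏ g, (6 - (m g).card) : ℕ) : ℚ) := by exact_mod_cast h2
  have hpos : (0 : ℚ) < 6 ^ Fintype.card V := by positivity
  have h8 : (6 : ℚ) ^ Fintype.card V ≤ 3 * (6 ^ Fintype.card V * (5 / 6) ^ 7) := by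
    calc (6 : ℚ) ^ Fintype.card V = ((Fintype.card (V → Fin 6) : ℕ) : ℚ) := h5.symm
      _ ≤ 3 * S.card := h6
      _ ≤ 3 * ((∏ g, (6 - (m g).card) : ℕ) : ℚ) := by linarith
      _ ≤ 3 * (6 ^ Fintype.card V * (5 / 6) ^ (∑ g, (m g).card)) := by linarith
      _ ≤ 3 * (6 ^ Fintype.card V * (5 / 6) ^ 7) := by
        have := mul_le_mul_of_nonneg_left h4 hpos.le
        linarith
  have h9 : (3 : ℚ) * (5 / 6) ^ 7 < 1 := by norm_num
  have h10 : (3 : ℚ) * (6 ^ Fintype.card V * (5 / 6) ^ 7) < 6 ^ Fintype.card V := by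
    calc (3 : ℚ) * (6 ^ Fintype.card V * (5 / 6) ^ 7)
        = 6 ^ Fintype.card V * (3 * (5 / 6) ^ 7) := by ring
      _ < 6 ^ Fintype.card V * 1 := mul_lt_mul_of_pos_left h9 hpos
      _ = 6 ^ Fintype.card V := by ring
  linarith

/-- If every closed neighbourhood has at least six elements and at most six vertex-colour demands
are made, some colouring meets all of them. -/
lemma exists_colouring {V : Type} [Fintype V] [DecidableEq V] (N : V → Finset V)
    (hN : ∀ g, 6 ≤ (N g).card) (m : V → Finset (Fin 6)) (hm : ∑ g, (m g).card ≤ 6) :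
    ∃ c : V → Fin 6, ∀ g, ∀ i ∈ m g, ∃ g' ∈ N g, c g' = i := by
  classical
  let D : Finset (Σ _ : V, Fin 6) := Finset.univ.sigma m
  have hD : D.card ≤ 6 := by
    rw [Finset.card_sigma]; exact hm
  have hall : ∀ s : Finset D, s.card ≤ (s.biUnion (fun d => N d.1.1)).card := by
    intro s
    rcases s.eq_empty_or_nonempty with rfl | ⟨d, hd⟩
    · simp
    · calc s.card ≤ Fintype.card D := Finset.card_le_univ s
        _ = D.card := Fintype.card_coe D
        _ ≤ 6 := hD
        _ ≤ (N d.1.1).card := hN _
        _ ≤ _ := Finset.card_le_card (Finset.subset_biUnion_of_mem (fun d : D => N d.1.1) hd)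
  obtain ⟨φ, hφ, hφN⟩ := (Finset.all_card_le_biUnion_card_iff_exists_injective
    (fun d : D => N d.1.1)).1 hall
  refine ⟨fun v => if hv : ∃ d : D, φ d = v then (Classical.choose hv).1.2 else 0, ?_⟩
  intro g i hi
  have hmem : (⟨g, i⟩ : Σ _ : V, Fin 6) ∈ D := by
    simp [D, hi]
  let d : D := ⟨⟨g, i⟩, hmem⟩
  refine ⟨φ d, hφN d, ?_⟩
  have hv : ∃ d' : D, φ d' = φ d := ⟨d, rfl⟩
  have h1 := hφ (Classical.choose_spec hv)
  show (if hv : ∃ d' : D, φ d' = φ d then (Classical.choose hv).1.2 else 0) = i
  rw [dif_pos hv, h1]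

/-- The negation of the preceding statement: For finite graphs G, H without isolated vertices: if G□H splits into k dominating sets, then for some j, G or H splits into j dominating sets and k ≤ 2j+1; i.e. d(G□H) ≤ 2max(d(G),d(H))+1. -/
theorem result :
    ¬ (∀ (V W : Type) [Fintype V] [Fintype W] (G : SimpleGraph V) (H : SimpleGraph W),
      (∀ v, ∃ u, G.Adj v u) → (∀ w, ∃ x, H.Adj w x) →
      ∀ k : ℕ,
        (∃ f : V × W → Fin k, ∀ (i : Fin k) (p : V × W),
            f p = i ∨ ∃ q, (G.boxProd H).Adj p q ∧ f q = i) →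
        ∃ j : ℕ,
          ((∃ g : V → Fin j, ∀ (i : Fin j) (v : V), g v = i ∨ ∃ u, G.Adj v u ∧ g u = i) ∨
           (∃ h : W → Fin j, ∀ (i : Fin j) (w : W), h w = i ∨ ∃ x, H.Adj w x ∧ h x = i)) ∧
          k ≤ 2 * j + 1) := by
  intro hall
  classical
  -- the two graphs
  let V : Type := Vert (Fin 18)
  let G : SimpleGraph V := host (Fin 18)
  let X : Type := V → Fin 6
  let W : Type := Vert X
  let H : SimpleGraph W := host X
  -- closed neighbourhoods in `G`
  let N : V → Finset V := fun g => Finset.univ.filter (fun g' => g' = g ∨ G.Adj g g')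
  have hN : ∀ g, 6 ≤ (N g).card := by
    rintro (x | S)
    · have hsub : (Finset.univ : Finset (Fin 18)).image (fun y => (Sum.inl y : V)) ⊆
          N (Sum.inl x) := by
        intro v hv
        rw [Finset.mem_image] at hv
        obtain ⟨y, -, rfl⟩ := hv
        refine Finset.mem_filter.2 ⟨Finset.mem_univ _, ?_⟩
        by_cases hxy : x = y
        · left; rw [hxy]
        · right; exact host_inl_inl hxy
      have := Finset.card_le_card hsub
      rw [Finset.card_image_of_injective _ Sum.inl_injective] at this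
      simp only [Finset.card_univ, Fintype.card_fin] at this
      omega
    · have hsub : S.1.image (fun y => (Sum.inl y : V)) ⊆ N (Sum.inr S) := by
        intro v hv
        rw [Finset.mem_image] at hv
        obtain ⟨y, hy, rfl⟩ := hv
        refine Finset.mem_filter.2 ⟨Finset.mem_univ _, ?_⟩
        right; exact (host_inl_inr hy).symm
      have h1 := Finset.card_le_card hsub
      rw [Finset.card_image_of_injective _ Sum.inl_injective] at h1
      have h2 : Fintype.card (Fin 18) ≤ 3 * S.1.card := S.2
      have h3 : Fintype.card (Fin 18) = 18 := Fintype.card_fin 18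
      omega
  -- letters missing from a set of words
  let m : Finset X → V → Finset (Fin 6) := fun S g =>
    Finset.univ.filter (fun i => ∀ x ∈ S, x g ≠ i)
  have hcol : ∀ S : {S : Finset X // Fintype.card X ≤ 3 * S.card},
      ∃ c : V → Fin 6, ∀ g, ∀ i ∈ m S.1 g, ∃ g' ∈ N g, c g' = i := by
    intro S
    refine exists_colouring N hN (m S.1) ?_
    exact missing_le S.1 S.2 (m S.1) (fun g i hi => (Finset.mem_filter.1 hi).2)
  choose col hcolspec using hcol
  obtain ⟨j, hj, hk⟩ := hall V W G H (host_no_isolated (Fin 18)) (host_no_isolated X) 6 (by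
    refine ⟨fun p => match p.2 with
      | Sum.inl x => x p.1
      | Sum.inr S => col S p.1, ?_⟩
    rintro i ⟨g, x | S⟩
    · by_cases hx : x g = i
      · left; exact hx
      · right
        refine ⟨(g, Sum.inl (Function.update x g i)), ?_, ?_⟩
        · rw [SimpleGraph.boxProd_adj]
          right
          refine ⟨host_inl_inl ?_, rfl⟩
          intro hcon
          apply hx
          rw [hcon]; simp
        · simp
    · by_cases hS : ∃ x ∈ S.1, x g = i
      · obtain ⟨x, hx, hxi⟩ := hS
        right
        refine ⟨(g, Sum.inl x), ?_, hxi⟩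
        rw [SimpleGraph.boxProd_adj]
        right
        exact ⟨(host_inl_inr hx).symm, rfl⟩
      · push Not at hS
        obtain ⟨g', hg', hcg'⟩ := hcolspec S g i (Finset.mem_filter.2 ⟨Finset.mem_univ _, hS⟩)
        rcases (Finset.mem_filter.1 hg').2 with rfl | hadj
        · left; exact hcg'
        · right
          refine ⟨(g', Sum.inr S), ?_, hcg'⟩
          rw [SimpleGraph.boxProd_adj]
          left
          exact ⟨hadj, rfl⟩)
  have hj3 : 3 ≤ j := by omega
  rcases hj with ⟨g, hg⟩ | ⟨h, hh⟩
  · exact host_domatic (Fin 18) j hj3 g hg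
  · exact host_domatic X j hj3 h hh

end Pool.Agent.S09234
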