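import Pool.Statements.S09677
import Pool.Agent.MaxDeg.Core

set_option autoImplicit false
open Pool Pool.MP_7c5d5d_co

namespace Pool.Agent.S09677

open Finset Pool.Agent.MaxDeg

/-- transfer from an induced subgraph on a kept set back to the whole vertex set -/
lemma transfer {V : Type} [DecidableEq V] (G : SimpleGraph V) [DecidableRel G.Adj]
    (S0 : Finset V) (S : Finset {x // x ∈ S0}) (v : {x // x ∈ S0}) :
    (nb (G.comap (Subtype.val : {x // x ∈ S0} → V)) S v).card =
      (nb G (S.map (Function.Embedding.subtype _)) v.val).card := by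
  have h : nb G (S.map (Function.Embedding.subtype _)) v.val =
      (nb (G.comap (Subtype.val : {x // x ∈ S0} → V)) S v).map
        (Function.Embedding.subtype _) := by
    ext u
    simp only [nb, mem_filter, mem_map, Function.Embedding.coe_subtype, SimpleGraph.comap_adj]
    constructor
    · rintro ⟨⟨w, hw, rfl⟩, h2⟩
      exact ⟨w, ⟨hw, h2⟩, rfl⟩
    · rintro ⟨w, ⟨hw, h2⟩, rfl⟩
      exact ⟨⟨w, hw, rfl⟩, h2⟩
  rw [h, card_map]

lemma transfer_good {V : Type} [DecidableEq V] (G : SimpleGraph V) [DecidableRel G.Adj]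
    (S0 : Finset V) (S1 : Finset {x // x ∈ S0}) (k : ℕ)
    (h : Good (G.comap (Subtype.val : {x // x ∈ S0} → V)) k S1) :
    ∃ F : Finset V, k ≤ F.card ∧ ∀ v ∈ F, v ∈ S1.map (Function.Embedding.subtype _) ∧
      ∀ w ∈ S1.map (Function.Embedding.subtype _),
        ((S1.map (Function.Embedding.subtype _)).filter (fun u => G.Adj w u)).card ≤
        ((S1.map (Function.Embedding.subtype _)).filter (fun u => G.Adj v u)).card := by
  refine ⟨(S1.filter (fun v => ∀ w ∈ S1,
    (nb (G.comap (Subtype.val : {x // x ∈ S0} → V)) S1 w).card ≤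
    (nb (G.comap (Subtype.val : {x // x ∈ S0} → V)) S1 v).card)).map
        (Function.Embedding.subtype _), ?_, ?_⟩
  · rw [card_map]
    unfold Good at h
    convert h
  · intro x hx
    rw [mem_map] at hx
    obtain ⟨v, hv, rfl⟩ := hx
    rw [mem_filter] at hv
    refine ⟨mem_map_of_mem _ hv.1, ?_⟩
    intro w hw
    rw [mem_map] at hw
    obtain ⟨w', hw', rfl⟩ := hw
    have h4 := hv.2 w' hw'
    rw [transfer, transfer] at h4
    exact h4

/-- For every k there are C and N such that every graph on n ≥ N vertices has an induced subgraph, obtained by deleting at most C√n vertices, in which at least k vertices attain the maximum degree. -/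
theorem result :
    ∀ k : ℕ, ∃ C : ℝ, ∃ N : ℕ,
      ∀ (V : Type) [Fintype V] [DecidableEq V] (G : SimpleGraph V) [DecidableRel G.Adj],
        N ≤ Fintype.card V →
        ∃ S : Finset V,
          (((Fintype.card V - S.card : ℕ) : ℝ) ≤ C * Real.sqrt (Fintype.card V)) ∧
          k ≤ (S.filter (fun v => ∀ w ∈ S,
                (S.filter (fun u => G.Adj w u)).card ≤ (S.filter (fun u => G.Adj v u)).card)).card := by
  intro k
  by_cases hk0 : k = 0
  · subst hk0
    refine ⟨0, 0, ?_⟩
    intro V _ _ G _ _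
    exact ⟨univ, by simp, by simp⟩
  have hk : 1 ≤ k := Nat.one_le_iff_ne_zero.2 hk0
  obtain ⟨K, C, R0, hK, hC, hcore⟩ := core k hk
  have hK' : (1 : ℝ) ≤ K := by exact_mod_cast hK
  -- threshold
  obtain ⟨N, hN1, hNR, hNK⟩ : ∃ N : ℕ, 1 ≤ N ∧ (∀ n : ℕ, N ≤ n → R0 ≤ Real.sqrt n) ∧
      (∀ n : ℕ, N ≤ n → (K : ℝ) * (Real.sqrt n + 2) ≤ n) := by
    refine ⟨max (max 1 ⌈R0 ^ 2⌉₊) (9 * K ^ 2), ?_, ?_, ?_⟩
    · exact (le_max_left _ _).trans (le_max_left _ _)
    · intro n hn
      have h1 : ⌈R0 ^ 2⌉₊ ≤ n := ((le_max_right _ _).trans (le_max_left _ _)).trans hn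
      have h2 : R0 ^ 2 ≤ n := Nat.ceil_le.1 h1
      exact Real.le_sqrt_of_sq_le h2
    · intro n hn
      have h1 : 9 * K ^ 2 ≤ n := (le_max_right _ _).trans hn
      have h2 : (9 : ℝ) * K ^ 2 ≤ n := by exact_mod_cast h1
      have h3 : 3 * (K : ℝ) ≤ Real.sqrt n := by
        apply Real.le_sqrt_of_sq_le
        linarith
      have h4 : Real.sqrt n * Real.sqrt n = n := Real.mul_self_sqrt (by positivity)
      have h5 : (1 : ℝ) ≤ Real.sqrt n := by linarith
      nlinarith
  refine ⟨2 * (K + C), N, ?_⟩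
  intro V _ _ G _ hcard
  set n := Fintype.card V with hn
  have hn1 : 1 ≤ n := hN1.trans hcard
  have hn1' : (1 : ℝ) ≤ n := by exact_mod_cast hn1
  set R := ⌈Real.sqrt n⌉₊ with hR
  have hRge : Real.sqrt n ≤ R := Nat.le_ceil _
  have hRle : (R : ℝ) ≤ Real.sqrt n + 1 := (Nat.ceil_lt_add_one (Real.sqrt_nonneg _)).le
  have hRsq : (n : ℝ) ≤ (R : ℝ) ^ 2 := by
    calc (n : ℝ) = Real.sqrt n ^ 2 := (Real.sq_sqrt (by positivity)).symm
      _ ≤ (R : ℝ) ^ 2 := by
          have := Real.sqrt_nonneg (n : ℝ)
          gcongr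
  have hRsq' : n ≤ R * R := by
    have : (n : ℝ) ≤ ((R * R : ℕ) : ℝ) := by
      push_cast
      nlinarith
    exact_mod_cast this
  have hsq1 : (1 : ℝ) ≤ Real.sqrt n := by
    rw [Real.one_le_sqrt]
    exact hn1'
  obtain ⟨S0, _, hS0c, D, hD, T, hTS0, hTK, hT⟩ := prescan G K R R univ
    (by
      intro v _
      exact (nb_card_le G _ _).trans (by rw [card_univ]; exact hRsq'))
    (by
      rw [card_univ]
      have h1 := hNK n hcard
      have h2 : ((K * (R + 1) : ℕ) : ℝ) ≤ n := by
        push_cast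
        nlinarith
      exact_mod_cast h2)
  -- the induced graph
  set G' := G.comap (Subtype.val : {x // x ∈ S0} → V) with hG'
  have hmapuniv : (univ : Finset {x // x ∈ S0}).map (Function.Embedding.subtype _) = S0 := by
    ext u
    simp
  set T' : Finset {x // x ∈ S0} := T.subtype (fun x => x ∈ S0) with hT'
  have hT'card : T'.card = K := by
    rw [hT', card_subtype, filter_true_of_mem (fun x hx => hTS0 hx), hTK]
  obtain ⟨S1, hS1c, hS1g⟩ := hcore G' D (R : ℝ) ((hNR n hcard).trans hRge)
    (by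
      rw [Fintype.card_coe]
      have h1 : S0.card ≤ n := card_le_univ _
      have h2 : (S0.card : ℝ) ≤ n := by exact_mod_cast h1
      linarith)
    (by
      intro v
      rw [transfer, hmapuniv]
      exact hD v.val v.2)
    T' hT'card
    (by
      intro v hv
      rw [transfer, hmapuniv]
      rw [hT', mem_subtype] at hv
      exact_mod_cast hT v.val hv)
  set S := S1.map (Function.Embedding.subtype _) with hS
  refine ⟨S, ?_, ?_⟩
  · have h1 : n - S.card = (univ \ S).card := by
      rw [card_univ_sdiff]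
    have h2 : (univ \ S).card ≤ (univ \ S0).card + (univ \ S1).card := by
      have h3 : univ \ S ⊆ (univ \ S0) ∪ (univ \ S1).map (Function.Embedding.subtype _) := by
        intro w hw
        rw [mem_union, mem_sdiff]
        by_cases hw0 : w ∈ S0
        · right
          rw [mem_map]
          refine ⟨⟨w, hw0⟩, ?_, rfl⟩
          rw [mem_sdiff]
          refine ⟨mem_univ _, fun h => ?_⟩
          apply (mem_sdiff.1 hw).2
          rw [hS, mem_map]
          exact ⟨⟨w, hw0⟩, h, rfl⟩
        · exact Or.inl ⟨mem_univ _, hw0⟩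
      calc (univ \ S).card ≤ _ := card_le_card h3
        _ ≤ (univ \ S0).card + ((univ \ S1).map (Function.Embedding.subtype _)).card :=
          card_union_le _ _
        _ = _ := by rw [card_map]
    have h4 : (((univ \ S).card : ℕ) : ℝ) ≤ K * R + C * R := by
      have h5 : (((univ \ S).card : ℕ) : ℝ) ≤ ((univ \ S0).card : ℝ) + ((univ \ S1).card : ℝ) := by
        exact_mod_cast h2
      have h6 : ((univ \ S0).card : ℝ) ≤ K * R := by exact_mod_cast hS0c
      linarith
    rw [h1]
    calc (((univ \ S).card : ℕ) : ℝ) ≤ K * R + C * R := h4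
      _ = (K + C) * R := by ring
      _ ≤ (K + C) * (2 * Real.sqrt n) := by
          apply mul_le_mul_of_nonneg_left _ (by linarith)
          linarith
      _ = 2 * (K + C) * Real.sqrt n := by ring
  · obtain ⟨F, hF1, hF2⟩ := transfer_good G S0 S1 k hS1g
    refine le_trans hF1 (card_le_card ?_)
    intro v hv
    rw [mem_filter]
    exact hF2 v hv

end Pool.Agent.S09677
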