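import Pool.Statements.S10715
import Pool.Agent.CubLBC.PolyC
import Pool.Agent.CubLBC.FaceC
import Pool.Agent.CubLBC.CFinal

set_option autoImplicit false
open Pool Pool.MP_ab51a6_co

namespace Pool.Agent.S10715

/-- For every full-dimensional d-polytope (d at least 2) with n vertices whose facets are all combinatorial (d-1)-cubes, the number of k-faces is at least [C(d,k)+C(d-1,k-1)]n/2^k - C(d-1,k-1)2^(d-k) for 1≤k≤d-2, and the number of facets is at least (2d-2)n/2^(d-1) - (2d-4). -/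
theorem result :
  ∀ (d : ℕ), 2 ≤ d → ∀ (V : Finset (EuclideanSpace ℝ (Fin d))),
    affineSpan ℝ (V : Set (EuclideanSpace ℝ (Fin d))) = ⊤ →
    Set.extremePoints ℝ (convexHull ℝ (V : Set (EuclideanSpace ℝ (Fin d)))) = (V : Set (EuclideanSpace ℝ (Fin d))) →
    (∀ F : Set (EuclideanSpace ℝ (Fin d)), F.Nonempty →
       IsExposed ℝ (convexHull ℝ (V : Set (EuclideanSpace ℝ (Fin d)))) F →
       Module.finrank ℝ (affineSpan ℝ F).direction = d - 1 →
       ∃ e : EuclideanSpace ℝ (Fin d) → (Fin (d - 1) → Bool),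
         Set.BijOn e ((V : Set (EuclideanSpace ℝ (Fin d))) ∩ F) Set.univ ∧
         (∀ G : Set (EuclideanSpace ℝ (Fin d)), G.Nonempty →
            IsExposed ℝ (convexHull ℝ (V : Set (EuclideanSpace ℝ (Fin d)))) G → G ⊆ F →
            ∃ S : Finset (Fin (d - 1)), ∃ c : Fin (d - 1) → Bool,
              e '' ((V : Set (EuclideanSpace ℝ (Fin d))) ∩ G) = {x | ∀ i ∈ S, x i = c i}) ∧
         (∀ S : Finset (Fin (d - 1)), ∀ c : Fin (d - 1) → Bool,
            ∃ G : Set (EuclideanSpace ℝ (Fin d)), G.Nonempty ∧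
              IsExposed ℝ (convexHull ℝ (V : Set (EuclideanSpace ℝ (Fin d)))) G ∧ G ⊆ F ∧
              e '' ((V : Set (EuclideanSpace ℝ (Fin d))) ∩ G) = {x | ∀ i ∈ S, x i = c i})) →
    (∀ k : ℕ, 1 ≤ k → k ≤ d - 2 →
       ((Nat.choose d k : ℝ) + (Nat.choose (d - 1) (k - 1) : ℝ)) / 2 ^ k * (V.card : ℝ)
           - (Nat.choose (d - 1) (k - 1) : ℝ) * 2 ^ (d - k)
         ≤ ((Set.ncard {F : Set (EuclideanSpace ℝ (Fin d)) | F.Nonempty ∧
               IsExposed ℝ (convexHull ℝ (V : Set (EuclideanSpace ℝ (Fin d)))) F ∧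
               Module.finrank ℝ (affineSpan ℝ F).direction = k} : ℕ) : ℝ)) ∧
    ((2 * (d : ℝ) - 2) / 2 ^ (d - 1) * (V.card : ℝ) - (2 * (d : ℝ) - 4)
      ≤ ((Set.ncard {F : Set (EuclideanSpace ℝ (Fin d)) | F.Nonempty ∧
             IsExposed ℝ (convexHull ℝ (V : Set (EuclideanSpace ℝ (Fin d)))) F ∧
             Module.finrank ℝ (affineSpan ℝ F).direction = d - 1} : ℕ) : ℝ)) := by
  intro d hd V hspan hext hcub
  obtain ⟨n, rfl⟩ : ∃ n, d = n + 1 := ⟨d - 1, by omega⟩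
  have hn : 1 ≤ n := by omega
  obtain ⟨ι, ⟨i0⟩, D, hD⟩ := Pool.Agent.CubLBC.exists_faceData n hn V hspan hext hcub
  have hne : (D.cx hn).F.Nonempty := by
    obtain ⟨c, hc⟩ := D.lab i0
    exact ⟨c, i0, hc⟩
  have hcard : (Fintype.card V : ℝ) = (V.card : ℝ) := by rw [Fintype.card_coe]
  have key : ∀ k : ℕ, 1 ≤ k → k ≤ n → (((D.cx hn).frames k).card : ℝ) ≤
      2 ^ k * (k.factorial : ℝ) * ((Set.ncard {F : Set (EuclideanSpace ℝ (Fin (n + 1))) | F.Nonempty ∧
             IsExposed ℝ (convexHull ℝ (V : Set (EuclideanSpace ℝ (Fin (n + 1))))) F ∧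
             Module.finrank ℝ (affineSpan ℝ F).direction = k} : ℕ) : ℝ) := by
    intro k hk1 hkn
    have h1 := D.frames_le hn k hkn
    have h2 := hD k hk1 hkn
    have h3 := h1.trans (Nat.mul_le_mul_left _ h2)
    exact_mod_cast h3
  constructor
  · intro k hk1 hk2
    have hn2 : 2 ≤ n := by omega
    have hkn : k + 1 ≤ n := by omega
    have h1 := Pool.Agent.CubLBC.cub_faces hn2 (D.cx hn) (D.cx_isVert hn) (D.cx_sim hn) hne k hk1 hkn
    have h2 := h1.trans (key k hk1 (by omega))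
    rw [hcard] at h2
    have hfac : (0 : ℝ) < (k.factorial : ℝ) := by exact_mod_cast k.factorial_pos
    have h2k : (0 : ℝ) < 2 ^ k := by positivity
    have hpow : (2 : ℝ) ^ (n + 1) = 2 ^ k * 2 ^ (n + 1 - k) := by
      rw [← pow_add]
      congr 1
      omega
    rw [hpow] at h2
    have e1 : n + 1 - 1 = n := rfl
    rw [e1]
    set N := ((Set.ncard {F : Set (EuclideanSpace ℝ (Fin (n + 1))) | F.Nonempty ∧
             IsExposed ℝ (convexHull ℝ (V : Set (EuclideanSpace ℝ (Fin (n + 1))))) F ∧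
             Module.finrank ℝ (affineSpan ℝ F).direction = k} : ℕ) : ℝ) with hN
    have h3 : ((Nat.choose (n + 1) k : ℝ) + (Nat.choose n (k - 1) : ℝ)) * (V.card : ℝ)
        - (Nat.choose n (k - 1) : ℝ) * (2 ^ k * 2 ^ (n + 1 - k)) ≤ 2 ^ k * N := by
      have h4 : (k.factorial : ℝ) * (((Nat.choose (n + 1) k : ℝ) + (Nat.choose n (k - 1) : ℝ)) *
          (V.card : ℝ) - (Nat.choose n (k - 1) : ℝ) * (2 ^ k * 2 ^ (n + 1 - k))) ≤
          (k.factorial : ℝ) * (2 ^ k * N) := by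
        calc _ ≤ _ := h2
          _ = _ := by ring
      exact le_of_mul_le_mul_left h4 hfac
    have h5 : ((Nat.choose (n + 1) k : ℝ) + (Nat.choose n (k - 1) : ℝ)) / 2 ^ k * (V.card : ℝ)
        - (Nat.choose n (k - 1) : ℝ) * 2 ^ (n + 1 - k) =
        (((Nat.choose (n + 1) k : ℝ) + (Nat.choose n (k - 1) : ℝ)) * (V.card : ℝ)
        - (Nat.choose n (k - 1) : ℝ) * (2 ^ k * 2 ^ (n + 1 - k))) / 2 ^ k := by
      field_simp
    rw [h5, div_le_iff₀ h2k]
    linarith
  · have h1 := Pool.Agent.CubLBC.cub_facets hn (D.cx hn) (D.cx_isVert hn) (D.cx_sim hn) hne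
    have h2 := h1.trans (key n hn le_rfl)
    rw [hcard] at h2
    have hfac : (0 : ℝ) < (n.factorial : ℝ) := by exact_mod_cast n.factorial_pos
    have h2k : (0 : ℝ) < 2 ^ n := by positivity
    have e1 : n + 1 - 1 = n := rfl
    rw [e1]
    set N := ((Set.ncard {F : Set (EuclideanSpace ℝ (Fin (n + 1))) | F.Nonempty ∧
             IsExposed ℝ (convexHull ℝ (V : Set (EuclideanSpace ℝ (Fin (n + 1))))) F ∧
             Module.finrank ℝ (affineSpan ℝ F).direction = n} : ℕ) : ℝ) with hN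
    have h3 : 2 * (n : ℝ) * (V.card : ℝ) - ((n : ℝ) - 1) * 2 ^ (n + 1) ≤ 2 ^ n * N := by
      have h4 : (n.factorial : ℝ) * (2 * (n : ℝ) * (V.card : ℝ) - ((n : ℝ) - 1) * 2 ^ (n + 1)) ≤
          (n.factorial : ℝ) * (2 ^ n * N) := by
        calc _ ≤ _ := h2
          _ = _ := by ring
      exact le_of_mul_le_mul_left h4 hfac
    push_cast
    have h5 : (2 * ((n : ℝ) + 1) - 2) / 2 ^ n * (V.card : ℝ) - (2 * ((n : ℝ) + 1) - 4) =
        (2 * (n : ℝ) * (V.card : ℝ) - ((n : ℝ) - 1) * 2 ^ (n + 1)) / 2 ^ n := by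
      rw [pow_succ]
      field_simp
      ring
    rw [h5, div_le_iff₀ h2k]
    linarith

end Pool.Agent.S10715
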