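import Pool.Statements.S11071
import Pool.Agent.CW4.Glue
import Pool.Agent.CW4.Cases

set_option autoImplicit false
open Pool Pool.MP_ba7b31_co

namespace Pool.Agent.S11071

/-- Every compact convex body of constant width in 4-dimensional Euclidean space can be illuminated by at most 8 directions: each boundary point enters the interior when moved slightly along one of them. -/
theorem result :
    ∀ K : Set (EuclideanSpace ℝ (Fin 4)),
      IsCompact K → Convex ℝ K → (interior K).Nonempty →
      (∃ w : ℝ, ∀ u : EuclideanSpace ℝ (Fin 4), ‖u‖ = 1 →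
        IsLUB {s : ℝ | ∃ x ∈ K, ∃ y ∈ K, s = inner ℝ u (x - y)} w) →
      ∃ D : Finset (EuclideanSpace ℝ (Fin 4)), D.card ≤ 8 ∧
        ∀ x ∈ frontier K, ∃ d ∈ D, ∃ t : ℝ, 0 < t ∧ x + t • d ∈ interior K := by
  intro K hc hconv hint hw
  exact CW4.illuminated CW4.h1 CW4.h2 CW4.h3 CW4.h4 CW4.h5 CW4.h6 CW4.h7 CW4.h8 K hc hconv hint hw

end Pool.Agent.S11071
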