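import Pool.Statements.S11429
import Pool.Agent.CycShift.Final

set_option autoImplicit false
open Pool Pool.MP_ca7d6d_co

namespace Pool.Agent.S11429

/-- For each N>6 there is C such that any set of permutations of n points, where every N positions contain 5 or 6 positions at which no member shows any rotation of 13524, 14253, 123654 or 145632, has at most C^n members. -/
theorem result :
  ∀ N : ℕ, 6 < N → ∃ C : ℝ, ∀ n : ℕ, ∀ P : Finset (Equiv.Perm (Fin n)),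
    (∀ X : Finset (Fin n), X.card = N →
      ((∃ f : Fin 5 → Fin n, StrictMono f ∧ (∀ i, f i ∈ X) ∧
          ∀ π ∈ P, ∀ r : Fin 5, ¬ ∀ i j : Fin 5,
            (π (f i) < π (f j) ↔
              (![1, 3, 5, 2, 4] : Fin 5 → ℕ) (i + r) < (![1, 3, 5, 2, 4] : Fin 5 → ℕ) (j + r))) ∨
       (∃ f : Fin 5 → Fin n, StrictMono f ∧ (∀ i, f i ∈ X) ∧
          ∀ π ∈ P, ∀ r : Fin 5, ¬ ∀ i j : Fin 5,
            (π (f i) < π (f j) ↔
              (![1, 4, 2, 5, 3] : Fin 5 → ℕ) (i + r) < (![1, 4, 2, 5, 3] : Fin 5 → ℕ) (j + r))) ∨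
       (∃ f : Fin 6 → Fin n, StrictMono f ∧ (∀ i, f i ∈ X) ∧
          ∀ π ∈ P, ∀ r : Fin 6, ¬ ∀ i j : Fin 6,
            (π (f i) < π (f j) ↔
              (![1, 2, 3, 6, 5, 4] : Fin 6 → ℕ) (i + r) < (![1, 2, 3, 6, 5, 4] : Fin 6 → ℕ) (j + r))) ∨
       (∃ f : Fin 6 → Fin n, StrictMono f ∧ (∀ i, f i ∈ X) ∧
          ∀ π ∈ P, ∀ r : Fin 6, ¬ ∀ i j : Fin 6,
            (π (f i) < π (f j) ↔
              (![1, 4, 5, 6, 3, 2] : Fin 6 → ℕ) (i + r) < (![1, 4, 5, 6, 3, 2] : Fin 6 → ℕ) (j + r))))) →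
    (P.card : ℝ) ≤ C ^ n := by
  intro N _
  obtain ⟨k, hk⟩ : ∃ k, k + 1 = 2 ^ (N + N) := ⟨2 ^ (N + N) - 1, by
    have : 0 < 2 ^ (N + N) := by positivity
    omega⟩
  set K := 8 * Pool.Agent.CycShift.cc k * 2 ^ (8 * Pool.Agent.CycShift.cc k) *
    (2 * (8 * Pool.Agent.CycShift.cc k)) ^ (8 * Pool.Agent.CycShift.cc k) with hK
  refine ⟨((K ^ 2 : ℕ) : ℝ), ?_⟩
  intro n P hP
  have hno : ¬ Pool.Agent.CycShift.Shape (Pool.Agent.CycShift.vals P) (k + 1) := by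
    rintro ⟨x, hx, hsh⟩
    have hinj : Set.InjOn x (Finset.range (k + 1)) := by
      intro a ha b hb hab
      rw [Finset.mem_coe, Finset.mem_range] at ha hb
      rcases lt_trichotomy a b with h | h | h
      · exact absurd hab (hx a b h hb)
      · exact h
      · exact absurd hab.symm (hx b a h ha)
    rcases Pool.Agent.CycShift.mono_sub x (N + N) N N rfl (Finset.range (k + 1)) hinj
      (by rw [Finset.card_range, hk]) with ⟨U, hU, hUc, hUm⟩ | ⟨U, hU, hUc, hUm⟩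
    · have hXc : (U.image x).card = N := by
        rw [Finset.card_image_of_injOn (hinj.mono (Finset.coe_subset.2 hU)), hUc]
      rcases hP (U.image x) hXc with ⟨f, hf, hfX, h⟩ | ⟨f, hf, hfX, h⟩ | ⟨f, hf, hfX, h⟩ |
        ⟨f, hf, hfX, h⟩
      · obtain ⟨π, hπ, hh⟩ := Pool.Agent.CycShift.hit_inc hsh hU hUm hf hfX
          (fun i => (![1, 3, 5, 2, 4] : Fin 5 → ℕ) (i + 4)) (by decide) ![1, 0, 1, 2, 0] (by decide)
        exact h π hπ 4 hh
      · obtain ⟨π, hπ, hh⟩ := Pool.Agent.CycShift.hit_inc hsh hU hUm hf hfX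
          (fun i => (![1, 4, 2, 5, 3] : Fin 5 → ℕ) (i + 0)) (by decide) ![0, 1, 0, 2, 0] (by decide)
        exact h π hπ 0 hh
      · obtain ⟨π, hπ, hh⟩ := Pool.Agent.CycShift.hit_inc hsh hU hUm hf hfX
          (fun i => (![1, 2, 3, 6, 5, 4] : Fin 6 → ℕ) (i + 0)) (by decide)
          ![0, 0, 0, 1, 1, 0] (by decide)
        exact h π hπ 0 hh
      · obtain ⟨π, hπ, hh⟩ := Pool.Agent.CycShift.hit_inc hsh hU hUm hf hfX
          (fun i => (![1, 4, 5, 6, 3, 2] : Fin 6 → ℕ) (i + 0)) (by decide)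
          ![0, 1, 2, 2, 1, 0] (by decide)
        exact h π hπ 0 hh
    · have hXc : (U.image x).card = N := by
        rw [Finset.card_image_of_injOn (hinj.mono (Finset.coe_subset.2 hU)), hUc]
      rcases hP (U.image x) hXc with ⟨f, hf, hfX, h⟩ | ⟨f, hf, hfX, h⟩ | ⟨f, hf, hfX, h⟩ |
        ⟨f, hf, hfX, h⟩
      · obtain ⟨π, hπ, hh⟩ := Pool.Agent.CycShift.hit_dec hsh hU hUm hf hfX
          (fun i => (![1, 3, 5, 2, 4] : Fin 5 → ℕ) (i + 1)) (by decide) ![0, 2, 0, 1, 0] (by decide)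
        exact h π hπ 1 hh
      · obtain ⟨π, hπ, hh⟩ := Pool.Agent.CycShift.hit_dec hsh hU hUm hf hfX
          (fun i => (![1, 4, 2, 5, 3] : Fin 5 → ℕ) (i + 2)) (by decide) ![0, 2, 1, 0, 1] (by decide)
        exact h π hπ 2 hh
      · obtain ⟨π, hπ, hh⟩ := Pool.Agent.CycShift.hit_dec hsh hU hUm hf hfX
          (fun i => (![1, 2, 3, 6, 5, 4] : Fin 6 → ℕ) (i + 0)) (by decide)
          ![0, 1, 1, 2, 2, 1] (by decide)
        exact h π hπ 0 hh
      · obtain ⟨π, hπ, hh⟩ := Pool.Agent.CycShift.hit_dec hsh hU hUm hf hfX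
          (fun i => (![1, 4, 5, 6, 3, 2] : Fin 6 → ℕ) (i + 1)) (by decide)
          ![0, 1, 1, 0, 0, 0] (by decide)
        exact h π hπ 1 hh
  have h1 := Pool.Agent.CycShift.Ords_bound Pool.Agent.CycShift.vals_inj k hno n Finset.univ
    (by rw [Finset.card_univ, Fintype.card_fin])
  have h2 := Pool.Agent.CycShift.card_perm_le P
  rw [← hK] at h1
  calc (P.card : ℝ) ≤ ((K ^ (2 * n) : ℕ) : ℝ) := by exact_mod_cast h2.trans h1
    _ = ((K ^ 2 : ℕ) : ℝ) ^ n := by rw [pow_mul]; push_cast; rfl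

end Pool.Agent.S11429
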