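import Pool.Statements.S12147
import Pool.Agent.Wills.PureLarge
import Pool.Agent.Wills.PosLim
import Pool.Agent.Wills.PosHull

set_option autoImplicit false
open scoped Pointwise
open Pool Pool.MP_e807fe_co

namespace Pool.Agent.S12147

/-- For every nonempty compact convex K in ℝ^d with intrinsic volumes V_i (given by the Steiner formula), the number of integer points in K is at most the sum over i of κ_i κ_{d−i}/κ_d · V_i(K), where κ_j is the unit j-ball volume. -/
theorem result :
    ∀ d : ℕ, ∀ K : Set (EuclideanSpace ℝ (Fin d)),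
      IsCompact K → Convex ℝ K → K.Nonempty →
      ∀ V : ℕ → ℝ,
        (∀ t : ℝ, 0 ≤ t →
          (MeasureTheory.volume (K + Metric.closedBall (0 : EuclideanSpace ℝ (Fin d)) t)).toReal
            = ∑ i ∈ Finset.range (d + 1),
                (Real.pi ^ (((d - i : ℕ) : ℝ) / 2) / Real.Gamma (((d - i : ℕ) : ℝ) / 2 + 1))
                  * V i * t ^ (d - i)) →
        ((Set.ncard {z : Fin d → ℤ | WithLp.toLp 2 (fun j => (z j : ℝ)) ∈ K} : ℕ) : ℝ)
          ≤ ∑ i ∈ Finset.range (d + 1),
              (Real.pi ^ ((i : ℝ) / 2) / Real.Gamma ((i : ℝ) / 2 + 1))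
                * (Real.pi ^ (((d - i : ℕ) : ℝ) / 2) / Real.Gamma (((d - i : ℕ) : ℝ) / 2 + 1))
                / (Real.pi ^ ((d : ℝ) / 2) / Real.Gamma ((d : ℝ) / 2 + 1))
                * V i := by
  intro d K hK hc hne V hV
  exact Pool.Agent.Wills.wills_of_pure d (Pool.Agent.Wills.pureIneq_all d)
    (Pool.Agent.Wills.steinerNonneg_of_hull (fun A hA => Pool.Agent.Wills.hull_poly A hA))
    hK hc hne hV

end Pool.Agent.S12147
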