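import Pool.Statements.S13154
import Pool.Agent.GulkoSum.Closures
import Pool.Agent.GulkoSum.Negative

set_option autoImplicit false
open Pool Pool.MP_4f6a4e_gt

namespace Pool.Agent.S13154

/-- The negation of the preceding statement: For every compact Hausdorff X: if the closure of each subset of size at most continuum has C_p Lindelöf Σ (a compact cover with a countable network modulo it), then C_p(X) is Lindelöf Σ, i.e. X is Gul'ko compact. -/
theorem result :
    ¬ (∀ (X : Type) [TopologicalSpace X] [CompactSpace X] [T2Space X],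
      (∀ A : Set X, Cardinal.mk ↥A ≤ Cardinal.continuum →
        ∃ (𝒞 𝒩 : Set (Set C(↥(closure A), ℝ))), 𝒩.Countable ∧ ⋃₀ 𝒞 = Set.univ ∧
          ∀ C ∈ 𝒞,
            @IsCompact _ (TopologicalSpace.induced
              (fun f : C(↥(closure A), ℝ) => (⇑f : ↥(closure A) → ℝ)) inferInstance) C ∧
            ∀ U : Set C(↥(closure A), ℝ),
              @IsOpen _ (TopologicalSpace.induced
                (fun f : C(↥(closure A), ℝ) => (⇑f : ↥(closure A) → ℝ)) inferInstance) U →
              C ⊆ U → ∃ N ∈ 𝒩, C ⊆ N ∧ N ⊆ U) →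
      ∃ (𝒞 𝒩 : Set (Set C(X, ℝ))), 𝒩.Countable ∧ ⋃₀ 𝒞 = Set.univ ∧
        ∀ C ∈ 𝒞,
          @IsCompact _ (TopologicalSpace.induced
            (fun f : C(X, ℝ) => (⇑f : X → ℝ)) inferInstance) C ∧
          ∀ U : Set C(X, ℝ),
            @IsOpen _ (TopologicalSpace.induced
              (fun f : C(X, ℝ) => (⇑f : X → ℝ)) inferInstance) U →
            C ⊆ U → ∃ N ∈ 𝒩, C ⊆ N ∧ N ⊆ U) := by
  intro H
  exact GulkoSum.not_network (H GulkoSum.XX fun A hA => GulkoSum.closure_network A hA)

end Pool.Agent.S13154
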