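import Pool.Statements.S13295
import Pool.Agent.Ward.Subarc
import Pool.Agent.Ward.FixedPointFree

set_option autoImplicit false
open TopologicalSpace
open Pool Pool.MP_65cb57_gt

namespace Pool.Agent.S13295

/-- Every arcwise connected metric continuum on which every Hausdorff-continuous map to nonempty closed subsets has a fixed point x ∈ F(x) is hereditarily unicoherent: any two subcontinua have connected (possibly empty) intersection. -/
theorem result :
    ∀ (X : Type) [MetricSpace X] [CompactSpace X] [ConnectedSpace X],
      (∀ x y : X, x ≠ y → ∃ γ : Path x y, Function.Injective γ) →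
      (∀ F : X → NonemptyCompacts X, Continuous F → ∃ x : X, x ∈ F x) →
      ∀ A B : Set X, IsClosed A → IsConnected A → IsClosed B → IsConnected B →
        IsPreconnected (A ∩ B) := by
  intro X _ _ _ harc hfix A B hAc hAp hBc hBp
  by_contra hAB
  -- it suffices to find a continuum `K` and an arc that meets `K` exactly in its endpoints
  have key : ∀ (K : Set X), IsClosed K → IsPreconnected K → ∀ (p q : X) (γ : Path p q),
      Function.Injective γ → p ∈ K → q ∈ K → ∀ u, γ u ∉ K → False := by
    intro K hKc hKp p q γ hγ hp hq u hu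
    obtain ⟨a, b, α, hα, ha, hb, hK⟩ := Pool.Agent.Ward.exists_subarc K hKc γ hγ hp hq u hu
    obtain ⟨F, hF, hF'⟩ := Pool.Agent.Ward.exists_fixedPointFree K hKc hKp α hα ha hb hK
    obtain ⟨x, hx⟩ := hfix F hF
    exact hF' x hx
  apply hAB
  apply isPreconnected_of_forall_pair
  intro p hp q hq
  by_cases hpq : p = q
  · subst hpq
    exact ⟨{p}, by simpa using hp, by simp, by simp, isPreconnected_singleton⟩
  obtain ⟨γ, hγ⟩ := harc p q hpq
  refine ⟨Set.range γ, ?_, ⟨0, γ.source⟩, ⟨1, γ.target⟩, isPreconnected_range γ.continuous⟩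
  rintro _ ⟨u, rfl⟩
  constructor
  · by_contra hu
    exact key A hAc hAp.isPreconnected p q γ hγ hp.1 hq.1 u hu
  · by_contra hu
    exact key B hBc hBp.isPreconnected p q γ hγ hp.2 hq.2 u hu

end Pool.Agent.S13295
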