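import Pool.Statements.S13611
import Pool.Agent.ZonoLin.Round2
import Pool.Agent.ZonoLin.Final

set_option autoImplicit false
open Pool Pool.MP_971d29_gt

namespace Pool.Agent.S13611

/-- There is a constant C>0 such that for all d≤m, every real m×d matrix A and 0<ε≤1/2, some matrix B with at most C·d/ε² rows satisfies ‖Bx‖₁ ≤ ‖Ax‖₁ ≤ (1+ε)‖Bx‖₁ for all x in ℝ^d. -/
theorem result :
    ∃ C : ℝ, 0 < C ∧
      ∀ (d m : ℕ), d ≤ m →
        ∀ A : Matrix (Fin m) (Fin d) ℝ,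
          ∀ ε : ℝ, 0 < ε → ε ≤ 1 / 2 →
            ∃ n : ℕ, (n : ℝ) ≤ C * (d : ℝ) / ε ^ 2 ∧
              ∃ B : Matrix (Fin n) (Fin d) ℝ,
                ∀ x : Fin d → ℝ,
                  (∑ i, |(Matrix.mulVec B x) i|) ≤ ∑ i, |(Matrix.mulVec A x) i| ∧
                  (∑ i, |(Matrix.mulVec A x) i|) ≤ (1 + ε) * ∑ i, |(Matrix.mulVec B x) i| := by
  exact ZonoLin.final_of_round (fun _ hd m a hm => ZonoLin.round_general hd m a hm)

end Pool.Agent.S13611
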