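import Pool.Statements.S14028
import Pool.Agent.CpCube.Support

set_option autoImplicit false
open Pool Pool.MP_d6b4bb_gt

namespace Pool.Agent.S14028

open TopologicalSpace Pool.Agent.CpCube

/-- the indicator function of a clopen set, as a point of `C_p(X)` -/
noncomputable def ind {X : Type} [TopologicalSpace X] (C : Clopens X) :
    {g : X → ℝ // Continuous g} :=
  ⟨Set.indicator (C : Set X) (fun _ => 1), by
    exact (IsClopen.continuous_indicator C.isClopen continuous_const)⟩

lemma ind_eq_of_iff {X : Type} [TopologicalSpace X] (C C' : Clopens X) (x : X)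
    (h : x ∈ C' ↔ x ∈ C) : (ind C').1 x = (ind C).1 x := by
  show Set.indicator (C' : Set X) (fun _ => (1 : ℝ)) x = Set.indicator (C : Set X) (fun _ => 1) x
  by_cases hx : x ∈ C
  · have hx' : x ∈ C' := h.2 hx
    rw [Set.indicator_of_mem (show x ∈ (C' : Set X) from hx'),
      Set.indicator_of_mem (show x ∈ (C : Set X) from hx)]
  · have hx' : x ∉ C' := fun h' => hx (h.1 h')
    rw [Set.indicator_of_notMem (show x ∉ (C' : Set X) from hx'),
      Set.indicator_of_notMem (show x ∉ (C : Set X) from hx)]

/-- continuity gives hitting tuples -/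
lemma exists_hit {X Y : Type} [TopologicalSpace X] [TopologicalSpace Y]
    (f : {g : X → ℝ // Continuous g} → {g : Y → ℝ // Continuous g}) (hf : Continuous f)
    (C : Clopens X) (ε : ℝ) (hε : 0 < ε) (y : Y) :
    ∃ n, ∃ E : Fin n → X, Hit (fun C y => (f (ind C)).1 y) C ε y E := by
  have hc : Continuous fun g : {g : X → ℝ // Continuous g} => (f g).1 y :=
    (continuous_apply y).comp (continuous_subtype_val.comp hf)
  have ho : IsOpen {g : {g : X → ℝ // Continuous g} | |(f g).1 y - (f (ind C)).1 y| < ε} :=
    isOpen_lt ((hc.sub continuous_const).abs) continuous_const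
  obtain ⟨O, hO, hOeq⟩ := isOpen_induced_iff.1 ho
  have hmem : (ind C).1 ∈ O := by
    have : ind C ∈ Subtype.val ⁻¹' O := by
      rw [hOeq]
      simpa using hε
    exact this
  obtain ⟨I, u, hu, hsub⟩ := isOpen_pi_iff.1 hO _ hmem
  refine ⟨I.card, fun i => (I.equivFin.symm i).1, fun C' hC' => ?_⟩
  have h1 : (ind C').1 ∈ O := by
    apply hsub
    intro x hx
    have h2 := hC' (I.equivFin ⟨x, hx⟩)
    simp only [Equiv.symm_apply_apply] at h2
    rw [ind_eq_of_iff C C' x h2]
    exact (hu x hx).2
  have h3 : ind C' ∈ Subtype.val ⁻¹' O := h1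
  rw [hOeq] at h3
  exact le_of_lt h3

/-- The negation of the preceding statement: For an index set of size aleph-one, the continuous real functions on the Cantor cube {0,1}^ω₁ (pointwise topology) embed topologically into the continuous real functions on the Tychonoff cube [0,1]^ω₁ (pointwise topology). -/
theorem result :
    ¬ (∀ ι : Type, Cardinal.mk ι = Cardinal.aleph 1 →
      ∃ f : {g : (ι → Bool) → ℝ // Continuous g} →
            {g : (ι → unitInterval) → ℝ // Continuous g},
        Topology.IsEmbedding f) := by
  classical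
  intro hall
  obtain ⟨f, hf⟩ := hall (Cardinal.aleph 1).out (Cardinal.mk_out _)
  have hι : ¬ Countable (Cardinal.aleph 1).out := by
    rw [← Cardinal.mk_le_aleph0_iff, Cardinal.mk_out, not_le]
    exact Cardinal.aleph0_lt_aleph_one
  revert f
  generalize (Cardinal.aleph 1).out = ι at *
  intro f hf
  -- all values on clopen sets depend on countably many coordinates
  obtain ⟨A, hA, hdep⟩ := exists_countable_support
    (fun (C : Clopens (ι → Bool)) (y : ι → unitInterval) => (f (ind C)).1 y)
    (fun C => (f (ind C)).2) (fun C ε hε y => exists_hit f hf.continuous C ε hε y)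
  -- the coordinate clopen sets
  let π : ι → Clopens (ι → Bool) := fun a =>
    ⟨{x | x a = true}, (isClopen_discrete {true}).preimage (continuous_apply a)⟩
  -- points separating them
  let e : ι → (ι → Bool) := fun a i => decide (i = a)
  have hval : ∀ a b, (1 / 2 < (ind (π b)).1 (e a)) ↔ b = a := by
    intro a b
    show 1 / 2 < Set.indicator ((π b : Clopens (ι → Bool)) : Set (ι → Bool)) (fun _ => (1 : ℝ)) (e a)
      ↔ b = a
    by_cases hab : b = a
    · have h1 : e a ∈ ((π b : Clopens (ι → Bool)) : Set (ι → Bool)) := by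
        show e a b = true
        simp [e, hab]
      rw [Set.indicator_of_mem h1]
      exact ⟨fun _ => hab, fun _ => by norm_num⟩
    · have h1 : e a ∉ ((π b : Clopens (ι → Bool)) : Set (ι → Bool)) := by
        show ¬ (e a b = true)
        simp [e, hab]
      rw [Set.indicator_of_notMem h1]
      exact ⟨fun h => absurd h (by norm_num), fun h => absurd h hab⟩
  have hW : ∀ a, ∃ W : Set {g : (ι → unitInterval) → ℝ // Continuous g}, IsOpen W ∧
      ∀ b, f (ind (π b)) ∈ W ↔ b = a := by
    intro a
    have ho : IsOpen {g : {g : (ι → Bool) → ℝ // Continuous g} | 1 / 2 < g.1 (e a)} :=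
      isOpen_lt continuous_const ((continuous_apply (e a)).comp continuous_subtype_val)
    obtain ⟨W, hW, hWeq⟩ := hf.isInducing.isOpen_iff.1 ho
    refine ⟨W, hW, fun b => ?_⟩
    rw [← hval a b]
    have : ind (π b) ∈ f ⁻¹' W ↔ ind (π b) ∈
        {g : {g : (ι → Bool) → ℝ // Continuous g} | 1 / 2 < g.1 (e a)} := by rw [hWeq]
    exact this
  choose W hWo hWmem using hW
  -- pull back to the second countable space `C(I^A, ℝ)`
  have : Countable A := hA
  let Θ : C(A → unitInterval, ℝ) → {g : (ι → unitInterval) → ℝ // Continuous g} := fun h =>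
    ⟨fun y => h (fun a => y a.1), h.continuous.comp
      (continuous_pi fun a => continuous_apply a.1)⟩
  have hΘ : Continuous Θ := by
    apply Continuous.subtype_mk
    apply continuous_pi
    intro y
    exact ContinuousEvalConst.continuous_eval_const (fun a : A => y a.1)
  let ext : (A → unitInterval) → (ι → unitInterval) := fun z i =>
    if h : i ∈ A then z ⟨i, h⟩ else 0
  have hext : Continuous ext := by
    apply continuous_pi
    intro i
    by_cases h : i ∈ A
    · simp only [ext, h, dif_pos]
      exact continuous_apply _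
    · simp only [ext, h, dif_neg, not_false_eq_true]
      exact continuous_const
  let hh : ι → C(A → unitInterval, ℝ) := fun a =>
    ⟨fun z => (f (ind (π a))).1 (ext z), (f (ind (π a))).2.comp hext⟩
  have hhΘ : ∀ a, Θ (hh a) = f (ind (π a)) := by
    intro a
    apply Subtype.ext
    funext y
    apply hdep (π a)
    intro i hi
    simp [ext, hi]
  have hB : ∀ a, ∃ B ∈ countableBasis C(A → unitInterval, ℝ), hh a ∈ B ∧ B ⊆ Θ ⁻¹' (W a) := by
    intro a
    apply (isBasis_countableBasis _).exists_subset_of_mem_open _ ((hWo a).preimage hΘ)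
    show Θ (hh a) ∈ W a
    rw [hhΘ, hWmem]
  choose B hB1 hB2 hB3 using hB
  apply hι
  have hinj : Function.Injective (fun a => (⟨B a, hB1 a⟩ :
      countableBasis C(A → unitInterval, ℝ))) := by
    intro a b hab
    have h1 : B a = B b := congrArg Subtype.val hab
    have h2 : hh a ∈ B b := h1 ▸ hB2 a
    have h3 : Θ (hh a) ∈ W b := hB3 b h2
    rw [hhΘ, hWmem] at h3
    exact h3
  exact hinj.countable

end Pool.Agent.S14028
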