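import Pool.Statements.S14217
import Pool.Agent.Torelli.Fin.Final
import Pool.Agent.Torelli.PG.Main
import Pool.Agent.Torelli.PG.TypeMain
import Pool.Agent.Torelli.E.Main

set_option autoImplicit false
open Pool Pool.MP_f42b78_gt

namespace Pool.Agent.S14217

/-- For every g ≥ 4, the group of outer automorphisms of the genus-g closed surface group acting trivially on its abelianization (the Torelli group) is generated by at most (4g³ − g)/3 elements. -/
theorem result :
    ∀ g : ℕ, 4 ≤ g → ∀ (G : Type) [Group G],
      Nonempty (G ≃* PresentedGroup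
        ({(List.ofFn (fun i : Fin g =>
            FreeGroup.of ((0 : Fin 2), i) * FreeGroup.of ((1 : Fin 2), i) *
              (FreeGroup.of ((0 : Fin 2), i))⁻¹ * (FreeGroup.of ((1 : Fin 2), i))⁻¹)).prod}
          : Set (FreeGroup (Fin 2 × Fin g)))) →
      ∃ f : Fin ((4 * g ^ 3 - g) / 3) → MulAut G,
        (∀ i : Fin ((4 * g ^ 3 - g) / 3), ∀ x : G,
            Abelianization.of (f i x) = Abelianization.of x) ∧
        ∀ ψ : MulAut G, (∀ x : G, Abelianization.of (ψ x) = Abelianization.of x) →
          ψ ∈ Subgroup.closure
            (Set.range f ∪ Set.range (fun x : G => MulAut.conj x)) := by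
  exact Pool.Agent.Torelli.final Pool.Agent.Torelli.pgStmt Pool.Agent.Torelli.typeStmt
    (fun s h hh => (Pool.Agent.Torelli.Tor_eq_JJ h s (by omega)).le)

end Pool.Agent.S14217
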