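import Pool.Statements.S14871
import Pool.Agent.SolIndex.Main

set_option autoImplicit false
open Pool Pool.MP_6facb1_lc

namespace Pool.Agent.S14871

/-- The set of codes of finite presentations whose presented group is solvable is Σ⁰₃ (∃∀∃ over a computable predicate), and every Σ⁰₃ set of naturals many-one reduces to it. -/
theorem result :
    (∃ R : ℕ × ℕ × ℕ × ℕ → Prop, ComputablePred R ∧ ∀ k : ℕ,
        (∃ p : (Σ n : ℕ, List (List (Fin n × Bool))), Encodable.decode k = some p ∧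
          IsSolvable (PresentedGroup {x : FreeGroup (Fin p.1) | ∃ w ∈ p.2, FreeGroup.mk w = x}))
        ↔ ∃ a : ℕ, ∀ b : ℕ, ∃ c : ℕ, R (k, a, b, c)) ∧
    ∀ B : ℕ → Prop,
      (∃ R : ℕ × ℕ × ℕ × ℕ → Prop, ComputablePred R ∧
        ∀ k : ℕ, B k ↔ ∃ a : ℕ, ∀ b : ℕ, ∃ c : ℕ, R (k, a, b, c)) →
      ManyOneReducible B (fun k : ℕ =>
        ∃ p : (Σ n : ℕ, List (List (Fin n × Bool))), Encodable.decode k = some p ∧
          IsSolvable (PresentedGroup {x : FreeGroup (Fin p.1) | ∃ w ∈ p.2, FreeGroup.mk w = x})) :=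
  ⟨SolIndex.sol_sigma3, SolIndex.sol_hard⟩

end Pool.Agent.S14871
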