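import Pool.Statements.S15424
import Pool.Agent.PAC.Main

set_option autoImplicit false
open Pool Pool.MP_d52dcb_lc

namespace Pool.Agent.S15424

/-- The negation of the preceding statement: Every computable scattered linear order (computable domain in ℕ, computable strict order, no copy of ℚ) is isomorphic to the lexicographically ordered isolated paths of some computable, prefix-closed, dead-end-free binary tree all of whose paths are computable. -/
theorem result :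
    ¬ (∀ (D : Set ℕ) (R : ℕ → ℕ → Prop),
    ComputablePred (fun n : ℕ => n ∈ D) →
    ComputablePred (fun p : ℕ × ℕ => R p.1 p.2) →
    (∀ x ∈ D, ¬ R x x) →
    (∀ x ∈ D, ∀ y ∈ D, ∀ z ∈ D, R x y → R y z → R x z) →
    (∀ x ∈ D, ∀ y ∈ D, x ≠ y → R x y ∨ R y x) →
    (¬ ∃ e : ℚ → ℕ, (∀ q, e q ∈ D) ∧ ∀ q r : ℚ, q < r → R (e q) (e r)) →
    ∃ T : Set (List Bool),
      ComputablePred (fun σ : List Bool => σ ∈ T) ∧
      (∀ σ τ : List Bool, σ ++ τ ∈ T → σ ∈ T) ∧
      (∀ σ ∈ T, ∃ b : Bool, σ ++ [b] ∈ T) ∧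
      (∀ f : ℕ → Bool, (∀ n : ℕ, List.ofFn (fun i : Fin n => f i) ∈ T) → Computable f) ∧
      ∃ φ : ℕ → ℕ → Bool,
        (∀ x ∈ D,
          (∀ n : ℕ, List.ofFn (fun i : Fin n => φ x i) ∈ T) ∧
          ∃ σ : List Bool, List.ofFn (fun i : Fin σ.length => φ x i) = σ ∧
            ∀ h : ℕ → Bool, (∀ n : ℕ, List.ofFn (fun i : Fin n => h i) ∈ T) →
              List.ofFn (fun i : Fin σ.length => h i) = σ → h = φ x) ∧
        (∀ g : ℕ → Bool,
          ((∀ n : ℕ, List.ofFn (fun i : Fin n => g i) ∈ T) ∧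
           ∃ σ : List Bool, List.ofFn (fun i : Fin σ.length => g i) = σ ∧
             ∀ h : ℕ → Bool, (∀ n : ℕ, List.ofFn (fun i : Fin n => h i) ∈ T) →
               List.ofFn (fun i : Fin σ.length => h i) = σ → h = g) →
          ∃ x ∈ D, φ x = g) ∧
        (∀ x ∈ D, ∀ y ∈ D,
          (R x y ↔ ∃ n : ℕ, (∀ i < n, φ x i = φ y i) ∧ φ x n = false ∧ φ y n = true))) := by
  intro H
  obtain ⟨T, hT, hpre, hde, hpac, φ, h1, h2, h3⟩ := H Pool.Agent.PAC.D0 Pool.Agent.PAC.R0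
    Pool.Agent.PAC.D0_comp Pool.Agent.PAC.R0_comp
    (fun x _ => Pool.Agent.PAC.R0_irrefl x)
    (fun x _ y _ z _ h1 h2 => Pool.Agent.PAC.R0_trans h1 h2)
    (fun x _ y _ hxy => Pool.Agent.PAC.R0_total hxy)
    Pool.Agent.PAC.D0_scattered
  exact Pool.Agent.PAC.not_represented T hT hpre hde hpac φ h1 h2 h3

end Pool.Agent.S15424
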