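import Pool.Statements.S15866
import Pool.Agent.UnitFrac.Final

set_option autoImplicit false
open Pool Pool.MP_02969a_nt

namespace Pool.Agent.S15866

/-- The negation of the preceding statement: For every ε>0 and all large N, the largest subset of {1,…,N} where no 1/a equals a sum of reciprocals of other distinct elements of the set has size between (1/2−ε)N and (1/2+ε)N. -/
theorem result :
    ¬ (∀ ε : ℝ, 0 < ε → ∃ N₀ : ℕ, ∀ N : ℕ, N₀ ≤ N →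
      (∃ A : Finset ℕ, A ⊆ Finset.Icc 1 N ∧
          (∀ a ∈ A, ∀ S : Finset ℕ, S ⊆ A → a ∉ S →
              ∑ b ∈ S, (1 : ℚ) / (b : ℚ) ≠ (1 : ℚ) / (a : ℚ)) ∧
          (1 / 2 - ε) * (N : ℝ) ≤ (A.card : ℝ)) ∧
      (∀ A : Finset ℕ, A ⊆ Finset.Icc 1 N →
          (∀ a ∈ A, ∀ S : Finset ℕ, S ⊆ A → a ∉ S →
              ∑ b ∈ S, (1 : ℚ) / (b : ℚ) ≠ (1 : ℚ) / (a : ℚ)) →
          (A.card : ℝ) ≤ (1 / 2 + ε) * (N : ℝ))) := by
  intro H
  obtain ⟨X, hX, hmain⟩ := Pool.Agent.UnitFrac.main_construction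
  have hXr : (2:ℝ) ≤ X := by exact_mod_cast hX
  have heps : (0:ℝ) < 1/(16*(X:ℝ)) := by positivity
  obtain ⟨N₀, hN₀⟩ := H (1/(16*(X:ℝ))) heps
  obtain ⟨N, hN, hNpos, A, hAsub, hAdm, hAcard⟩ := hmain N₀
  have h1 := (hN₀ N hN).2 A hAsub hAdm
  linarith

end Pool.Agent.S15866
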