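import Pool.Statements.S18419

set_option autoImplicit false
open Pool Pool.MP_c520af_nt

namespace Pool.Agent.S18419

/-- The polynomial `∏_{i<d} (X - i)`. -/
noncomputable def G (K : Type) [Field K] (d : ℕ) : Polynomial K :=
  ∏ i ∈ Finset.range d, (Polynomial.X - Polynomial.C (i : K))

lemma natDegree_G (K : Type) [Field K] (d : ℕ) : (G K d).natDegree = d := by
  unfold G
  rw [Polynomial.natDegree_prod_of_monic]
  · simp only [Polynomial.natDegree_X_sub_C]
    simp
  · intro i _
    exact Polynomial.monic_X_sub_C _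

lemma eval_G (K : Type) [Field K] (d j : ℕ) (hj : j < d) : (G K d).eval (j : K) = 0 := by
  unfold G
  rw [Polynomial.eval_prod]
  apply Finset.prod_eq_zero (Finset.mem_range.mpr hj)
  simp

theorem result :
    ∀ (K : Type) [Field K] [NumberField K],
      ∃ (F : ℕ → Polynomial K) (δ : ℕ → K),
        (∀ d : ℕ, 2 ≤ d → (F d).natDegree = d ∧ δ d ≠ 0) ∧
        ∀ C : ℕ, ∃ D : ℕ, ∀ d : ℕ, 2 ≤ d → D ≤ d →
          (((C * d : ℕ) : ℕ∞) <
            {P : K × K | ∃ n : ℕ, 1 ≤ n ∧
              (fun p : K × K => (p.2, (F d).eval p.2 - δ d * p.1))^[n] P = P}.encard) := by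
  classical
  intro K _ _
  refine ⟨G K, fun _ => -1, ?_, ?_⟩
  · intro d _
    exact ⟨natDegree_G K d, by simp⟩
  · intro C
    refine ⟨C + 1, ?_⟩
    intro d hd2 hd
    have hinj : Function.Injective (fun p : ℕ × ℕ => ((p.1 : K), (p.2 : K))) := by
      rintro ⟨a, b⟩ ⟨a', b'⟩ h
      simpa using h
    let T : Finset (K × K) :=
      (Finset.range d ×ˢ Finset.range d).image (fun p : ℕ × ℕ => ((p.1 : K), (p.2 : K)))
    have hT : T.card = d * d := by
      rw [Finset.card_image_of_injective _ hinj]
      simp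
    have hsub : (T : Set (K × K)) ⊆ {P : K × K | ∃ n : ℕ, 1 ≤ n ∧
              (fun p : K × K => (p.2, (G K d).eval p.2 - (-1 : K) * p.1))^[n] P = P} := by
      intro P hP
      simp only [T, Finset.coe_image, Set.mem_image, Finset.mem_coe, Finset.mem_product,
        Finset.mem_range] at hP
      obtain ⟨⟨a, b⟩, ⟨ha, hb⟩, rfl⟩ := hP
      refine ⟨2, by norm_num, ?_⟩
      simp only at ha hb
      simp only [Function.iterate_succ, Function.iterate_zero, Function.comp, id,
        eval_G K d b hb, eval_G K d a ha, zero_sub, neg_mul, one_mul, neg_neg]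
    have h1 := Set.encard_le_encard hsub
    rw [Set.encard_coe_eq_coe_finsetCard, hT] at h1
    refine lt_of_lt_of_le ?_ h1
    have : C * d < d * d := Nat.mul_lt_mul_of_pos_right (by omega) (by omega)
    exact_mod_cast this

end Pool.Agent.S18419
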