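import Pool.Statements.S19071
import Pool.Agent.Rein83.FinMain
import Pool.Agent.Rein83.U.Final

set_option autoImplicit false
open Pool Pool.MP_fcbba5_nt

namespace Pool.Agent.S19071

/-- Over all compact convex origin-symmetric plane bodies with nonempty interior, the infimum of area divided by critical determinant (least determinant of a lattice with no nonzero point inside) equals 4(8−4√2−ln2)/(2√2−1). -/
theorem result :
    sInf {r : ℝ | ∃ K : Set (ℝ × ℝ), IsCompact K ∧ Convex ℝ K ∧ (interior K).Nonempty ∧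
      (∀ x ∈ K, -x ∈ K) ∧
      r = (MeasureTheory.volume K).toReal /
        sInf {d : ℝ | ∃ a b : ℝ × ℝ, d = abs (a.1 * b.2 - a.2 * b.1) ∧ d ≠ 0 ∧
          ∀ m n : ℤ, (m ≠ 0 ∨ n ≠ 0) → (m : ℝ) • a + (n : ℝ) • b ∉ interior K}}
    = 4 * (8 - 4 * Real.sqrt 2 - Real.log 2) / (2 * Real.sqrt 2 - 1) := by
  exact le_antisymm Rein83U.upper Rein83.lower

end Pool.Agent.S19071
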