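import Pool.Statements.S19513
import Pool.Agent.SMin.Fin

set_option autoImplicit false
open Matrix
open Pool Pool.MP_9a4fa7_pr

namespace Pool.Agent.S19513

/-- For each d ≥ 3 and Lebesgue-a.e. complex z, and every ε>0, the probability that a uniform n×n 0/1 matrix with all row and column sums d has s_min(A − zI) ≤ e^{−εn} tends to 0 as n → ∞. -/
theorem result :
    ∀ d : ℕ, 3 ≤ d →
      ∀ᵐ z ∂(MeasureTheory.volume : MeasureTheory.Measure ℂ), ∀ ε : ℝ, 0 < ε →
        Filter.Tendsto
          (fun n : ℕ =>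
            (({A : Fin n → Fin n → Bool |
                (∀ i, (Finset.univ.filter (fun j => A i j = true)).card = d) ∧
                (∀ j, (Finset.univ.filter (fun i => A i j = true)).card = d) ∧
                ∃ x : Fin n → ℂ, (∑ k, ‖x k‖ ^ 2 = 1) ∧
                  ∑ k, ‖((Matrix.of (fun i j => if A i j = true then (1 : ℂ) else 0)
                        - z • (1 : Matrix (Fin n) (Fin n) ℂ)) *ᵥ x) k‖ ^ 2
                    ≤ Real.exp (-(ε * (n : ℝ))) ^ 2} : Set (Fin n → Fin n → Bool)).ncard : ℝ) /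
            (({A : Fin n → Fin n → Bool |
                (∀ i, (Finset.univ.filter (fun j => A i j = true)).card = d) ∧
                (∀ j, (Finset.univ.filter (fun i => A i j = true)).card = d)}
                : Set (Fin n → Fin n → Bool)).ncard : ℝ))
          Filter.atTop (nhds 0) := by
  intro d hd
  filter_upwards [Pool.Agent.SMin.good_z d] with z hz ε hε
  obtain ⟨hz0, hzd, hinv⟩ := hz
  classical
  have key : ∀ n : ℕ, (({A : Fin n → Fin n → Bool |
                (∀ i, (Finset.univ.filter (fun j => A i j = true)).card = d) ∧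
                (∀ j, (Finset.univ.filter (fun i => A i j = true)).card = d) ∧
                ∃ x : Fin n → ℂ, (∑ k, ‖x k‖ ^ 2 = 1) ∧
                  ∑ k, ‖((Matrix.of (fun i j => if A i j = true then (1 : ℂ) else 0)
                        - z • (1 : Matrix (Fin n) (Fin n) ℂ)) *ᵥ x) k‖ ^ 2
                    ≤ Real.exp (-(ε * (n : ℝ))) ^ 2} : Set (Fin n → Fin n → Bool)).ncard : ℝ) /
            (({A : Fin n → Fin n → Bool |
                (∀ i, (Finset.univ.filter (fun j => A i j = true)).card = d) ∧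
                (∀ j, (Finset.univ.filter (fun i => A i j = true)).card = d)}
                : Set (Fin n → Fin n → Bool)).ncard : ℝ) =
      Pool.Agent.SMin.fr (Pool.Agent.SMin.Reg n d) (fun A => ∃ x : Fin n → ℂ, (∑ k, ‖x k‖ ^ 2 = 1) ∧
        ∑ k, ‖(Matrix.mulVec (Pool.Agent.SMin.Mz z A) x) k‖ ^ 2 ≤ Real.exp (-(ε * (n : ℝ))) ^ 2) := by
    intro n
    rw [Pool.Agent.SMin.fr_def]
    congr 2
    · rw [← Set.ncard_coe_finset]
      congr 1
      ext A
      simp only [Set.mem_setOf_eq, Finset.coe_filter, Pool.Agent.SMin.mem_Reg]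
      tauto
    · rw [← Set.ncard_coe_finset]
      congr 1
      ext A
      simp only [Set.mem_setOf_eq, Finset.mem_coe, Pool.Agent.SMin.mem_Reg]
  simp_rw [key]
  rw [Metric.tendsto_atTop']
  intro η hη
  have h := Pool.Agent.SMin.final d hd z hz0 hzd hinv ε hε (η / 2) (by positivity)
  obtain ⟨N, hN⟩ := Filter.eventually_atTop.1 h
  refine ⟨N, fun n hn => ?_⟩
  have h1 := hN n hn.le
  have h2 := Pool.Agent.SMin.fr_nonneg (Pool.Agent.SMin.Reg n d) (fun A => ∃ x : Fin n → ℂ, (∑ k, ‖x k‖ ^ 2 = 1) ∧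
        ∑ k, ‖(Matrix.mulVec (Pool.Agent.SMin.Mz z A) x) k‖ ^ 2 ≤ Real.exp (-(ε * (n : ℝ))) ^ 2)
  rw [Real.dist_eq, sub_zero, abs_of_nonneg h2]
  linarith

end Pool.Agent.S19513
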