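import Pool.Statements.S19562
import Pool.Agent.AlgRec.Light
import Pool.Agent.AlgRec.Heavy

set_option autoImplicit false
open MeasureTheory
open Pool Pool.MP_aa6ebe_pr

namespace Pool.Agent.S19562

/-- The negation of the preceding statement: For every countable group and any two symmetric probability measures whose supports generate it: if a.s. the products X_n, X_{n+1}, ... of the walk generate the whole group as a semigroup for every n under the first, the same holds under the second. -/
theorem result :
    ¬ (∀ (G : Type) [Group G] [Countable G] [MeasurableSpace G] [DiscreteMeasurableSpace G]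
      (μ ν : PMF G),
      (∀ g : G, μ g⁻¹ = μ g) → Subgroup.closure μ.support = ⊤ →
      (∀ g : G, ν g⁻¹ = ν g) → Subgroup.closure ν.support = ⊤ →
      (∀ n : ℕ, ∀ᵐ ω ∂(Measure.infinitePi (fun _ : ℕ => μ.toMeasure)),
          Subsemigroup.closure
            (Set.range (fun k : ℕ => ((List.range (n + k)).map ω).prod)) = ⊤) →
      (∀ n : ℕ, ∀ᵐ ω ∂(Measure.infinitePi (fun _ : ℕ => ν.toMeasure)),
          Subsemigroup.closure
            (Set.range (fun k : ℕ => ((List.range (n + k)).map ω).prod)) = ⊤)) := by
  intro h
  letI : MeasurableSpace Pool.Agent.AlgRec.DS := ⊤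
  haveI : DiscreteMeasurableSpace Pool.Agent.AlgRec.DS := ⟨fun _ => trivial⟩
  have h1 := h Pool.Agent.AlgRec.DS Pool.Agent.AlgRec.muL Pool.Agent.AlgRec.muH
    Pool.Agent.AlgRec.muL_inv Pool.Agent.AlgRec.muL_gen
    Pool.Agent.AlgRec.muH_inv Pool.Agent.AlgRec.muH_gen
    (fun n => Pool.Agent.AlgRec.muL_AR n)
  exact Pool.Agent.AlgRec.muH_not_AR (h1 1)

end Pool.Agent.S19562
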